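import Pool.Agent.L5helper53.TL.Curve
import Pool.Agent.TH735.FO.Rule

/-!
Quantifiers guarded by two-level exponential equations.
-/

set_option autoImplicit false

namespace Pool.Agent.L5helper53.TL

open Set Filter Topology Complex Metric Cardinal
open Pool.Agent.TH735.FO
open Pool.Agent.TH735.QM

/-- `F(s, x)` is a finite sum of terms `x ^ e * exp (Q (h(s) x)) * c(s, exp (h(s) x))`, where
`h` is entire, the `Q` are polynomials in `y`, `e^y`, `e^{-y}`, and the `c(s, w)` are analytic for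
`w ≠ 0`, of finite order in `w` and `1 / w` locally uniformly in `s`; for any two terms, the
exponents `e` are different or the absolute value of the quotient of the functions `exp (Q y)` is not
invariant under `y ↦ y + 2 π i` -/
def TwoLevel {m : ℕ} (F : (Fin m → ℂ) → ℂ → ℂ) : Prop :=
  ∃ (h : (Fin m → ℂ) → ℂ) (N : ℕ) (e : Fin N → ℕ) (Q : Fin N → ℂ → ℂ)
    (c : Fin N → (Fin m → ℂ) → ℂ → ℂ),
    AnalyticOnNhd ℂ h Set.univ ∧ (∀ j, IntExpPoly (Q j)) ∧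
    (∀ j l, j ≠ l → e j ≠ e l ∨ ∃ y, (Q j (y + 2 * Real.pi * I) - Q l (y + 2 * Real.pi * I)).re ≠
      (Q j y - Q l y).re) ∧
    (∀ j, AnalyticOnNhd ℂ (fun p : (Fin m → ℂ) × ℂ => c j p.1 p.2) {p | p.2 ≠ 0}) ∧
    (∀ j s₀, ∃ (A : ℝ) (ρ : ℕ), ∀ᶠ s in 𝓝 s₀, ∀ w ≠ 0,
      ‖c j s w‖ ≤ Real.exp (A * (‖w‖ + ‖w‖⁻¹) ^ ρ)) ∧
    ∀ s x, F s x = ∑ j, x ^ e j * exp (Q j (h s * x)) * c j s (exp (h s * x))

/-- the number of zeros of `F(γ(t), ·)` with a condition is generically constant on all analytic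
curves `γ` -/
structure Grd {m : ℕ} (F : (Fin m → ℂ) → ℂ → ℂ) : Prop where
  an : AnalyticOnNhd ℂ (fun p : (Fin m → ℂ) × ℂ => F p.1 p.2) Set.univ
  gen : ∀ U : Set ℂ, IsOpen U → IsPreconnected U → ∀ γ : ℂ → (Fin m → ℂ), AnalyticOnNhd ℂ γ U →
    ∀ Y : ℂ → ℂ → Prop, LQ U Y →
    GenCard U fun t x => (∃ x', F (γ t) x' ≠ 0) ∧ F (γ t) x = 0 ∧ Y t x

theorem curve_analytic {m : ℕ} {F : (Fin m → ℂ) → ℂ → ℂ}
    (hF : AnalyticOnNhd ℂ (fun p : (Fin m → ℂ) × ℂ => F p.1 p.2) Set.univ)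
    {U : Set ℂ} {γ : ℂ → (Fin m → ℂ)} (hγ : AnalyticOnNhd ℂ γ U) :
    AnalyticOnNhd ℂ (fun p : ℂ × ℂ => F (γ p.1) p.2) (U ×ˢ Set.univ) := by
  rintro ⟨t, x⟩ ⟨ht, -⟩
  have h1 : AnalyticAt ℂ (fun p : ℂ × ℂ => (γ p.1, p.2)) (t, x) :=
    ((hγ t ht).comp (f := fun p : ℂ × ℂ => p.1) (x := (t, x)) analyticAt_fst).prod
      analyticAt_snd
  exact (hF (γ t, x) (mem_univ _)).comp (f := fun p : ℂ × ℂ => (γ p.1, p.2))
    (x := (t, x)) h1

theorem Grd.of_finiteOrder {m : ℕ} {F : (Fin m → ℂ) → ℂ → ℂ}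
    (hF : AnalyticOnNhd ℂ (fun p : (Fin m → ℂ) × ℂ => F p.1 p.2) Set.univ)
    (hord : FiniteOrder F) : Grd F where
  an := hF
  gen := by
    intro U hU hUc γ hγ Y hY
    refine finite_order_count hU hUc (curve_analytic hF hγ) hY ?_
    intro t₀ ht₀
    obtain ⟨A, ρ, h⟩ := hord (γ t₀)
    exact ⟨A, ρ, (hγ t₀ ht₀).continuousAt.eventually h⟩

theorem TwoLevel.an {m : ℕ} {F : (Fin m → ℂ) → ℂ → ℂ} (hF : TwoLevel F) :
    AnalyticOnNhd ℂ (fun p : (Fin m → ℂ) × ℂ => F p.1 p.2) Set.univ := by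
  obtain ⟨h, N, e, Q, c, hh, hQ, -, hc, -, hFe⟩ := hF
  rintro ⟨s, x⟩ -
  have h0 : (fun p : (Fin m → ℂ) × ℂ => F p.1 p.2) = fun p =>
      ∑ j, p.2 ^ e j * exp (Q j (h p.1 * p.2)) * c j p.1 (exp (h p.1 * p.2)) := by
    funext p
    exact hFe p.1 p.2
  rw [h0]
  refine Finset.analyticAt_fun_sum _ fun j _ => ?_
  have h1 : AnalyticAt ℂ (fun p : (Fin m → ℂ) × ℂ => h p.1 * p.2) (s, x) :=
    ((hh s (mem_univ _)).comp (f := fun p : (Fin m → ℂ) × ℂ => p.1) (x := (s, x))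
      analyticAt_fst).mul analyticAt_snd
  have h2 : AnalyticAt ℂ (fun p : (Fin m → ℂ) × ℂ => exp (Q j (h p.1 * p.2))) (s, x) :=
    (((hQ j).diff.cexp.analyticAt (h s * x)).comp
      (f := fun p : (Fin m → ℂ) × ℂ => h p.1 * p.2) (x := (s, x)) h1)
  have h3 : AnalyticAt ℂ (fun p : (Fin m → ℂ) × ℂ => exp (h p.1 * p.2)) (s, x) :=
    ((differentiable_exp.analyticAt (h s * x)).comp
      (f := fun p : (Fin m → ℂ) × ℂ => h p.1 * p.2) (x := (s, x)) h1)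
  have h4 : AnalyticAt ℂ (fun p : (Fin m → ℂ) × ℂ => c j p.1 (exp (h p.1 * p.2))) (s, x) :=
    (hc j (s, exp (h s * x)) (exp_ne_zero _)).comp
      (f := fun p : (Fin m → ℂ) × ℂ => (p.1, exp (h p.1 * p.2))) (x := (s, x))
      (analyticAt_fst.prod h3)
  exact ((analyticAt_snd.pow (e j)).mul h2).mul h4

theorem Grd.of_twoLevel {m : ℕ} {F : (Fin m → ℂ) → ℂ → ℂ} (hF : TwoLevel F) : Grd F where
  an := hF.an
  gen := by
    intro U hU hUc γ hγ Y hY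
    have han := curve_analytic hF.an hγ
    obtain ⟨h, N, e, Q, c, hh, hQ, hsep, hc, hgr, hFe⟩ := hF
    refine curve_count hU hUc (e := e) (Q := Q) (η := fun t => h (γ t))
      (C := fun j p => c j (γ p.1) p.2) ?_ ?_ hQ hsep ?_ han ?_ hY
    · intro t ht
      exact (hh (γ t) (mem_univ _)).comp (hγ t ht)
    · rintro j ⟨t, w⟩ ⟨ht, hw⟩
      have h1 : AnalyticAt ℂ (fun p : ℂ × ℂ => (γ p.1, p.2)) (t, w) :=
        ((hγ t ht).comp (f := fun p : ℂ × ℂ => p.1) (x := (t, w)) analyticAt_fst).prod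
          analyticAt_snd
      exact (hc j (γ t, w) hw).comp (f := fun p : ℂ × ℂ => (γ p.1, p.2)) (x := (t, w)) h1
    · intro j t₀ ht₀
      obtain ⟨A, ρ, h⟩ := hgr j (γ t₀)
      exact ⟨A, ρ, (hγ t₀ ht₀).continuousAt.eventually h⟩
    · intro t _ x
      exact hFe (γ t) x

/-- Quantifiers guarded by an equation with generically constant numbers of zeros. -/
theorem CQ_guard {m : ℕ} {F : (Fin m → ℂ) → ℂ → ℂ} (hF : Grd F)
    {X : Set (Fin (m + 1) → ℂ)} (hX : CQ (m + 1) X)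
    {P : Set (Fin m → ℂ) → Prop} {Q : Set (Fin 1 → ℂ) → Prop}
    (hP : ∀ E, P E → CQ m E) (hQ : ∀ D, Q D → CQ 1 D)
    {R : Set ((Fin m → ℂ) × (Fin 1 → ℂ))} (hR : Rect P Q R) (κ : Cardinal.{0}) :
    CQ m {s | κ ≤ #({x : ℂ | (IsZero F s x ∧
      (Fin.snoc (α := fun _ => ℂ) s x : Fin (m + 1) → ℂ) ∈ X) ∨
      (¬ IsZero F s x ∧ (s, fun _ => x) ∈ R)} : Set ℂ)} := by
  intro U hU hUc γ hγ
  obtain ⟨B, hB, X₀, hX₀, h₀⟩ := hR.slice_one hP hQ hU hUc hγ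
  have hfan := curve_analytic hF.an hγ
  have h1 := hF.gen U hU hUc γ hγ _ (LQ.CQ hγ hX)
  have h2 := genCard_off hU hUc hfan hX₀
  have h3 := h1.or h2 (fun t x h h' => h'.2 ⟨h.1, h.2.1⟩)
  refine ((h3.congr hB ?_).qm κ)
  intro t ht htB x
  have hR' := h₀ t ht htB x
  show _ ↔ (IsZero F (γ t) x ∧ (Fin.snoc (α := fun _ => ℂ) (γ t) x : Fin (m + 1) → ℂ) ∈ X) ∨
      (¬ IsZero F (γ t) x ∧ (γ t, fun _ => x) ∈ R)
  rw [hR']
  unfold IsZero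
  tauto

end Pool.Agent.L5helper53.TL
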