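import Pool.Agent.TH735.BF.Block
import Pool.Agent.L5helper53.TL.Rule2

/-!
Closures under solving equations with generically constant numbers of zeros: along an analytic curve
their isomorphism type is constant outside of a countable set. The proofs are those of the starting
files `Pool.Agent.TH735.BF`, with the growth condition on the equations replaced by the property `Grd`.
-/

set_option autoImplicit false

namespace Pool.Agent.L5helper53.TL

open Set Filter Topology Complex Metric Cardinal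
open Pool.Agent.TH735.QM Pool.Agent.TH735.FO Pool.Agent.TH735.BF

/-- a function that may be used to guard a quantifier -/
structure RegH (g : (ℕ → ℂ) → ℂ → ℂ) : Prop where
  an : ∀ p : Pc, AnalyticOnNhd ℂ (fun q : ℂ × ℂ => g (p.φ q.1) q.2) (p.U ×ˢ Set.univ)
  gen : ∀ p : Pc, ∀ Y : ℂ → ℂ → Prop, LQ p.U Y →
    GenCard p.U fun t x => (∃ x', g (p.φ t) x' ≠ 0) ∧ g (p.φ t) x = 0 ∧ Y t x

/-- outside of a countable set, all zeros are good -/
theorem good_offH {g : (ℕ → ℂ) → ℂ → ℂ} (hg : RegH g) (p : Pc)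
    (hne : ∃ t ∈ p.U, ∃ x, g (p.φ t) x ≠ 0) :
    ∃ B : Set ℂ, B.Countable ∧ ∀ t ∈ p.U, t ∉ B → (∃ x, g (p.φ t) x ≠ 0) ∧
      ∀ x, g (p.φ t) x = 0 → Good (fun q : ℂ × ℂ => g (p.φ q.1) q.2) (t, x) := by
  obtain ⟨t₁, ht₁, x₁, hx₁⟩ := hne
  set f : ℂ × ℂ → ℂ := fun q => g (p.φ q.1) q.2 with hf
  have hfan : AnalyticOnNhd ℂ f (p.U ×ˢ Set.univ) := hg.an p
  have hsl := slice_left hfan x₁
  have hB := zeros_countableOn p.conn hsl ⟨t₁, ht₁, hx₁⟩
  set U₁ : Set ℂ := p.U ∩ {t | f (t, x₁) ≠ 0} with hU₁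
  have hU₁o : IsOpen U₁ := by
    have h1 : ContinuousOn (fun t => f (t, x₁)) p.U := hsl.continuousOn
    exact h1.isOpen_inter_preimage p.op isOpen_ne
  have hf₁ : AnalyticOnNhd ℂ f (U₁ ×ˢ Set.univ) :=
    hfan.mono (prod_mono inter_subset_left Subset.rfl)
  have hbad := (bad_countable hU₁o hf₁ (fun t ht => ⟨x₁, ht.2⟩)).image Prod.fst
  refine ⟨_, hB.union hbad, ?_⟩
  intro t ht htB
  have h1 : f (t, x₁) ≠ 0 := fun h => htB (Or.inl ⟨ht, h⟩)
  refine ⟨⟨x₁, h1⟩, ?_⟩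
  intro x hx
  by_contra hG
  exact htB (Or.inr ⟨(t, x), ⟨⟨ht, h1⟩, hx, hG⟩, rfl⟩)

theorem lq_YtH {g : (ℕ → ℂ) → ℂ → ℂ} (hg : RegH g) (p : Pc) (n : ℕ) (w : Pc)
    (hne : ∃ t ∈ p.U, ∃ x, g (p.φ t) x ≠ 0) : LQ p.U (Yt g n w p.φ) := by
  intro W hWU hW hWc z hz
  rcases W.eq_empty_or_nonempty with hW0 | hW0
  · left
    rw [hW0, empty_inter]
    exact countable_empty
  set f : ℂ × ℂ → ℂ := fun q => g (p.φ q.1) q.2 with hf
  by_cases hf0 : ∀ t ∈ W, f (t, z t) = 0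
  · obtain ⟨B, hB, hgood⟩ := good_offH hg p hne
    set qW := p.add n W z hWU hW hWc hW0 hz with hqW
    have key : ∀ t ∈ W, t ∉ B → (Yt g n w p.φ t (z t) ↔ Eqv qW w) := by
      intro t ht htB
      constructor
      · rintro ⟨q, hqw, htq, hqz, hev⟩
        have hG := (hgood t (hWU ht) htB).2 (z t) (hf0 t ht)
        have hev1 : ∀ᶠ s in 𝓝 t, f (s, z s) = 0 := by
          filter_upwards [hW.mem_nhds ht] with s hs
          exact hf0 s hs
        have huniq := good_unique hG (q.an n t htq).continuousAt (hz t ht).continuousAt hqz rfl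
          (hev.mono fun s hs => hs.2) hev1
        have hov : Ov qW q := by
          refine ⟨t, ht, htq, ?_⟩
          filter_upwards [hev, huniq] with s h1 h2
          rw [h1.1, h2]
          rfl
        exact hov.eqv.trans hqw
      · intro hqw
        refine ⟨qW, hqw, ht, ?_, ?_⟩
        · show Function.update (p.φ t) n (z t) n = z t
          simp
        · filter_upwards [hW.mem_nhds ht] with s hs
          have e : qW.φ s n = z s := by
            show Function.update (p.φ s) n (z s) n = z s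
            simp
          rw [e]
          exact ⟨rfl, hf0 s hs⟩
    by_cases hE : Eqv qW w
    · right
      refine hB.mono ?_
      rintro t ⟨ht, hn⟩
      by_contra htB
      exact hn ((key t ht htB).2 hE)
    · left
      refine hB.mono ?_
      rintro t ⟨ht, hn⟩
      by_contra htB
      exact hE ((key t ht htB).1 hn)
  · left
    push Not at hf0
    have han : AnalyticOnNhd ℂ (fun t => f (t, z t)) W := by
      intro t ht
      have h1 : AnalyticAt ℂ f (t, z t) := hg.an p (t, z t) ⟨hWU ht, mem_univ _⟩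
      exact h1.comp (f := fun t => (t, z t)) (analyticAt_id.prod (hz t ht))
    refine (zeros_countableOn hWc han hf0).mono ?_
    rintro t ⟨ht, q, -, -, hqz, hev⟩
    refine ⟨ht, ?_⟩
    have := hev.self_of_nhds.2
    rw [hqz] at this
    exact this

theorem reg_EtH {g : (ℕ → ℂ) → ℂ → ℂ} (hg : RegH g) (n : ℕ) (w : Pc) : Reg (Et g n w) where
  loc := by
    rintro φ φ' t hev ⟨z, hx, hz, q, h1, h2, h3, h4⟩
    have h0 : φ t = φ' t := hev.self_of_nhds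
    rw [h0] at hx hz
    refine ⟨z, hx, hz, q, h1, h2, h3, ?_⟩
    filter_upwards [hev, h4] with s h5 h6
    rw [← h5]
    exact h6
  qm := by
    intro p
    by_cases hne : ∃ t ∈ p.U, ∃ x, g (p.φ t) x ≠ 0
    · have h1 := (hg.gen p _ (lq_YtH hg p n w hne)).qm 1
      refine h1.congr' ?_
      intro t _
      simp only [Set.mem_ofPred_eq]
      rw [Cardinal.one_le_iff_ne_zero, Cardinal.mk_ne_zero_iff, nonempty_subtype]
      rfl
    · left
      convert countable_empty using 1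
      ext t
      simp only [mem_inter_iff, Set.mem_ofPred_eq, mem_empty_iff_false, iff_false, not_and]
      rintro ht ⟨z, hx, -⟩
      exact hne ⟨t, ht, hx⟩

theorem engineH {ι τ : Type} [Countable ι] [Countable τ] (root : Pc) (d : ℕ)
    (hd : ∀ t ∈ root.U, ∀ i > d, root.φ t i = root.φ t 0) (g : ι → (ℕ → ℂ) → ℂ → ℂ)
    (hg : ∀ i, RegH (g i)) (T : τ → (ℕ → ℂ) → Prop)
    (hT : ∀ j, ∀ p : Pc, QmOn p.U {t | T j (p.φ t)}) :
    ∃ (B : Set ℂ) (I : ℂ → ℂ → ℕ → (ℕ → ℂ) → (ℕ → ℂ) → Prop), B.Countable ∧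
      (∀ t ∈ root.U, ∀ t' ∈ root.U, I t t' d (root.φ t) (root.φ t')) ∧
      (∀ t t' n x x', I t t' n x x' → I t' t n x' x) ∧
      (∀ t t' n x x', I t t' n x x' → ∀ i > n, x i = x 0) ∧
      (∀ t t', t ∉ B → t' ∉ B → ∀ n x x', I t t' n x x' → ∀ j, T j x → T j x') ∧
      (∀ t t', t ∉ B → t' ∉ B → ∀ n x x', I t t' n x x' → ∀ i z, (∃ y, g i x y ≠ 0) →
        g i x z = 0 → ∃ z', (∃ y, g i x' y ≠ 0) ∧ g i x' z' = 0 ∧
          I t t' (n + 1) (Function.update x (n + 1) z) (Function.update x' (n + 1) z')) := by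
  choose Q hQc hQ1 hQ2 using fun (i : ι) (p : Pc) (n : ℕ) => cover (g i) p n
  set P : ℕ → Set Pc := fun n => Nat.rec {root}
    (fun n S => ⋃ p ∈ S, ⋃ i, Q i p (d + n + 1)) n with hP
  have hP0 : P 0 = {root} := rfl
  have hPs : ∀ n, P (n + 1) = ⋃ p ∈ P n, ⋃ i, Q i p (d + n + 1) := fun n => rfl
  have hPc : ∀ n, (P n).Countable := by
    intro n
    induction n with
    | zero => rw [hP0]; exact countable_singleton _
    | succ n ih =>
      rw [hPs]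
      exact ih.biUnion fun p _ => countable_iUnion fun i => hQc i p (d + n + 1)
  have hjunk : ∀ n, ∀ p ∈ P n, ∀ t ∈ p.U, ∀ i > d + n, p.φ t i = p.φ t 0 := by
    intro n
    induction n with
    | zero =>
      intro p hp t ht
      rw [hP0, mem_singleton_iff] at hp
      subst hp
      exact hd t ht
    | succ n ih =>
      intro q hq t ht
      rw [hPs] at hq
      obtain ⟨p, hp, hq⟩ := mem_iUnion₂.1 hq
      obtain ⟨i, hq⟩ := mem_iUnion.1 hq
      obtain ⟨hsub, h1⟩ := hQ1 i p (d + n + 1) q hq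
      have h2 := (h1 t ht).1
      have h3 := ih p hp t (hsub ht)
      intro j hj
      rw [h2, Function.update_of_ne (by omega), Function.update_of_ne (by omega)]
      exact h3 j (by omega)
  -- the exceptional set
  have hgood : ∀ (i : ι) (p : Pc), ∃ B : Set ℂ, B.Countable ∧ ∀ t ∈ p.U, t ∉ B →
      (∃ x, g i (p.φ t) x ≠ 0) → ∀ x, g i (p.φ t) x = 0 →
        Good (fun q : ℂ × ℂ => g i (p.φ q.1) q.2) (t, x) := by
    intro i p
    by_cases hne : ∃ t ∈ p.U, ∃ x, g i (p.φ t) x ≠ 0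
    · obtain ⟨B, hB, h⟩ := good_offH (hg i) p hne
      exact ⟨B, hB, fun t ht htB _ => (h t ht htB).2⟩
    · exact ⟨∅, countable_empty, fun t ht _ hx => absurd ⟨t, ht, hx⟩ hne⟩
  choose Bd hBd hBd' using hgood
  set B : Set ℂ := ⋃ n, ⋃ p ∈ P n, ((⋃ j, exc (fun φ t => T j (φ t)) p) ∪
    (⋃ i, ⋃ w ∈ P (n + 1), exc (Et (g i) (d + n + 1) w) p) ∪ ⋃ i, Bd i p) with hB
  have hBc : B.Countable := by
    refine countable_iUnion fun n => (hPc n).biUnion fun p _ => ?_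
    refine ((countable_iUnion fun j => exc_countable' (reg_test (hT j)) p).union
      (countable_iUnion fun i => (hPc (n + 1)).biUnion fun w _ =>
        exc_countable' (reg_EtH (hg i) _ _) p)).union (countable_iUnion fun i => hBd i p)
  set I : ℂ → ℂ → ℕ → (ℕ → ℂ) → (ℕ → ℂ) → Prop := fun t t' n x x' =>
    ∃ k, n = d + k ∧ ∃ p ∈ P k, ∃ p' ∈ P k, Eqv p p' ∧ t ∈ p.U ∧ t' ∈ p'.U ∧ x = p.φ t ∧
      x' = p'.φ t' with hI
  have hB1 : ∀ t, t ∉ B → ∀ n, ∀ p ∈ P n, t ∈ p.U → ∀ j, (T j (p.φ t) ↔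
      Gn (fun φ t => T j (φ t)) p) := by
    intro t htB n p hp ht j
    by_contra hcon
    apply htB
    refine mem_iUnion.2 ⟨n, mem_iUnion₂.2 ⟨p, hp, Or.inl (Or.inl (mem_iUnion.2 ⟨j, ht, hcon⟩))⟩⟩
  have hB2 : ∀ t, t ∉ B → ∀ n, ∀ p ∈ P n, t ∈ p.U → ∀ i, ∀ w ∈ P (n + 1),
      (Et (g i) (d + n + 1) w p.φ t ↔ Gn (Et (g i) (d + n + 1) w) p) := by
    intro t htB n p hp ht i w hw
    by_contra hcon
    apply htB
    refine mem_iUnion.2 ⟨n, mem_iUnion₂.2 ⟨p, hp, Or.inl (Or.inr (mem_iUnion.2 ⟨i,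
      mem_iUnion₂.2 ⟨w, hw, ht, hcon⟩⟩))⟩⟩
  have hB3 : ∀ t, t ∉ B → ∀ n, ∀ p ∈ P n, ∀ i, t ∉ Bd i p := by
    intro t htB n p hp i h
    exact htB (mem_iUnion.2 ⟨n, mem_iUnion₂.2 ⟨p, hp, Or.inr (mem_iUnion.2 ⟨i, h⟩)⟩⟩)
  refine ⟨B, I, hBc, ?_, ?_, ?_, ?_, ?_⟩
  · intro t ht t' ht'
    exact ⟨0, rfl, root, rfl, root, rfl, Eqv.refl _, ht, ht', rfl, rfl⟩
  · rintro t t' n x x' ⟨k, hk, p, hp, p', hp', he, ht, ht', hx, hx'⟩
    exact ⟨k, hk, p', hp', p, hp, he.symm, ht', ht, hx', hx⟩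
  · rintro t t' n x x' ⟨k, hk, p, hp, p', hp', he, ht, ht', hx, hx'⟩
    rw [hx, hk]
    exact hjunk k p hp t ht
  · rintro t t' htB htB' n x x' ⟨k, hk, p, hp, p', hp', he, ht, ht', hx, hx'⟩ j hj
    rw [hx] at hj
    rw [hx']
    exact (hB1 t' htB' k p' hp' ht' j).2 (((hB1 t htB k p hp ht j).1 hj).eqv
      (reg_test (hT j)) he)
  · rintro t t' htB htB' _ x x' ⟨n, rfl, p, hp, p', hp', he, ht, ht', hx, hx'⟩ i z hne hz
    subst hx hx'
    have hG := hBd' i p t ht (hB3 t htB n p hp i) hne z hz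
    obtain ⟨q, hq, htq, hqz⟩ := hQ2 i p (d + n + 1) t ht z hG
    obtain ⟨hqU, hq1⟩ := hQ1 i p (d + n + 1) q hq
    have hqP : q ∈ P (n + 1) := by
      rw [hPs]
      exact mem_iUnion₂.2 ⟨p, hp, mem_iUnion.2 ⟨i, hq⟩⟩
    have hE : Et (g i) (d + n + 1) q p.φ t := by
      refine ⟨z, hne, hz, q, Eqv.refl _, htq, hqz, ?_⟩
      filter_upwards [q.op.mem_nhds htq] with s hs
      exact hq1 s hs
    have hE' : Et (g i) (d + n + 1) q p'.φ t' :=
      (hB2 t' htB' n p' hp' ht' i q hqP).2 (((hB2 t htB n p hp ht i q hqP).1 hE).eqv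
        (reg_EtH (hg i) _ _) he)
    obtain ⟨z', hne', hz', q'', hq''q, htq'', hqz'', hev⟩ := hE'
    have hG' := hBd' i p' t' ht' (hB3 t' htB' n p' hp' i) hne' z' hz'
    obtain ⟨q', hq', htq', hqz'⟩ := hQ2 i p' (d + n + 1) t' ht' z' hG'
    obtain ⟨hqU', hq1'⟩ := hQ1 i p' (d + n + 1) q' hq'
    have hqP' : q' ∈ P (n + 1) := by
      rw [hPs]
      exact mem_iUnion₂.2 ⟨p', hp', mem_iUnion.2 ⟨i, hq'⟩⟩
    have huniq := good_unique hG' (q'.an (d + n + 1) t' htq').continuousAt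
      (q''.an (d + n + 1) t' htq'').continuousAt hqz' hqz'' (by
        filter_upwards [q'.op.mem_nhds htq'] with s hs
        exact (hq1' s hs).2) (hev.mono fun s hs => hs.2)
    have hov : Ov q' q'' := by
      refine ⟨t', htq', htq'', ?_⟩
      filter_upwards [huniq, hev, q'.op.mem_nhds htq'] with s h1 h2 h3
      rw [(hq1' s h3).1, h2.1, h1]
    refine ⟨z', hne', hz', n + 1, rfl, q, hqP, q', hqP', (hov.eqv.trans hq''q).symm, htq, htq', ?_, ?_⟩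
    · rw [(hq1 t htq).1, hqz]
    · rw [(hq1' t' htq').1, hqz']

theorem regH {m : ℕ} {F : (Fin m → ℂ) → ℂ → ℂ} (hF : Grd F) (K : Set ℂ) (ι : Fin m → ℕ ⊕ K) :
    RegH (fun x z => F (fun a => ev K x (ι a)) z) where
  an := by
    rintro p ⟨t, z⟩ ⟨ht, -⟩
    have h1 : AnalyticAt ℂ (fun q : ℂ × ℂ => ((fun a => ev K (p.φ q.1) (ι a), q.2) :
        (Fin m → ℂ) × ℂ)) (t, z) :=
      ((ev_an' K p ι t ht).comp (f := fun q : ℂ × ℂ => q.1) (x := (t, z)) analyticAt_fst).prod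
        analyticAt_snd
    exact (hF.an _ (mem_univ _)).comp (f := fun q : ℂ × ℂ =>
      ((fun a => ev K (p.φ q.1) (ι a), q.2) : (Fin m → ℂ) × ℂ)) (x := (t, z)) h1
  gen := by
    intro p Y hY
    exact hF.gen p.U p.op p.conn (fun t a => ev K (p.φ t) (ι a)) (ev_an' K p ι) Y hY

/-- The isomorphism type of the closure of a point on an analytic curve is constant outside of a
countable set. -/
theorem closuresH {m : ℕ → ℕ} {F : (k : ℕ) → (Fin (m k) → ℂ) → ℂ → ℂ}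
    (hG : ∀ k, Grd (F k)) {τ : Type} [Countable τ] {n : τ → ℕ}
    {R : (j : τ) → Set (Fin (n j) → ℂ)} (hR : ∀ j, CQ (n j) (R j)) {A : Set ℂ} (hA : A.Countable) {U : Set ℂ} (hU : IsOpen U)
    (hUc : IsPreconnected U) {d : ℕ} {γ : ℂ → (Fin (d + 1) → ℂ)} (hγ : AnalyticOnNhd ℂ γ U) :
    ∃ B : Set ℂ, B.Countable ∧ ∀ t ∈ U, ∀ t' ∈ U, t ∉ B → t' ∉ B →
      ∃ σ : {z // Cl F (A ∪ range (γ t)) z} ≃ {z // Cl F (A ∪ range (γ t')) z},
        (∀ i, (σ ⟨γ t i, Cl.base (Or.inr ⟨i, rfl⟩)⟩ : ℂ) = γ t' i) ∧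
        (∀ z, ∀ hz : Cl F A z, (σ ⟨z, hz.mono subset_union_left⟩ : ℂ) = z) ∧
        ∀ j, ∀ v : Fin (n j) → {z // Cl F (A ∪ range (γ t)) z},
          (fun a => (v a : ℂ)) ∈ R j ↔ (fun a => (σ (v a) : ℂ)) ∈ R j := by
  have hF : ∀ k, AnalyticOnNhd ℂ (fun p : (Fin (m k) → ℂ) × ℂ => F k p.1 p.2) Set.univ :=
    fun k => (hG k).an
  rcases U.eq_empty_or_nonempty with hU0 | hU0
  · exact ⟨∅, countable_empty, fun t ht => absurd ht (by rw [hU0]; exact notMem_empty t)⟩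
  set K : Set ℂ := {z | Cl F A z} with hK
  have hKc : K.Countable := cl_countable hF hA
  have hKc' : Countable K := hKc.to_subtype
  set root : Pc := ⟨U, fun t i => if h : i < d + 1 then γ t ⟨i, h⟩ else γ t 0, hU, hUc, hU0, by
    intro i
    by_cases h : i < d + 1
    · simp only [h, dite_true]
      exact fun t ht => (analyticAt_pi_iff.1 (hγ t ht)) ⟨i, h⟩
    · simp only [h, dite_false]
      exact fun t ht => (analyticAt_pi_iff.1 (hγ t ht)) 0⟩ with hroot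
  have hr1 : ∀ t i, ∃ a : Fin (d + 1), root.φ t i = γ t a := by
    intro t i
    by_cases h : i < d + 1
    · exact ⟨⟨i, h⟩, dif_pos h⟩
    · exact ⟨0, dif_neg h⟩
  have hr2 : ∀ t, ∀ i : Fin (d + 1), root.φ t i = γ t i := by
    intro t i
    exact dif_pos i.2
  have hr0 : ∀ t ∈ root.U, ∀ i > d, root.φ t i = root.φ t 0 := by
    intro t _ i hi
    have h1 : ¬ i < d + 1 := by omega
    have h2 := hr2 t 0
    rw [Fin.val_zero] at h2
    exact (dif_neg h1).trans h2.symm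
  obtain ⟨B, I, hB, hI0, hIs, hIj, hIt, hIg⟩ := engineH
    (ι := Σ k : ℕ, (Fin (m k) → ℕ ⊕ K))
    (τ := (Σ j : τ, (Fin (n j) → ℕ ⊕ K)) ⊕ ((ℕ ⊕ K) × (ℕ ⊕ K))) root d hr0
    (fun i x z => F i.1 (fun a => ev K x (i.2 a)) z) (fun i => regH (hG i.1) K i.2)
    (Sum.elim (fun j x => (fun a => ev K x (j.2 a)) ∈ R j.1)
      (fun ab x => ev K x ab.1 = ev K x ab.2)) (by
      rintro (j | ab) p
      · exact test_rel (hR j.1) K j.2 p
      · exact test_eq K ab.1 ab.2 p)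
  refine ⟨B, hB, ?_⟩
  -- the states
  set St : ℂ → ℂ → ℕ → (ℕ → ℂ) → (ℕ → ℂ) → Prop := fun t t' k x x' =>
    I t t' k x x' ∧ (∀ i, Cl F (A ∪ range (γ t)) (x i)) ∧ ∀ i, Cl F (A ∪ range (γ t')) (x' i)
    with hSt
  have hSts : ∀ t t' k x x', St t t' k x x' → St t' t k x' x :=
    fun t t' k x x' h => ⟨hIs _ _ _ _ _ h.1, h.2.2, h.2.1⟩
  -- one step
  have hstep : ∀ t t', t ∉ B → t' ∉ B → ∀ k x x', St t t' k x x' → ∀ (l : ℕ)
      (ι : Fin (m l) → ℕ ⊕ K) (z : ℂ), (∃ y, F l (fun a => ev K x (ι a)) y ≠ 0) →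
      F l (fun a => ev K x (ι a)) z = 0 →
      ∃ x₁ x₁', St t t' (k + 1) x₁ x₁' ∧ (∀ i, ∃ j, x₁ j = x i ∧ x₁' j = x' i) ∧ ∃ j, x₁ j = z := by
    intro t t' ht ht' k x x' hs l ι z hne hz
    obtain ⟨z', hne', hz', hI'⟩ := hIg t t' ht ht' k x x' hs.1 ⟨l, ι⟩ z hne hz
    have hj := hIj _ _ _ _ _ hs.1
    have hj' := hIj _ _ _ _ _ (hIs _ _ _ _ _ hs.1)
    have hcl : ∀ (t : ℂ) (x : ℕ → ℂ), (∀ i, Cl F (A ∪ range (γ t)) (x i)) → ∀ c : ℕ ⊕ K,
        Cl F (A ∪ range (γ t)) (ev K x c) := by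
      rintro t x hx (i | c)
      · exact hx i
      · exact c.2.mono subset_union_left
    have hupd : ∀ (t : ℂ) (x : ℕ → ℂ), (∀ i, Cl F (A ∪ range (γ t)) (x i)) → ∀ z,
        Cl F (A ∪ range (γ t)) z → ∀ i, Cl F (A ∪ range (γ t)) (Function.update x (k + 1) z i) := by
      intro t x hx z hz i
      by_cases h : i = k + 1
      · rw [h, Function.update_self]
        exact hz
      · rw [Function.update_of_ne h]
        exact hx i
    refine ⟨Function.update x (k + 1) z, Function.update x' (k + 1) z', ⟨hI', ?_, ?_⟩, ?_,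
      k + 1, Function.update_self _ _ _⟩
    · exact hupd t x hs.2.1 z (Cl.zero (fun a => hcl t x hs.2.1 (ι a)) hne hz)
    · exact hupd t' x' hs.2.2 z' (Cl.zero (fun a => hcl t' x' hs.2.2 (ι a)) hne' hz')
    · intro i
      by_cases h : i = k + 1
      · refine ⟨0, ?_⟩
        rw [Function.update_of_ne (by omega), Function.update_of_ne (by omega), h]
        exact ⟨(hj _ (by omega)).symm, (hj' _ (by omega)).symm⟩
      · exact ⟨i, by rw [Function.update_of_ne h], by rw [Function.update_of_ne h]⟩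
  -- every element of the closure can be reached
  have hreach : ∀ t t', t ∉ B → t' ∉ B → ∀ x₀ x₀' k₀, St t t' k₀ x₀ x₀' →
      (∀ i, ∃ j, x₀ j = γ t i) → ∀ z, Cl F (A ∪ range (γ t)) z →
      ∀ k x x', St t t' k x x' → (∀ i, ∃ j, x j = x₀ i ∧ x' j = x₀' i) →
      ∃ k₁ x₁ x₁', St t t' k₁ x₁ x₁' ∧ (∀ i, ∃ j, x₁ j = x i ∧ x₁' j = x' i) ∧
        ∃ c : ℕ ⊕ K, ev K x₁ c = z := by
    intro t t' ht ht' x₀ x₀' k₀ hs₀ hγ₀ z hz
    induction hz with
    | @base z hz =>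
      intro k x x' hs hle
      refine ⟨k, x, x', hs, fun i => ⟨i, rfl, rfl⟩, ?_⟩
      rcases hz with hz | ⟨i, rfl⟩
      · exact ⟨Sum.inr ⟨z, Cl.base hz⟩, rfl⟩
      · obtain ⟨j, hj⟩ := hγ₀ i
        obtain ⟨j', hj', -⟩ := hle j
        exact ⟨Sum.inl j', hj'.trans hj⟩
    | @zero l y z hy hne hz ih =>
      intro k x x' hs hle
      obtain ⟨s, hs1, hs2⟩ := exists_all
        (S := {s : ℕ × (ℕ → ℂ) × (ℕ → ℂ) // St t t' s.1 s.2.1 s.2.2 ∧
          ∀ i, ∃ j, s.2.1 j = x₀ i ∧ s.2.2 j = x₀' i})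
        (fun s s' => ∀ i, ∃ j, s'.1.2.1 j = s.1.2.1 i ∧ s'.1.2.2 j = s.1.2.2 i)
        (fun s i => ⟨i, rfl, rfl⟩)
        (fun s s' s'' h h' i => by
          obtain ⟨j, h1, h2⟩ := h i
          obtain ⟨j', h3, h4⟩ := h' j
          exact ⟨j', h3.trans h1, h4.trans h2⟩)
        (m := m l) (fun a s => ∃ c : ℕ ⊕ K, ev K s.1.2.1 c = y a)
        (fun a s s' h => by
          rintro ⟨c | c, hc⟩
          · obtain ⟨j, h1, -⟩ := h c
            exact ⟨Sum.inl j, h1.trans hc⟩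
          · exact ⟨Sum.inr c, hc⟩)
        (fun a s => by
          obtain ⟨k₁, x₁, x₁', h1, h2, h3⟩ := ih a s.1.1 s.1.2.1 s.1.2.2 s.2.1 s.2.2
          refine ⟨⟨(k₁, x₁, x₁'), h1, ?_⟩, h2, h3⟩
          intro i
          obtain ⟨j, h4, h5⟩ := s.2.2 i
          obtain ⟨j', h6, h7⟩ := h2 j
          exact ⟨j', h6.trans h4, h7.trans h5⟩)
        ⟨(k, x, x'), hs, hle⟩
      choose c hc using hs2
      obtain ⟨⟨k₂, x₂, x₂'⟩, hs3, hs4⟩ := s
      simp only at hs1 hc hs3 hs4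
      have hy' : (fun a => ev K x₂ (c a)) = y := funext hc
      obtain ⟨x₁, x₁', h1, h2, j, h3⟩ := hstep t t' ht ht' k₂ x₂ x₂' hs3 l c z
        (by rw [hy']; exact hne) (by rw [hy']; exact hz)
      refine ⟨k₂ + 1, x₁, x₁', h1, ?_, Sum.inl j, h3⟩
      intro i
      obtain ⟨j, h4, h5⟩ := hs1 i
      obtain ⟨j', h6, h7⟩ := h2 j
      exact ⟨j', h6.trans h4, h7.trans h5⟩
  intro t htU t' htU' ht ht'
  set x₀ := root.φ t with hx₀
  set x₀' := root.φ t' with hx₀'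
  have hclr : ∀ t i, Cl F (A ∪ range (γ t)) (root.φ t i) := by
    intro t i
    obtain ⟨a, ha⟩ := hr1 t i
    rw [ha]
    exact Cl.base (Or.inr ⟨a, rfl⟩)
  have hs₀ : St t t' d x₀ x₀' := ⟨hI0 t htU t' htU', hclr t, hclr t'⟩
  have hc1 : Countable {z // Cl F (A ∪ range (γ t)) z} :=
    (cl_countable hF (hA.union (countable_range _))).to_subtype
  have hc2 : Countable {z // Cl F (A ∪ range (γ t')) z} :=
    (cl_countable hF (hA.union (countable_range _))).to_subtype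
  obtain ⟨c, -, hcmono, hcD⟩ := exists_chain
    (S := {s : ℕ × (ℕ → ℂ) × (ℕ → ℂ) // St t t' s.1 s.2.1 s.2.2 ∧
      ∀ i, ∃ j, s.2.1 j = x₀ i ∧ s.2.2 j = x₀' i})
    (fun s s' => ∀ i, ∃ j, s'.1.2.1 j = s.1.2.1 i ∧ s'.1.2.2 j = s.1.2.2 i)
    (fun s i => ⟨i, rfl, rfl⟩)
    (fun s s' s'' h h' i => by
      obtain ⟨j, h1, h2⟩ := h i
      obtain ⟨j', h3, h4⟩ := h' j
      exact ⟨j', h3.trans h1, h4.trans h2⟩)
    (ι := {z // Cl F (A ∪ range (γ t)) z} ⊕ {z // Cl F (A ∪ range (γ t')) z})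
    (Sum.elim (fun z s => ∃ e : ℕ ⊕ K, ev K s.1.2.1 e = z)
      (fun z s => ∃ e : ℕ ⊕ K, ev K s.1.2.2 e = z)) (by
      rintro (z | z) s
      · obtain ⟨k₁, x₁, x₁', h1, h2, h3⟩ := hreach t t' ht ht' x₀ x₀' d hs₀
          (fun i => ⟨i, hr2 t i⟩) z.1 z.2 s.1.1 s.1.2.1 s.1.2.2 s.2.1 s.2.2
        refine ⟨⟨(k₁, x₁, x₁'), h1, ?_⟩, h2, h3⟩
        intro i
        obtain ⟨j, h4, h5⟩ := s.2.2 i
        obtain ⟨j', h6, h7⟩ := h2 j
        exact ⟨j', h6.trans h4, h7.trans h5⟩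
      · obtain ⟨k₁, x₁, x₁', h1, h2, h3⟩ := hreach t' t ht' ht x₀' x₀ d (hSts _ _ _ _ _ hs₀)
          (fun i => ⟨i, hr2 t' i⟩) z.1 z.2 s.1.1 s.1.2.2 s.1.2.1 (hSts _ _ _ _ _ s.2.1)
          (fun i => by
            obtain ⟨j, h4, h5⟩ := s.2.2 i
            exact ⟨j, h5, h4⟩)
        refine ⟨⟨(k₁, x₁', x₁), hSts _ _ _ _ _ h1, ?_⟩, ?_, h3⟩
        · intro i
          obtain ⟨j, h4, h5⟩ := s.2.2 i
          obtain ⟨j', h6, h7⟩ := h2 j
          exact ⟨j', h7.trans h4, h6.trans h5⟩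
        · intro i
          obtain ⟨j', h6, h7⟩ := h2 i
          exact ⟨j', h7, h6⟩)
    ⟨(d, x₀, x₀'), hs₀, fun i => ⟨i, rfl, rfl⟩⟩
  set G : ℂ → ℂ → Prop := fun a b => ∃ (N : ℕ) (e : ℕ ⊕ K), ev K (c N).1.2.1 e = a ∧
    ev K (c N).1.2.2 e = b with hG
  have hfin : ∀ (l : ℕ) (v w : Fin l → ℂ), (∀ a, G (v a) (w a)) → ∃ (N : ℕ)
      (ι : Fin l → ℕ ⊕ K), (fun a => ev K (c N).1.2.1 (ι a)) = v ∧
        (fun a => ev K (c N).1.2.2 (ι a)) = w := by
    intro l v w h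
    choose N e h1 h2 using h
    have h3 : ∀ a, ∃ e' : ℕ ⊕ K, ev K (c (Finset.univ.sup N)).1.2.1 e' = v a ∧
        ev K (c (Finset.univ.sup N)).1.2.2 e' = w a := by
      intro a
      have h4 := hcmono (N a) (Finset.univ.sup N) (Finset.le_sup (Finset.mem_univ a))
      have h5 := h1 a
      have h6 := h2 a
      generalize e a = u at h5 h6
      rcases u with i | k
      · obtain ⟨j, h7, h8⟩ := h4 i
        exact ⟨Sum.inl j, h7.trans h5, h8.trans h6⟩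
      · exact ⟨Sum.inr k, h5, h6⟩
    choose ι h4 h5 using h3
    exact ⟨_, ι, funext h4, funext h5⟩
  have hrel : ∀ j (v w : Fin (n j) → ℂ), (∀ a, G (v a) (w a)) → (v ∈ R j ↔ w ∈ R j) := by
    intro j v w h
    obtain ⟨N, ι, rfl, rfl⟩ := hfin _ v w h
    exact ⟨hIt t t' ht ht' _ _ _ (c N).2.1.1 (Sum.inl ⟨j, ι⟩),
      hIt t' t ht' ht _ _ _ (hIs _ _ _ _ _ (c N).2.1.1) (Sum.inl ⟨j, ι⟩)⟩
  have heq : ∀ a b a' b', G a b → G a' b' → (a = a' ↔ b = b') := by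
    intro a b a' b' h h'
    obtain ⟨N, ι, h1, h2⟩ := hfin 2 ![a, a'] ![b, b'] (by
      intro i
      fin_cases i
      · exact h
      · exact h')
    have e1 := congrFun h1 0
    have e2 := congrFun h1 1
    have e3 := congrFun h2 0
    have e4 := congrFun h2 1
    simp only [Matrix.cons_val_zero, Matrix.cons_val_one] at e1 e2 e3 e4
    rw [← e1, ← e2, ← e3, ← e4]
    exact ⟨hIt t t' ht ht' _ _ _ (c N).2.1.1 (Sum.inr (ι 0, ι 1)),
      hIt t' t ht' ht _ _ _ (hIs _ _ _ _ _ (c N).2.1.1) (Sum.inr (ι 0, ι 1))⟩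
  have hcl : ∀ (t : ℂ) (x : ℕ → ℂ), (∀ i, Cl F (A ∪ range (γ t)) (x i)) → ∀ c : ℕ ⊕ K,
      Cl F (A ∪ range (γ t)) (ev K x c) := by
    rintro t x hx (i | c)
    · exact hx i
    · exact c.2.mono subset_union_left
  have hex : ∀ z : {z // Cl F (A ∪ range (γ t)) z},
      ∃ w : {z // Cl F (A ∪ range (γ t')) z}, G z w := by
    intro z
    obtain ⟨N, e, he⟩ := hcD (Sum.inl z)
    exact ⟨⟨_, hcl t' _ (c N).2.1.2.2 e⟩, N, e, he, rfl⟩
  have hex' : ∀ w : {z // Cl F (A ∪ range (γ t')) z},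
      ∃ z : {z // Cl F (A ∪ range (γ t)) z}, G z w := by
    intro w
    obtain ⟨N, e, he⟩ := hcD (Sum.inr w)
    exact ⟨⟨_, hcl t _ (c N).2.1.2.1 e⟩, N, e, rfl, he⟩
  choose f hf using hex
  choose f' hf' using hex'
  have hfG : ∀ (z : {z // Cl F (A ∪ range (γ t)) z}) b, G z b → (f z : ℂ) = b :=
    fun z b h => (heq z (f z) z b (hf z) h).1 rfl
  refine ⟨⟨f, f', ?_, ?_⟩, ?_, ?_, ?_⟩
  · intro z
    exact Subtype.ext ((heq _ _ _ _ (hf' (f z)) (hf z)).2 rfl)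
  · intro w
    exact Subtype.ext ((heq _ _ _ _ (hf (f' w)) (hf' w)).1 rfl)
  · intro i
    apply hfG
    obtain ⟨j, h1, h2⟩ := (c 0).2.2 i
    refine ⟨0, Sum.inl j, ?_, ?_⟩
    · exact h1.trans (hr2 t i)
    · exact h2.trans (hr2 t' i)
  · intro z hz
    apply hfG
    exact ⟨0, Sum.inr ⟨z, hz⟩, rfl, rfl⟩
  · intro j v
    exact hrel j _ _ fun a => hf (v a)

end Pool.Agent.L5helper53.TL
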