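import Pool.Agent.L5helper53.TL.Grow

/-!
The number of zeros of two-level exponential sums satisfying a condition is generically constant.
-/

set_option autoImplicit false

namespace Pool.Agent.L5helper53.TL

open Set Filter Topology Complex Metric Cardinal
open Pool.Agent.TH735.FO
open Pool.Agent.TH735.QM

/-- condition on a family of exponents -/
def Sep {N : ℕ} (e : Fin N → ℕ) (Q : Fin N → ℂ → ℂ) : Prop :=
  ∀ j l, j ≠ l → e j ≠ e l ∨ ∃ y, (Q j (y + 2 * Real.pi * I) - Q l (y + 2 * Real.pi * I)).re ≠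
    (Q j y - Q l y).re

theorem term_analytic {U : Set ℂ} {η : ℂ → ℂ} (hη : AnalyticOnNhd ℂ η U) {C : ℂ × ℂ → ℂ}
    (hC : AnalyticOnNhd ℂ C (U ×ˢ {0}ᶜ)) {Q : ℂ → ℂ} (hQ : Differentiable ℂ Q) (e : ℕ) {t x : ℂ}
    (ht : t ∈ U) : AnalyticAt ℂ
      (fun p : ℂ × ℂ => p.2 ^ e * exp (Q (η p.1 * p.2)) * C (p.1, exp (η p.1 * p.2))) (t, x) := by
  have h1 : AnalyticAt ℂ (fun p : ℂ × ℂ => η p.1 * p.2) (t, x) :=
    ((hη t ht).comp (f := fun p : ℂ × ℂ => p.1) (x := (t, x)) analyticAt_fst).mul analyticAt_snd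
  have h2 : AnalyticAt ℂ (fun p : ℂ × ℂ => exp (Q (η p.1 * p.2))) (t, x) :=
    ((hQ.cexp.analyticAt (η t * x)).comp (f := fun p : ℂ × ℂ => η p.1 * p.2) (x := (t, x)) h1)
  have h3 : AnalyticAt ℂ (fun p : ℂ × ℂ => exp (η p.1 * p.2)) (t, x) :=
    ((differentiable_exp.analyticAt (η t * x)).comp (f := fun p : ℂ × ℂ => η p.1 * p.2)
      (x := (t, x)) h1)
  have h4 : AnalyticAt ℂ (fun p : ℂ × ℂ => C (p.1, exp (η p.1 * p.2))) (t, x) :=
    (hC (t, exp (η t * x)) ⟨ht, exp_ne_zero _⟩).comp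
      (f := fun p : ℂ × ℂ => (p.1, exp (η p.1 * p.2))) (x := (t, x)) (analyticAt_fst.prod h3)
  exact ((analyticAt_snd.pow e).mul h2).mul h4

/-- the case without exponentials -/
theorem count_poly {U : Set ℂ} (hU : IsOpen U) (hUc : IsPreconnected U) {N : ℕ} {e : Fin N → ℕ}
    {b : Fin N → ℂ → ℂ} (hb : ∀ j, ∀ t ∈ U, ContinuousAt (b j) t) {f : ℂ × ℂ → ℂ}
    (hfan : AnalyticOnNhd ℂ f (U ×ˢ Set.univ))
    (hf : ∀ t ∈ U, ∀ x, f (t, x) = ∑ j, x ^ e j * b j t) {Y : ℂ → ℂ → Prop} (hY : LQ U Y) :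
    GenCard U fun t x => (∃ x', f (t, x') ≠ 0) ∧ f (t, x) = 0 ∧ Y t x := by
  refine finite_order_count hU hUc hfan hY ?_
  intro t₀ ht₀
  set d : ℕ := ∑ j, e j with hd
  set M : ℝ := ∑ j, (‖b j t₀‖ + 1) with hM
  have hM0 : 0 ≤ M := Finset.sum_nonneg fun _ _ => by positivity
  have hev : ∀ᶠ t in 𝓝 t₀, ∀ j, ‖b j t‖ ≤ ‖b j t₀‖ + 1 := by
    rw [Filter.eventually_all]
    intro j
    filter_upwards [(hb j t₀ ht₀).norm.eventually
      (gt_mem_nhds (show ‖b j t₀‖ < ‖b j t₀‖ + 1 by linarith))] with t ht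
    exact le_of_lt ht
  refine ⟨M + d, 1, ?_⟩
  filter_upwards [hev, hU.mem_nhds ht₀] with t ht htU x
  rw [hf t htU x, pow_one]
  have hx0 : 0 ≤ ‖x‖ := norm_nonneg x
  calc ‖∑ j, x ^ e j * b j t‖ ≤ ∑ j, ‖x ^ e j * b j t‖ := norm_sum_le _ _
    _ ≤ ∑ j, (1 + ‖x‖) ^ d * (‖b j t₀‖ + 1) := by
        refine Finset.sum_le_sum fun j _ => ?_
        rw [norm_mul, norm_pow]
        have h1 : ‖x‖ ^ e j ≤ (1 + ‖x‖) ^ d := by
          calc ‖x‖ ^ e j ≤ (1 + ‖x‖) ^ e j := by gcongr; linarith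
            _ ≤ (1 + ‖x‖) ^ d := pow_le_pow_right₀ (by linarith)
              (Finset.single_le_sum (f := e) (fun _ _ => Nat.zero_le _) (Finset.mem_univ j))
        have := ht j
        gcongr
    _ = M * (1 + ‖x‖) ^ d := by rw [hM, ← Finset.mul_sum, mul_comm]
    _ ≤ Real.exp M * Real.exp (d * (1 + ‖x‖)) := by
        have h2 : M ≤ Real.exp M := by linarith [Real.add_one_le_exp M]
        have h3 : (1 + ‖x‖) ^ d ≤ Real.exp (d * (1 + ‖x‖)) := by
          rw [Real.exp_nat_mul]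
          have : 1 + ‖x‖ ≤ Real.exp (1 + ‖x‖) := by linarith [Real.add_one_le_exp (1 + ‖x‖)]
          gcongr
        gcongr
    _ ≤ Real.exp ((M + d) * (1 + ‖x‖)) := by
        rw [← Real.exp_add]
        apply Real.exp_le_exp.2
        nlinarith

theorem curve_count {U : Set ℂ} (hU : IsOpen U) (hUc : IsPreconnected U) {N : ℕ}
    {e : Fin N → ℕ} {Q : Fin N → ℂ → ℂ} {η : ℂ → ℂ} (hη : AnalyticOnNhd ℂ η U)
    {C : Fin N → ℂ × ℂ → ℂ} (hC : ∀ j, AnalyticOnNhd ℂ (C j) (U ×ˢ {0}ᶜ))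
    (hQ : ∀ j, IntExpPoly (Q j)) (hsep : Sep e Q)
    (hgr : ∀ j, ∀ t₀ ∈ U, ∃ (A : ℝ) (ρ : ℕ), ∀ᶠ t in 𝓝 t₀, ∀ w ≠ 0,
      ‖C j (t, w)‖ ≤ Real.exp (A * (‖w‖ + ‖w‖⁻¹) ^ ρ)) {f : ℂ × ℂ → ℂ}
    (hfan : AnalyticOnNhd ℂ f (U ×ˢ Set.univ))
    (hf : ∀ t ∈ U, ∀ x, f (t, x) = ∑ j, x ^ e j * exp (Q j (η t * x)) * C j (t, exp (η t * x)))
    {Y : ℂ → ℂ → Prop} (hY : LQ U Y) :
    GenCard U fun t x => (∃ x', f (t, x') ≠ 0) ∧ f (t, x) = 0 ∧ Y t x := by
  classical
  by_cases hη0 : ∃ t ∈ U, η t ≠ 0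
  · -- rescale
    have hB₁ := zeros_countableOn hUc hη hη0
    set B₁ := U ∩ {t | η t = 0} with hB₁def
    by_cases hCne : ∃ j, ∃ t ∈ U, ∃ w ≠ 0, C j (t, w) ≠ 0
    · set d : ℕ := ∑ j, e j with hd
      have hed : ∀ j, e j ≤ d := fun j =>
        Finset.single_le_sum (f := e) (fun _ _ => Nat.zero_le _) (Finset.mem_univ j)
      set D : Fin N → ℂ × ℂ → ℂ := fun j p => η p.1 ^ (d - e j) * C j p with hD
      set g : ℂ × ℂ → ℂ := fun p => ∑ j, EE (e j) (Q j) p.2 * D j (p.1, exp p.2) with hg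
      have hDan : ∀ j, AnalyticOnNhd ℂ (D j) (U ×ˢ {0}ᶜ) := by
        rintro j ⟨t, w⟩ ⟨ht, hw⟩
        exact (((hη t ht).comp (f := fun p : ℂ × ℂ => p.1) (x := (t, w)) analyticAt_fst).pow _).mul
          (hC j (t, w) ⟨ht, hw⟩)
      have hgan : AnalyticOnNhd ℂ g (U ×ˢ Set.univ) := by
        rintro ⟨t, x⟩ ⟨ht, -⟩
        refine Finset.analyticAt_fun_sum _ fun j _ => ?_
        have h1 := term_analytic (η := fun _ => (1 : ℂ)) (U := U) (fun _ _ => analyticAt_const)
          (hDan j) (hQ j).diff (e j) (t := t) (x := x) ht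
        simp only [one_mul] at h1
        exact h1
      have hgf : ∀ t ∈ U, ∀ x, g (t, η t * x) = η t ^ d * f (t, x) := by
        intro t ht x
        rw [hf t ht x, Finset.mul_sum]
        refine Finset.sum_congr rfl fun j _ => ?_
        simp only [EE, hD]
        have h1 : η t ^ d = η t ^ (d - e j) * η t ^ e j := by
          rw [← pow_add, Nat.sub_add_cancel (hed j)]
        rw [h1, mul_pow]
        ring
      -- growth
      have hsg : SG U g := by
        refine SG.sum _ fun j _ => ?_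
        obtain ⟨A, ρ, hA, hb⟩ := (hQ j).bound
        have h1 : SG U fun p : ℂ × ℂ => p.2 ^ e j * exp (Q j p.2) :=
          (SG.id.pow (e j)).mul (SG.exp_of hA hb)
        have h2 : SG U fun p : ℂ × ℂ => η p.1 ^ (d - e j) :=
          (SG.param (fun t ht => (hη t ht).continuousAt)).pow _
        exact h1.mul (h2.mul (SG.of_exp (hgr j)))
      -- some coefficient does not vanish
      have hDne : ∃ j, ∃ t ∈ U, ∃ w ≠ 0, D j (t, w) ≠ 0 := by
        obtain ⟨j, t, ht, w, hw, hne⟩ := hCne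
        have h1 : AnalyticOnNhd ℂ (fun t => C j (t, w)) U := by
          intro s hs
          exact (hC j (s, w) ⟨hs, hw⟩).comp (f := fun t => (t, w))
            (AnalyticAt.prod analyticAt_id analyticAt_const)
        have h2 := zeros_countableOn hUc h1 ⟨t, ht, hne⟩
        obtain ⟨s, hs, hsB⟩ := exists_generic (hB₁.union h2) (t := t)
          (show ∀ᶠ s in 𝓝 t, s ∈ U from hU.mem_nhds ht)
        refine ⟨j, s, hs, w, hw, ?_⟩
        apply mul_ne_zero
        · exact pow_ne_zero _ fun h0 => hsB (Or.inl ⟨hs, h0⟩)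
        · exact fun h0 => hsB (Or.inr ⟨hs, h0⟩)
      obtain ⟨B, hB, hVZ⟩ := exists_VZ hU hUc (E := fun j => EE (e j) (Q j)) (D := D) (f := g) hDan hgan
        (fun t _ y => rfl) (by
          intro σ hσ i j hij
          exact cmp_EE (hQ i) (hQ j) (hsep i j hij) hσ) (by
          intro σ hσ i x
          exact Lw_of_rep (hQ i).rep (e i) hσ x) hDne
      have hY' : LQ U fun t y => Y t (y / η t) := by
        intro W hW hWo hWc z hz
        refine QmOn.of_local hWo hWc hB₁ ?_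
        intro t ht htB
        have hηt : η t ≠ 0 := fun h0 => htB ⟨hW ht, h0⟩
        have h1 : ∀ᶠ s in 𝓝 t, s ∈ W ∧ η s ≠ 0 :=
          (hWo.eventually_mem ht).and ((hη t (hW ht)).continuousAt.eventually_ne hηt)
        obtain ⟨r, hr, hr'⟩ := Metric.eventually_nhds_iff_ball.1 h1
        refine ⟨r, hr, ?_⟩
        exact hY (ball t r) (fun s hs => hW (hr' s hs).1) isOpen_ball
          (convex_ball t r).isPreconnected (fun s => z s / η s)
          fun s hs => (hz s (hr' s hs).1).div (hη s (hW (hr' s hs).1)) (hr' s hs).2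
      obtain ⟨B', hB', h⟩ := strip_count hU hUc hgan hY' hsg hB hVZ
      refine ⟨B' ∪ B₁, hB'.union hB₁, ?_⟩
      have hcard : ∀ t ∈ U, t ∉ B₁ →
          #({x | (∃ x', f (t, x') ≠ 0) ∧ f (t, x) = 0 ∧ Y t x} : Set ℂ) =
          #({y | (∃ y', g (t, y') ≠ 0) ∧ g (t, y) = 0 ∧ Y t (y / η t)} : Set ℂ) := by
        intro t ht htB
        have hηt : η t ≠ 0 := fun h0 => htB ⟨ht, h0⟩
        have himg : {y | (∃ y', g (t, y') ≠ 0) ∧ g (t, y) = 0 ∧ Y t (y / η t)} =
            (fun x => η t * x) '' {x | (∃ x', f (t, x') ≠ 0) ∧ f (t, x) = 0 ∧ Y t x} := by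
          have hpow : η t ^ d ≠ 0 := pow_ne_zero _ hηt
          have hback : ∀ y, g (t, y) = η t ^ d * f (t, y / η t) := by
            intro y
            rw [← hgf t ht, mul_div_cancel₀ _ hηt]
          ext y
          simp only [Set.mem_ofPred_eq, mem_image]
          constructor
          · rintro ⟨⟨y', h1⟩, h2, h3⟩
            refine ⟨y / η t, ⟨⟨y' / η t, ?_⟩, ?_, h3⟩, mul_div_cancel₀ _ hηt⟩
            · intro h0
              exact h1 (by rw [hback, h0, mul_zero])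
            · rw [hback] at h2
              exact (mul_eq_zero.1 h2).resolve_left hpow
          · rintro ⟨x, ⟨⟨x', h1⟩, h2, h3⟩, rfl⟩
            refine ⟨⟨η t * x', ?_⟩, ?_, ?_⟩
            · rw [hgf t ht]
              exact mul_ne_zero hpow h1
            · rw [hgf t ht, h2, mul_zero]
            · rwa [mul_div_cancel_left₀ _ hηt]
        rw [himg]
        exact (Cardinal.mk_image_eq (mul_right_injective₀ hηt)).symm
      intro t ht htB t' ht' htB'
      rw [hcard t ht (fun h => htB (Or.inr h)), hcard t' ht' (fun h => htB' (Or.inr h))]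
      exact h t ht (fun h => htB (Or.inl h)) t' ht' (fun h => htB' (Or.inl h))
    · push Not at hCne
      refine (GenCard.const (∅ : Set ℂ)).congr countable_empty ?_
      intro t ht _ x
      have h0 : ∀ x', f (t, x') = 0 := by
        intro x'
        rw [hf t ht]
        refine Finset.sum_eq_zero fun j _ => ?_
        rw [hCne j t ht _ (exp_ne_zero _), mul_zero]
      simp [h0]
  · push Not at hη0
    refine count_poly hU hUc (e := e) (b := fun j t => exp (Q j 0) * C j (t, 1)) ?_ hfan ?_ hY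
    · intro j t ht
      have h1 : ContinuousAt (fun t => C j (t, (1 : ℂ))) t := by
        have h2 : ContinuousAt (fun t : ℂ => (t, (1 : ℂ))) t := by fun_prop
        exact ContinuousAt.comp (f := fun t : ℂ => (t, (1 : ℂ))) (g := C j) (x := t)
          (hC j (t, 1) ⟨ht, one_ne_zero⟩).continuousAt h2
      exact continuousAt_const.mul h1
    · intro t ht x
      rw [hf t ht]
      refine Finset.sum_congr rfl fun j _ => ?_
      rw [hη0 t ht, zero_mul, exp_zero]
      ring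

end Pool.Agent.L5helper53.TL
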