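import Pool.Agent.L5helper53.TL.Local

/-!
Sums of functions one of which dominates the others along the progression `x + 2 π i k`.
-/

set_option autoImplicit false

namespace Pool.Agent.L5helper53.TL

open Set Filter Topology Complex Metric
open Pool.Agent.TH735.FO
open Pool.Agent.TH735.QM

/-- `E₁` is negligible against `E₂` along `x + 2 π i σ k` for `k → ∞`, for `x` near `x₀` -/
def Ll (σ : ℤ) (E₁ E₂ : ℂ → ℂ) (x₀ : ℂ) : Prop :=
  ∀ η > (0 : ℝ), ∀ᶠ p : ℂ × ℕ in 𝓝 x₀ ×ˢ atTop,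
    ‖E₁ (p.1 + pt (σ * p.2))‖ ≤ η * ‖E₂ (p.1 + pt (σ * p.2))‖

/-- a lower bound along `x + 2 π i σ k` for large `k`, for `x` near `x₀` -/
def Lw (σ : ℤ) (E : ℂ → ℂ) (x₀ : ℂ) : Prop :=
  ∃ (C : ℝ) (ρ : ℕ), ∀ᶠ p : ℂ × ℕ in 𝓝 x₀ ×ˢ atTop,
    Real.exp (-(C * (1 + (p.2 : ℝ)) ^ ρ)) ≤ ‖E (p.1 + pt (σ * p.2))‖

theorem Ll.trans {σ : ℤ} {E₁ E₂ E₃ : ℂ → ℂ} {x₀ : ℂ} (h : Ll σ E₁ E₂ x₀) (h' : Ll σ E₂ E₃ x₀) :
    Ll σ E₁ E₃ x₀ := by
  intro η hη
  filter_upwards [h η hη, h' 1 one_pos] with p hp hp'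
  rw [one_mul] at hp'
  refine hp.trans ?_
  gcongr

theorem exists_max {ι : Type*} (s : Finset ι) (hs : s.Nonempty) (r : ι → ι → Prop)
    (htr : ∀ a b c, r a b → r b c → r a c)
    (htot : ∀ a b, a ≠ b → r a b ∨ r b a) : ∃ a ∈ s, ∀ b ∈ s, b ≠ a → r b a := by
  induction hs using Finset.Nonempty.cons_induction with
  | singleton a =>
    refine ⟨a, Finset.mem_singleton_self a, ?_⟩
    intro b hb hba
    exact absurd (Finset.mem_singleton.1 hb) hba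
  | cons a s ha hs ih =>
    obtain ⟨b, hb, hb'⟩ := ih
    have hab : a ≠ b := fun h => ha (h ▸ hb)
    rcases htot a b hab with h | h
    · refine ⟨b, Finset.mem_cons_of_mem hb, ?_⟩
      intro c hc hcb
      rcases Finset.mem_cons.1 hc with rfl | hc
      · exact h
      · exact hb' c hc hcb
    · refine ⟨a, Finset.mem_cons_self a s, ?_⟩
      intro c hc hca
      rcases Finset.mem_cons.1 hc with rfl | hc
      · exact absurd rfl hca
      · by_cases hcb : c = b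
        · rw [hcb]
          exact h
        · exact htr _ _ _ (hb' c hc hcb) h

theorem exp_add_pt (x : ℂ) (k : ℤ) : exp (x + pt k) = exp x := by
  rw [exp_add]
  have : pt k = k * (2 * Real.pi * I) := by
    unfold pt
    ring
  rw [this, exp_int_mul_two_pi_mul_I, mul_one]

/-- lower bound along a half progression -/
def Sd (σ : ℤ) (f : ℂ × ℂ → ℂ) (t₀ x₀ : ℂ) : Prop :=
  ∃ (C : ℝ) (ρ : ℕ), ∀ᶠ q : (ℂ × ℂ) × ℕ in 𝓝 (t₀, x₀) ×ˢ atTop,
    Real.exp (-(C * (1 + (q.2 : ℝ)) ^ ρ)) ≤ ‖f (q.1.1, q.1.2 + pt (σ * q.2))‖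

theorem side {ι : Type*} [Fintype ι] [Nonempty ι] {E : ι → ℂ → ℂ} {D : ι → ℂ × ℂ → ℂ}
    {f : ℂ × ℂ → ℂ} {U : Set ℂ} {t₀ x₀ : ℂ} (hU : U ∈ 𝓝 t₀)
    (hf : ∀ t ∈ U, ∀ y, f (t, y) = ∑ i, E i y * D i (t, exp y)) {σ : ℤ}
    (hD : ∀ i, ContinuousAt (D i) (t₀, exp x₀))
    (hD0 : ∀ i, D i (t₀, exp x₀) ≠ 0)
    (hLl : ∀ i j, i ≠ j → Ll σ (E i) (E j) x₀ ∨ Ll σ (E j) (E i) x₀)
    (hLw : ∀ i, Lw σ (E i) x₀) : Sd σ f t₀ x₀ := by
  classical
  obtain ⟨i₀, -, hi₀⟩ := exists_max (Finset.univ : Finset ι) Finset.univ_nonempty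
    (fun i j => Ll σ (E i) (E j) x₀) (fun _ _ _ h h' => h.trans h') hLl
  set c₁ : ℝ := ‖D i₀ (t₀, exp x₀)‖ / 2 with hc₁
  have hpos : 0 < ‖D i₀ (t₀, exp x₀)‖ := norm_pos_iff.2 (hD0 i₀)
  have hc₁0 : 0 < c₁ := by positivity
  set M : ℝ := ∑ i, ‖D i (t₀, exp x₀)‖ + 1 with hM
  have hM0 : 0 < M := by
    have : 0 ≤ ∑ i, ‖D i (t₀, exp x₀)‖ := Finset.sum_nonneg fun _ _ => norm_nonneg _
    linarith
  have hDc : ∀ i, ContinuousAt (fun p : ℂ × ℂ => D i (p.1, exp p.2)) (t₀, x₀) := by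
    intro i
    have h1 : ContinuousAt (fun p : ℂ × ℂ => (p.1, exp p.2)) (t₀, x₀) := by fun_prop
    exact ContinuousAt.comp (f := fun p : ℂ × ℂ => (p.1, exp p.2)) (g := D i)
      (x := (t₀, x₀)) (hD i) h1
  have hup : ∀ᶠ p : ℂ × ℂ in 𝓝 (t₀, x₀), ∀ i, ‖D i (p.1, exp p.2)‖ ≤ M := by
    rw [Filter.eventually_all]
    intro i
    have h1 : ‖D i (t₀, exp x₀)‖ < M := by
      have : ‖D i (t₀, exp x₀)‖ ≤ ∑ i, ‖D i (t₀, exp x₀)‖ :=
        Finset.single_le_sum (f := fun i => ‖D i (t₀, exp x₀)‖) (fun _ _ => norm_nonneg _)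
          (Finset.mem_univ i)
      linarith
    filter_upwards [(hDc i).norm.eventually (gt_mem_nhds h1)] with p hp
    exact le_of_lt hp
  have hdn : ∀ᶠ p : ℂ × ℂ in 𝓝 (t₀, x₀), c₁ ≤ ‖D i₀ (p.1, exp p.2)‖ := by
    have h1 : c₁ < ‖D i₀ (t₀, exp x₀)‖ := half_lt_self hpos
    filter_upwards [(hDc i₀).norm.eventually (lt_mem_nhds h1)] with p hp
    exact le_of_lt hp
  set N : ℝ := (Fintype.card ι : ℝ) with hN
  have hN0 : 0 < N := by
    rw [hN]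
    exact_mod_cast Fintype.card_pos
  set η : ℝ := c₁ / (2 * M * N) with hη
  have hη0 : 0 < η := by positivity
  obtain ⟨C, ρ, hlw⟩ := hLw i₀
  have hsmall : ∀ᶠ p : ℂ × ℕ in 𝓝 x₀ ×ˢ atTop, ∀ j, j ≠ i₀ →
      ‖E j (p.1 + pt (σ * p.2))‖ ≤ η * ‖E i₀ (p.1 + pt (σ * p.2))‖ := by
    rw [Filter.eventually_all]
    intro j
    by_cases hj : j = i₀
    · exact Filter.Eventually.of_forall fun p h => absurd hj h
    · filter_upwards [hi₀ j (Finset.mem_univ j) hj η hη0] with p hp _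
      exact hp
  have hmap : Tendsto (fun q : (ℂ × ℂ) × ℕ => (q.1.2, q.2)) (𝓝 (t₀, x₀) ×ˢ atTop)
      (𝓝 x₀ ×ˢ atTop) :=
    (continuous_snd.tendsto (t₀, x₀)).prodMap tendsto_id
  have hfst : Tendsto (fun q : (ℂ × ℂ) × ℕ => q.1) (𝓝 (t₀, x₀) ×ˢ atTop)
      (𝓝 (t₀, x₀)) := tendsto_fst
  have htU : ∀ᶠ p : ℂ × ℂ in 𝓝 (t₀, x₀), p.1 ∈ U :=
    (continuous_fst.tendsto (t₀, x₀)).eventually hU
  refine ⟨|C| + |Real.log (c₁ / 2)|, ρ, ?_⟩
  filter_upwards [hfst.eventually hup, hfst.eventually hdn, hfst.eventually htU,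
    hmap.eventually hsmall, hmap.eventually hlw] with q h1 h2 h3 h4 h5
  obtain ⟨⟨t, x⟩, k⟩ := q
  simp only at h1 h2 h3 h4 h5 ⊢
  set z := x + pt (σ * k) with hz
  have hexp : exp z = exp x := exp_add_pt x _
  rw [hf t h3 z, hexp, ← Finset.add_sum_erase Finset.univ _ (Finset.mem_univ i₀)]
  have e1 : ‖∑ j ∈ Finset.univ.erase i₀, E j z * D j (t, exp x)‖ ≤ c₁ / 2 * ‖E i₀ z‖ := by
    calc ‖∑ j ∈ Finset.univ.erase i₀, E j z * D j (t, exp x)‖
        ≤ ∑ j ∈ Finset.univ.erase i₀, ‖E j z * D j (t, exp x)‖ := norm_sum_le _ _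
      _ ≤ ∑ j ∈ Finset.univ.erase i₀, η * ‖E i₀ z‖ * M := by
          refine Finset.sum_le_sum fun j hj => ?_
          rw [norm_mul]
          exact mul_le_mul (h4 j (Finset.ne_of_mem_erase hj)) (h1 j) (norm_nonneg _)
            (by positivity)
      _ ≤ ∑ j : ι, η * ‖E i₀ z‖ * M :=
          Finset.sum_le_sum_of_subset_of_nonneg (Finset.erase_subset _ _)
            (fun _ _ _ => by positivity)
      _ = c₁ / 2 * ‖E i₀ z‖ := by
          rw [Finset.sum_const, Finset.card_univ, nsmul_eq_mul, ← hN, hη]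
          field_simp
  have e2 : c₁ * ‖E i₀ z‖ ≤ ‖E i₀ z * D i₀ (t, exp x)‖ := by
    rw [norm_mul, mul_comm c₁]
    gcongr
  have e3 := norm_sub_le_norm_add (E i₀ z * D i₀ (t, exp x))
    (∑ j ∈ Finset.univ.erase i₀, E j z * D j (t, exp x))
  have e4 : Real.exp (-((|C| + |Real.log (c₁ / 2)|) * (1 + (k : ℝ)) ^ ρ)) ≤
      c₁ / 2 * ‖E i₀ z‖ := by
    have h6 : (1 : ℝ) ≤ (1 + (k : ℝ)) ^ ρ := by
      apply one_le_pow₀
      have : (0 : ℝ) ≤ k := Nat.cast_nonneg k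
      linarith
    calc Real.exp (-((|C| + |Real.log (c₁ / 2)|) * (1 + (k : ℝ)) ^ ρ))
        ≤ Real.exp (Real.log (c₁ / 2) + -(C * (1 + (k : ℝ)) ^ ρ)) := by
          apply Real.exp_le_exp.2
          have h7 : C * (1 + (k : ℝ)) ^ ρ ≤ |C| * (1 + (k : ℝ)) ^ ρ := by
            gcongr
            exact le_abs_self C
          have h8 : |Real.log (c₁ / 2)| ≤ |Real.log (c₁ / 2)| * (1 + (k : ℝ)) ^ ρ := by
            nlinarith [abs_nonneg (Real.log (c₁ / 2))]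
          have h9 := neg_abs_le (Real.log (c₁ / 2))
          nlinarith
      _ = c₁ / 2 * Real.exp (-(C * (1 + (k : ℝ)) ^ ρ)) := by
          rw [Real.exp_add, Real.exp_log (by positivity)]
      _ ≤ c₁ / 2 * ‖E i₀ z‖ := by gcongr
  linarith

theorem VZ_of_sides {f : ℂ × ℂ → ℂ} {t₀ x₀ : ℂ} (hc : ∀ k : ℤ, ContinuousAt f (t₀, x₀ + pt k))
    (h0 : ∀ k : ℤ, f (t₀, x₀ + pt k) ≠ 0) (h1 : Sd 1 f t₀ x₀) (h2 : Sd (-1) f t₀ x₀) :
    VZ f t₀ x₀ := by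
  classical
  obtain ⟨C₁, ρ₁, h1⟩ := h1
  obtain ⟨C₂, ρ₂, h2⟩ := h2
  obtain ⟨s, hs, u, hu, hsu⟩ := Filter.mem_prod_iff.1 (h1.and h2)
  obtain ⟨K, hK⟩ := Filter.mem_atTop_sets.1 hu
  -- the remaining integers
  set J := Finset.Icc (-(K : ℤ)) K with hJ
  have hmid : ∀ᶠ p : ℂ × ℂ in 𝓝 (t₀, x₀), ∀ k ∈ J,
      ‖f (t₀, x₀ + pt k)‖ / 2 ≤ ‖f (p.1, p.2 + pt k)‖ := by
    rw [Filter.eventually_all_finset]
    intro k _
    have hpos : 0 < ‖f (t₀, x₀ + pt k)‖ := norm_pos_iff.2 (h0 k)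
    have hcc : ContinuousAt (fun p : ℂ × ℂ => f (p.1, p.2 + pt k)) (t₀, x₀) := by
      have h3 : ContinuousAt (fun p : ℂ × ℂ => (p.1, p.2 + pt k)) (t₀, x₀) := by fun_prop
      exact ContinuousAt.comp (f := fun p : ℂ × ℂ => (p.1, p.2 + pt k)) (g := f)
        (x := (t₀, x₀)) (hc k) h3
    filter_upwards [hcc.norm.eventually (lt_mem_nhds (half_lt_self hpos))] with p hp
    exact le_of_lt hp
  obtain ⟨δ, hδ, hδ'⟩ := Metric.eventually_nhds_iff_ball.1 (hmid.and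
    (show ∀ᶠ p in 𝓝 (t₀, x₀), p ∈ s from hs))
  set C₃ : ℝ := ∑ k ∈ J, |Real.log (‖f (t₀, x₀ + pt k)‖ / 2)| with hC₃
  refine ⟨δ, hδ, |C₁| + |C₂| + C₃, max ρ₁ ρ₂, ?_⟩
  intro t ht x hx k
  have hp : (t, x) ∈ ball (t₀, x₀) δ := by
    rw [← ball_prod_same]
    exact ⟨ht, hx⟩
  obtain ⟨h3, h4⟩ := hδ' (t, x) hp
  have hC₃0 : 0 ≤ C₃ := Finset.sum_nonneg fun _ _ => abs_nonneg _
  have hk1 : (1 : ℝ) ≤ 1 + |(k : ℝ)| := by linarith [abs_nonneg (k : ℝ)]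
  have hpow : (1 : ℝ) ≤ (1 + |(k : ℝ)|) ^ max ρ₁ ρ₂ := one_le_pow₀ hk1
  by_cases hkJ : k ∈ J
  · refine le_trans ?_ (h3 k hkJ)
    have hpos : 0 < ‖f (t₀, x₀ + pt k)‖ / 2 := by
      have : 0 < ‖f (t₀, x₀ + pt k)‖ := norm_pos_iff.2 (h0 k)
      positivity
    rw [← Real.le_log_iff_exp_le hpos]
    have h5 : |Real.log (‖f (t₀, x₀ + pt k)‖ / 2)| ≤ C₃ :=
      Finset.single_le_sum (f := fun k => |Real.log (‖f (t₀, x₀ + pt k)‖ / 2)|)
        (fun _ _ => abs_nonneg _) hkJ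
    have h6 := neg_abs_le (Real.log (‖f (t₀, x₀ + pt k)‖ / 2))
    have h7 : C₃ ≤ (|C₁| + |C₂| + C₃) * (1 + |(k : ℝ)|) ^ max ρ₁ ρ₂ := by
      have : 0 ≤ |C₁| + |C₂| := by positivity
      nlinarith
    linarith
  · -- large integers
    have hk : (K : ℤ) ≤ |k| := by
      rw [hJ, Finset.mem_Icc, not_and_or] at hkJ
      rcases hkJ with h | h
      · have := neg_le_abs k
        omega
      · have := le_abs_self k
        omega
    have hn : K ≤ k.natAbs := by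
      have : ((K : ℤ)) ≤ (k.natAbs : ℤ) := by rwa [Int.natCast_natAbs]
      exact_mod_cast this
    obtain ⟨h5, h6⟩ := hsu (show ((t, x), k.natAbs) ∈ s ×ˢ u from ⟨h4, hK _ hn⟩)
    simp only at h5 h6
    have hcast : ((k.natAbs : ℕ) : ℝ) = |(k : ℝ)| := by
      rw [Nat.cast_natAbs, Int.cast_abs]
    rw [hcast] at h5 h6
    have hgen : ∀ (C : ℝ) (ρ : ℕ), |C| ≤ |C₁| + |C₂| + C₃ → ρ ≤ max ρ₁ ρ₂ →
        Real.exp (-((|C₁| + |C₂| + C₃) * (1 + |(k : ℝ)|) ^ max ρ₁ ρ₂)) ≤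
        Real.exp (-(C * (1 + |(k : ℝ)|) ^ ρ)) := by
      intro C ρ hC hρ
      apply Real.exp_le_exp.2
      apply neg_le_neg
      calc C * (1 + |(k : ℝ)|) ^ ρ ≤ |C| * (1 + |(k : ℝ)|) ^ ρ := by
            gcongr
            exact le_abs_self C
        _ ≤ (|C₁| + |C₂| + C₃) * (1 + |(k : ℝ)|) ^ max ρ₁ ρ₂ := by
            have := pow_le_pow_right₀ hk1 hρ
            gcongr
    rcases Int.natAbs_eq k with h | h
    · refine (hgen C₁ ρ₁ ?_ (le_max_left _ _)).trans ?_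
      · linarith [abs_nonneg C₂]
      · rw [one_mul, ← h] at h5
        exact h5
    · refine (hgen C₂ ρ₂ ?_ (le_max_right _ _)).trans ?_
      · linarith [abs_nonneg C₁]
      · rw [neg_one_mul, ← h] at h6
        exact h6

/-- for generic parameters there is a progression without zeros -/
theorem exists_VZ {U : Set ℂ} (hU : IsOpen U) (hUc : IsPreconnected U) {ι : Type} [Fintype ι]
    {E : ι → ℂ → ℂ} {D : ι → ℂ × ℂ → ℂ}
    (hD : ∀ i, AnalyticOnNhd ℂ (D i) (U ×ˢ {0}ᶜ)) {f : ℂ × ℂ → ℂ}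
    (hfan : AnalyticOnNhd ℂ f (U ×ˢ univ))
    (hf : ∀ t ∈ U, ∀ y, f (t, y) = ∑ i, E i y * D i (t, exp y))
    (hcmp : ∀ σ : ℤ, (σ = 1 ∨ σ = -1) → ∀ i j, i ≠ j → ∃ O : Set ℂ, IsOpen O ∧ Dense O ∧
      ∀ x ∈ O, Ll σ (E i) (E j) x ∨ Ll σ (E j) (E i) x)
    (hlw : ∀ σ : ℤ, (σ = 1 ∨ σ = -1) → ∀ i x, Lw σ (E i) x)
    (hne : ∃ i, ∃ t ∈ U, ∃ w ≠ 0, D i (t, w) ≠ 0) :
    ∃ B : Set ℂ, B.Countable ∧ ∀ t₀ ∈ U, t₀ ∉ B → ∃ x₀, VZ f t₀ x₀ := by
  classical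
  set P : ι → Prop := fun i => ∃ t ∈ U, ∃ w ≠ 0, D i (t, w) ≠ 0 with hP
  have hnon : Nonempty {i // P i} := by
    obtain ⟨i, hi⟩ := hne
    exact ⟨⟨i, hi⟩⟩
  have hf' : ∀ t ∈ U, ∀ y, f (t, y) = ∑ i : {i // P i}, E i y * D i (t, exp y) := by
    intro t ht y
    rw [hf t ht y]
    have h1 : ∑ i : {i // P i}, E i y * D i (t, exp y) =
        ∑ i ∈ Finset.univ.filter P, E i y * D i (t, exp y) := by
      rw [Finset.sum_subtype (Finset.univ.filter P) (p := P)]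
      intro i
      simp
    rw [h1]
    symm
    apply Finset.sum_subset (Finset.filter_subset _ _)
    intro i _ hi
    have hi' : ¬ P i := by
      intro h
      exact hi (Finset.mem_filter.2 ⟨Finset.mem_univ i, h⟩)
    have : D i (t, exp y) = 0 := by
      by_contra hne
      exact hi' ⟨t, ht, exp y, exp_ne_zero y, hne⟩
    rw [this, mul_zero]
  choose tt htU ww hw0 hDne using fun i : {i // P i} => i.2
  set B : Set ℂ := ⋃ i : {i // P i}, U ∩ {t | D i (t, ww i) = 0} with hB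
  have hslice : ∀ (i : ι) (w : ℂ), w ≠ 0 → AnalyticOnNhd ℂ (fun t => D i (t, w)) U := by
    intro i w hw t ht
    exact (hD i (t, w) ⟨ht, hw⟩).comp (f := fun t => (t, w))
      (AnalyticAt.prod analyticAt_id analyticAt_const)
  refine ⟨B, ?_, ?_⟩
  · refine countable_iUnion fun i => ?_
    exact zeros_countableOn hUc (hslice i (ww i) (hw0 i)) ⟨tt i, htU i, hDne i⟩
  · intro t₀ ht₀ htB
    have hDt : ∀ i : {i // P i}, Differentiable ℂ (fun x => D i (t₀, exp x)) := by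
      intro i x
      have h1 : AnalyticAt ℂ (fun x : ℂ => (t₀, exp x)) x :=
        analyticAt_const.prod (differentiable_exp.analyticAt x)
      exact ((hD i (t₀, exp x) ⟨ht₀, exp_ne_zero x⟩).comp (f := fun x : ℂ => (t₀, exp x))
        h1).differentiableAt
    have hZ : ∀ i : {i // P i}, {x | D i (t₀, exp x) = 0}.Countable := by
      intro i
      refine zeros_countable (hDt i) ⟨log (ww i), ?_⟩
      rw [exp_log (hw0 i)]
      intro h0
      exact htB (mem_iUnion.2 ⟨i, ht₀, h0⟩)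
    -- the generic points
    have hO : ∀ (b : Bool) (p : {i // P i} × {i // P i}), ∃ O : Set ℂ, IsOpen O ∧ Dense O ∧
        (p.1 ≠ p.2 → ∀ x ∈ O, Ll (if b then 1 else -1) (E p.1) (E p.2) x ∨
          Ll (if b then 1 else -1) (E p.2) (E p.1) x) := by
      intro b p
      by_cases hp : p.1 = p.2
      · exact ⟨univ, isOpen_univ, dense_univ, fun h => absurd hp h⟩
      · obtain ⟨O, h1, h2, h3⟩ := hcmp (if b then 1 else -1) (by cases b <;> simp) p.1 p.2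
          (fun h => hp (Subtype.ext h))
        exact ⟨O, h1, h2, fun _ => h3⟩
    choose O hOo hOd hOl using hO
    set W : Set ℂ := ⋂ q : Bool × ({i // P i} × {i // P i}), O q.1 q.2 with hW
    have hWo : IsOpen W := isOpen_iInter_of_finite fun q => hOo q.1 q.2
    have hWd : Dense W := dense_iInter_of_isOpen (fun q => hOo q.1 q.2) (fun q => hOd q.1 q.2)
    have hWne : W.Nonempty := hWd.nonempty
    have hpick : ∀ S : Set ℂ, S.Countable → ∃ x ∈ W, x ∉ S := by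
      intro S hS
      obtain ⟨w, hw⟩ := hWne
      obtain ⟨x, hx, hx'⟩ := exists_generic hS (t := w)
        (show ∀ᶠ s in 𝓝 w, s ∈ W from hWo.mem_nhds hw)
      exact ⟨x, hx, hx'⟩
    have hside : ∀ x ∈ W, x ∉ (⋃ i : {i // P i}, {x | D i (t₀, exp x) = 0}) →
        ∀ b : Bool, Sd (if b then 1 else -1) f t₀ x := by
      intro x hx hxZ b
      have hσ : (if b then (1 : ℤ) else -1) = 1 ∨ (if b then (1 : ℤ) else -1) = -1 := by
        cases b <;> simp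
      refine side (E := fun i : {i // P i} => E i) (D := fun i => D i) (hU.mem_nhds ht₀) hf'
        ?_ ?_ ?_ ?_
      · intro i
        exact (hD i (t₀, exp x) ⟨ht₀, exp_ne_zero x⟩).continuousAt
      · intro i h0
        exact hxZ (mem_iUnion.2 ⟨i, h0⟩)
      · intro i j hij
        exact hOl b (i, j) hij x (mem_iInter.1 hx (b, (i, j)))
      · intro i
        exact hlw _ hσ i x
    have hZc : (⋃ i : {i // P i}, {x | D i (t₀, exp x) = 0}).Countable := countable_iUnion hZ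
    -- the function does not vanish identically
    obtain ⟨x', hx'W, hx'Z⟩ := hpick _ hZc
    have hfne : ∃ x, f (t₀, x) ≠ 0 := by
      obtain ⟨C, ρ, h⟩ := hside x' hx'W hx'Z true
      obtain ⟨s, hs, u, hu, hsu⟩ := Filter.mem_prod_iff.1 h
      obtain ⟨k, hk⟩ := (Filter.nonempty_of_mem hu)
      have h2 := hsu (show ((t₀, x'), k) ∈ s ×ˢ u from ⟨mem_of_mem_nhds hs, hk⟩)
      have h3 : Real.exp (-(C * (1 + (k : ℝ)) ^ ρ)) ≤
        ‖f (t₀, x' + pt ((if true = true then 1 else -1) * k))‖ := h2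
      refine ⟨x' + pt ((if true = true then 1 else -1) * k), fun h0 => ?_⟩
      rw [h0, norm_zero] at h3
      exact absurd (Real.exp_pos _) (not_lt.2 h3)
    have hzf : (⋃ k : ℤ, {x | f (t₀, x + pt k) = 0}).Countable := by
      refine countable_iUnion fun k => ?_
      have h1 := zeros_countable (slice_right hfan ht₀) hfne
      exact h1.preimage (add_left_injective (pt k))
    obtain ⟨x₀, hx₀W, hx₀Z⟩ := hpick _ (hZc.union hzf)
    have hx₀Z1 : x₀ ∉ ⋃ i : {i // P i}, {x | D i (t₀, exp x) = 0} := fun h => hx₀Z (Or.inl h)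
    have hx₀Z2 : ∀ k : ℤ, f (t₀, x₀ + pt k) ≠ 0 := fun k h => hx₀Z (Or.inr (mem_iUnion.2 ⟨k, h⟩))
    refine ⟨x₀, VZ_of_sides ?_ hx₀Z2 ?_ ?_⟩
    · intro k
      exact (hfan (t₀, x₀ + pt k) ⟨ht₀, mem_univ _⟩).continuousAt
    · exact hside x₀ hx₀W hx₀Z1 true
    · exact hside x₀ hx₀W hx₀Z1 false

end Pool.Agent.L5helper53.TL
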