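import Pool.Agent.L5helper53.TL.Tri

/-!
Functions of double exponential growth in strips.
-/

set_option autoImplicit false

namespace Pool.Agent.L5helper53.TL

open Set Filter Topology Complex Metric
open Pool.Agent.TH735.FO
open Pool.Agent.TH735.QM

/-- the comparison function -/
noncomputable def bb (ρ : ℕ) (x : ℂ) : ℝ := (1 + ‖x‖) ^ ρ * Real.exp (ρ * |x.re|)

theorem one_le_bb (ρ : ℕ) (x : ℂ) : 1 ≤ bb ρ x := by
  unfold bb
  have h1 : (1 : ℝ) ≤ (1 + ‖x‖) ^ ρ := one_le_pow₀ (by linarith [norm_nonneg x])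
  have h2 : (1 : ℝ) ≤ Real.exp (ρ * |x.re|) := Real.one_le_exp (by positivity)
  nlinarith

theorem bb_mono {ρ ρ' : ℕ} (h : ρ ≤ ρ') (x : ℂ) : bb ρ x ≤ bb ρ' x := by
  unfold bb
  have h1 : (1 : ℝ) ≤ 1 + ‖x‖ := by linarith [norm_nonneg x]
  have h2 : (1 + ‖x‖) ^ ρ ≤ (1 + ‖x‖) ^ ρ' := pow_le_pow_right₀ h1 h
  have h3 : (ρ : ℝ) ≤ ρ' := by exact_mod_cast h
  gcongr

theorem sg_iff {U : Set ℂ} {u : ℂ × ℂ → ℂ} : SG U u ↔ ∀ t₀ ∈ U, ∃ (A : ℝ) (ρ : ℕ), 0 ≤ A ∧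
    ∀ᶠ t in 𝓝 t₀, ∀ x, ‖u (t, x)‖ ≤ Real.exp (A * bb ρ x) := by
  constructor
  · intro h t₀ ht₀
    obtain ⟨A, ρ, h⟩ := h t₀ ht₀
    refine ⟨|A|, ρ, abs_nonneg A, ?_⟩
    filter_upwards [h] with t ht x
    refine (ht x).trans ?_
    apply Real.exp_le_exp.2
    unfold bb
    rw [mul_assoc]
    have : 0 ≤ (1 + ‖x‖) ^ ρ * Real.exp (ρ * |x.re|) := by positivity
    gcongr
    exact le_abs_self A
  · intro h t₀ ht₀
    obtain ⟨A, ρ, -, h⟩ := h t₀ ht₀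
    refine ⟨A, ρ, ?_⟩
    filter_upwards [h] with t ht x
    rw [mul_assoc]
    exact ht x

theorem SG.mul {U : Set ℂ} {u v : ℂ × ℂ → ℂ} (hu : SG U u) (hv : SG U v) :
    SG U fun p => u p * v p := by
  rw [sg_iff] at hu hv ⊢
  intro t₀ ht₀
  obtain ⟨A, ρ, hA, h⟩ := hu t₀ ht₀
  obtain ⟨A', ρ', hA', h'⟩ := hv t₀ ht₀
  refine ⟨A + A', max ρ ρ', by positivity, ?_⟩
  filter_upwards [h, h'] with t ht ht' x
  rw [norm_mul, add_mul, Real.exp_add]
  have h1 := bb_mono (le_max_left ρ ρ') x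
  have h2 := bb_mono (le_max_right ρ ρ') x
  have h3 : ‖u (t, x)‖ ≤ Real.exp (A * bb (max ρ ρ') x) :=
    (ht x).trans (Real.exp_le_exp.2 (by gcongr))
  have h4 : ‖v (t, x)‖ ≤ Real.exp (A' * bb (max ρ ρ') x) :=
    (ht' x).trans (Real.exp_le_exp.2 (by gcongr))
  gcongr

theorem SG.add {U : Set ℂ} {u v : ℂ × ℂ → ℂ} (hu : SG U u) (hv : SG U v) :
    SG U fun p => u p + v p := by
  rw [sg_iff] at hu hv ⊢
  intro t₀ ht₀
  obtain ⟨A, ρ, hA, h⟩ := hu t₀ ht₀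
  obtain ⟨A', ρ', hA', h'⟩ := hv t₀ ht₀
  refine ⟨A + A' + 1, max ρ ρ', by positivity, ?_⟩
  filter_upwards [h, h'] with t ht ht' x
  have h1 := bb_mono (le_max_left ρ ρ') x
  have h2 := bb_mono (le_max_right ρ ρ') x
  have h5 := one_le_bb (max ρ ρ') x
  have h3 : ‖u (t, x)‖ ≤ Real.exp ((A + A') * bb (max ρ ρ') x) := by
    refine (ht x).trans (Real.exp_le_exp.2 ?_)
    calc A * bb ρ x ≤ A * bb (max ρ ρ') x := by gcongr
      _ ≤ (A + A') * bb (max ρ ρ') x := by gcongr; linarith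
  have h4 : ‖v (t, x)‖ ≤ Real.exp ((A + A') * bb (max ρ ρ') x) := by
    refine (ht' x).trans (Real.exp_le_exp.2 ?_)
    calc A' * bb ρ' x ≤ A' * bb (max ρ ρ') x := by gcongr
      _ ≤ (A + A') * bb (max ρ ρ') x := by gcongr; linarith
  have h6 : (2 : ℝ) ≤ Real.exp (bb (max ρ ρ') x) := by
    have := Real.add_one_le_exp (bb (max ρ ρ') x)
    linarith
  calc ‖u (t, x) + v (t, x)‖ ≤ ‖u (t, x)‖ + ‖v (t, x)‖ := norm_add_le _ _
    _ ≤ Real.exp ((A + A') * bb (max ρ ρ') x) * 2 := by linarith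
    _ ≤ Real.exp ((A + A') * bb (max ρ ρ') x) * Real.exp (bb (max ρ ρ') x) := by gcongr
    _ = Real.exp ((A + A' + 1) * bb (max ρ ρ') x) := by rw [← Real.exp_add]; ring_nf

theorem SG.zero {U : Set ℂ} : SG U fun _ => 0 := by
  rw [sg_iff]
  intro t₀ _
  refine ⟨0, 0, le_rfl, Filter.Eventually.of_forall fun t x => ?_⟩
  simp

theorem SG.sum {U : Set ℂ} {ι : Type*} (s : Finset ι) {u : ι → ℂ × ℂ → ℂ}
    (h : ∀ i ∈ s, SG U (u i)) : SG U fun p => ∑ i ∈ s, u i p := by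
  classical
  induction s using Finset.induction_on with
  | empty => simpa using SG.zero
  | insert a s ha ih =>
    have := (h a (Finset.mem_insert_self a s)).add (ih fun i hi => h i (Finset.mem_insert_of_mem hi))
    simpa [Finset.sum_insert ha] using this

/-- a function of the parameter -/
theorem SG.param {U : Set ℂ} {a : ℂ → ℂ} (ha : ∀ t ∈ U, ContinuousAt a t) :
    SG U fun p => a p.1 := by
  rw [sg_iff]
  intro t₀ ht₀
  refine ⟨‖a t₀‖ + 1, 0, by positivity, ?_⟩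
  filter_upwards [(ha t₀ ht₀).norm.eventually (gt_mem_nhds (show ‖a t₀‖ < ‖a t₀‖ + 1 by linarith))]
    with t ht x
  have h1 : bb 0 x = 1 := by simp [bb]
  rw [h1, mul_one]
  have := Real.add_one_le_exp (‖a t₀‖ + 1)
  show ‖a t‖ ≤ _
  linarith

/-- the exponential of a function bounded by the comparison function -/
theorem SG.exp_of {U : Set ℂ} {Q : ℂ → ℂ} {A : ℝ} {ρ : ℕ} (hA : 0 ≤ A)
    (h : ∀ x, ‖Q x‖ ≤ A * bb ρ x) : SG U fun p => exp (Q p.2) := by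
  rw [sg_iff]
  intro t₀ _
  refine ⟨A, ρ, hA, Filter.Eventually.of_forall fun t x => ?_⟩
  rw [Complex.norm_exp]
  exact Real.exp_le_exp.2 ((Complex.re_le_norm _).trans (h x))

theorem SG.id {U : Set ℂ} : SG U fun p => p.2 := by
  rw [sg_iff]
  intro t₀ _
  refine ⟨1, 1, zero_le_one, Filter.Eventually.of_forall fun t x => ?_⟩
  rw [one_mul]
  have h1 : ‖x‖ ≤ bb 1 x := by
    unfold bb
    have h2 : (1 : ℝ) ≤ Real.exp ((1 : ℕ) * |x.re|) := Real.one_le_exp (by positivity)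
    rw [pow_one]
    nlinarith [norm_nonneg x]
  have := Real.add_one_le_exp (bb 1 x)
  show ‖x‖ ≤ _
  linarith

theorem SG.one {U : Set ℂ} : SG U fun _ => 1 := by
  have := SG.param (U := U) (a := fun _ => (1 : ℂ)) (fun _ _ => continuousAt_const)
  exact this

theorem SG.pow {U : Set ℂ} {u : ℂ × ℂ → ℂ} (hu : SG U u) (n : ℕ) : SG U fun p => u p ^ n := by
  induction n with
  | zero => simpa using SG.one
  | succ n ih => simpa [pow_succ] using ih.mul hu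

theorem IntExpPoly.bound {Q : ℂ → ℂ} (h : IntExpPoly Q) : ∃ (A : ℝ) (ρ : ℕ), 0 ≤ A ∧
    ∀ x, ‖Q x‖ ≤ A * bb ρ x := by
  obtain ⟨d, b, h⟩ := h
  refine ⟨∑ l ∈ Finset.range d, ∑ n ∈ Finset.Icc (-(d : ℤ)) d, ‖b l n‖, d, ?_, ?_⟩
  · exact Finset.sum_nonneg fun _ _ => Finset.sum_nonneg fun _ _ => norm_nonneg _
  · intro x
    rw [h]
    refine (norm_sum_le _ _).trans ?_
    rw [Finset.sum_mul]
    refine Finset.sum_le_sum fun l hl => (norm_sum_le _ _).trans ?_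
    rw [Finset.sum_mul]
    refine Finset.sum_le_sum fun n hn => ?_
    rw [norm_mul, norm_mul, norm_pow, mul_assoc]
    apply mul_le_mul_of_nonneg_left _ (norm_nonneg _)
    unfold bb
    have h1 : ‖x‖ ^ l ≤ (1 + ‖x‖) ^ d := by
      have h2 : 0 ≤ ‖x‖ := norm_nonneg x
      calc ‖x‖ ^ l ≤ (1 + ‖x‖) ^ l := by gcongr; linarith
        _ ≤ (1 + ‖x‖) ^ d := pow_le_pow_right₀ (by linarith) (Finset.mem_range.1 hl).le
    have h2 : ‖exp (n * x)‖ ≤ Real.exp (d * |x.re|) := by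
      rw [Complex.norm_exp]
      apply Real.exp_le_exp.2
      have h3 : ((n : ℂ) * x).re = n * x.re := by
        rw [mul_re]
        simp
      rw [h3]
      rw [Finset.mem_Icc] at hn
      have h4 : |(n : ℝ)| ≤ d := by
        rw [abs_le]
        constructor
        · exact_mod_cast hn.1
        · exact_mod_cast hn.2
      calc (n : ℝ) * x.re ≤ |(n : ℝ) * x.re| := le_abs_self _
        _ = |(n : ℝ)| * |x.re| := abs_mul _ _
        _ ≤ d * |x.re| := by gcongr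
    gcongr

/-- functions of finite order of `e^x` -/
theorem SG.of_exp {U : Set ℂ} {C : ℂ × ℂ → ℂ}
    (h : ∀ t₀ ∈ U, ∃ (A : ℝ) (ρ : ℕ), ∀ᶠ t in 𝓝 t₀, ∀ w ≠ 0,
      ‖C (t, w)‖ ≤ Real.exp (A * (‖w‖ + ‖w‖⁻¹) ^ ρ)) :
    SG U fun p => C (p.1, exp p.2) := by
  rw [sg_iff]
  intro t₀ ht₀
  obtain ⟨A, ρ, h⟩ := h t₀ ht₀
  refine ⟨|A| * 2 ^ ρ, ρ, by positivity, ?_⟩
  filter_upwards [h] with t ht x
  refine (ht (exp x) (exp_ne_zero x)).trans ?_
  apply Real.exp_le_exp.2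
  have h1 : ‖exp x‖ + ‖exp x‖⁻¹ ≤ 2 * Real.exp |x.re| := by
    rw [Complex.norm_exp, ← Real.exp_neg]
    have h2 : Real.exp x.re ≤ Real.exp |x.re| := Real.exp_le_exp.2 (le_abs_self _)
    have h3 : Real.exp (-x.re) ≤ Real.exp |x.re| := Real.exp_le_exp.2 (neg_le_abs _)
    linarith
  have h2 : Real.exp |x.re| ^ ρ ≤ bb ρ x := by
    unfold bb
    rw [← Real.exp_nat_mul]
    have : (1 : ℝ) ≤ (1 + ‖x‖) ^ ρ := one_le_pow₀ (by linarith [norm_nonneg x])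
    have h3 : 0 < Real.exp (ρ * |x.re|) := Real.exp_pos _
    nlinarith
  calc A * (‖exp x‖ + ‖exp x‖⁻¹) ^ ρ ≤ |A| * (‖exp x‖ + ‖exp x‖⁻¹) ^ ρ := by
        gcongr
        exact le_abs_self A
    _ ≤ |A| * (2 * Real.exp |x.re|) ^ ρ := by gcongr
    _ = |A| * 2 ^ ρ * Real.exp |x.re| ^ ρ := by rw [mul_pow]; ring
    _ ≤ |A| * 2 ^ ρ * bb ρ x := by gcongr

end Pool.Agent.L5helper53.TL
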