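import Pool.Agent.L5helper53.TL.Theta
import Pool.Agent.TH735.FO.Glob2

/-!
The number of zeros satisfying a condition is generically constant, for analytic functions of
two variables of double exponential growth which do not vanish along a generic progression of
step `2 π i`.
-/

set_option autoImplicit false

namespace Pool.Agent.L5helper53.TL

open Set Filter Topology Complex Metric Cardinal
open Pool.Agent.TH735.FO
open Pool.Agent.TH735.QM

/-- local version, normalised -/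
theorem local_count₂ {t₀ : ℂ} {R : ℝ} {f : ℂ × ℂ → ℂ}
    (hf : AnalyticOnNhd ℂ f (ball t₀ R ×ˢ Set.univ)) {Y : ℂ → ℂ → Prop} (hY : LQ (ball t₀ R) Y)
    {A δ C₀ : ℝ} {ρ : ℕ} (hA : 0 ≤ A) (hC₀ : 0 ≤ C₀) (hδ : 0 < δ) (hδ1 : δ ≤ 1)
    (hup : ∀ t ∈ ball t₀ R, ∀ x,
      ‖f (t, x)‖ ≤ Real.exp (A * (1 + ‖x‖) ^ ρ * Real.exp (ρ * |x.re|)))
    (hne : ∀ t ∈ ball t₀ R, ∀ k : ℤ, ∀ x, ‖x - pt k‖ < δ → f (t, x) ≠ 0)
    (hlow : ∀ t ∈ ball t₀ R, ∀ k : ℤ,
      Real.exp (-(C₀ * (1 + |(k : ℝ)|) ^ ρ)) ≤ ‖f (t, pt k)‖)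
    {T : Set ℂ} (hT : Dense T)
    (hinj : ∀ t ∈ ball t₀ R, t ∈ T → InjOn th {x | f (t, x) = 0}) (n : ℕ) :
    QmOn (ball t₀ R) {t | {x | f (t, x) = 0 ∧ Y t x}.encard ≤ n} := by
  classical
  have hne' : ∀ t ∈ ball t₀ R, ∃ x, f (t, x) ≠ 0 := by
    intro t ht
    exact ⟨pt 0, hne t ht 0 (pt 0) (by rw [sub_self, norm_zero]; exact hδ)⟩
  have h := zs_gen isOpen_ball hf hne' hY
  have hfar : ∀ t ∈ ball t₀ R, ∀ x, mult (ball t₀ R) f (Gen f Y) t x ≠ 0 →
      ∀ k : ℤ, δ ≤ ‖x - pt k‖ := by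
    intro t ht x hm k
    by_contra hlt
    exact hne t ht k x (not_le.1 hlt) (h.mult_zero ht hm)
  have hp : Prp (ball t₀ R) (mult (ball t₀ R) f (Gen f Y)) th := fun r =>
    ⟨r * (10 / δ ^ 2), fun t ht x hm hr => th_proper hδ hδ1 (hfar t ht x hm) hr⟩
  have hdv := push_dv isOpen_ball h.dv th_diff hp
  set C := ⌈7 * (A * 42 ^ ρ * Real.exp (16 * ρ) + C₀ * 4 ^ ρ) * (10 / δ ^ 3) ^ (5 * ρ + 1)⌉₊
    with hC
  have hCle : 7 * (A * 42 ^ ρ * Real.exp (16 * ρ) + C₀ * 4 ^ ρ) *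
      (10 / δ ^ 3) ^ (5 * ρ + 1) ≤ C := Nat.le_ceil _
  have g := gr_of_generic (δ := δ ^ 3 / 10) (C := C) (ρ := 5 * ρ + 1) isOpen_ball hdv.toDv0
    (badT_countable h) (by positivity) (by
      intro t ht y hy
      obtain ⟨x, rfl, hx⟩ := (push_ne h.dv0 hp ht).1 hy
      exact th_lower' hδ hδ1 (hfar t ht x hx)) (by
      intro t ht htb n
      rw [push_sum_nat h.dv0 hp ht isBounded_closedBall]
      have hfin := fin_pre h.dv0 hp ht (S := closedBall (0 : ℂ) (n : ℝ)) isBounded_closedBall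
      rw [sm_eq_nat hfin]
      have h1 : ∀ x ∈ hfin.toFinset, mult (ball t₀ R) f (Gen f Y) t x = 1 := by
        intro x hx
        rw [Set.Finite.mem_toFinset] at hx
        have hg : f (t, x) = 0 → Good f (t, x) := by
          intro h0
          by_contra hb
          exact htb ⟨ht, x, h0, hb⟩
        by_cases hΓ : f (t, x) = 0 ∧ Gen f Y (t, x)
        · exact (h.mult_good ht hg).1 hΓ
        · exact absurd ((h.mult_good ht hg).2 hΓ) hx.2
      rw [Finset.sum_congr rfl h1, Finset.sum_const, smul_eq_mul, mul_one]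
      have h2 := count_strip (g := fun x => f (t, x)) (slice_right hf ht) hA hC₀ hδ hδ1
        (hup t ht) (hne t ht) (hlow t ht) n (F := hfin.toFinset) (by
          intro a ha
          rw [Set.Finite.mem_toFinset] at ha
          exact ⟨h.mult_zero ht ha.2, by simpa using ha.1⟩)
      have h3 : (hfin.toFinset.card : ℝ) ≤ C * ((n : ℝ) + 1) ^ (5 * ρ + 1) := by
        refine h2.trans ?_
        gcongr
      exact_mod_cast h3)
  have key : QmOn (ball t₀ R) {t | {x | mult (ball t₀ R) f (Gen f Y) t x ≠ 0}.encard ≤ n} := by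
    by_cases hunc : {t | t ∈ ball t₀ R ∧
        {x | mult (ball t₀ R) f (Gen f Y) t x ≠ 0}.encard ≤ n}.Countable
    · left
      exact hunc
    · right
      have := count_generic_push h.dv th_diff hp g hT (by
        intro t ht htT x hx y hy hxy
        exact hinj t ht htT (h.mult_zero ht hx) (h.mult_zero ht hy) hxy) n hunc
      convert countable_empty using 1
      ext t
      simp only [Set.mem_sdiff, Set.mem_ofPred_eq, mem_empty_iff_false, iff_false, not_and,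
        not_not]
      exact this t
  have hexc := (exc_countable (f := f) isOpen_ball hY).image Prod.fst
  refine key.congr ((badT_countable h).union hexc) ?_
  intro t ht htb
  have hset : {x | mult (ball t₀ R) f (Gen f Y) t x ≠ 0} = {x | f (t, x) = 0 ∧ Y t x} := by
    ext x
    simp only [Set.mem_ofPred_eq]
    have hg : f (t, x) = 0 → Good f (t, x) := by
      intro h0
      by_contra hb
      exact htb (Or.inl ⟨ht, x, h0, hb⟩)
    have hYG : f (t, x) = 0 → (Y t x ↔ Gen f Y (t, x)) := by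
      intro h0
      by_contra hb
      exact htb (Or.inr ⟨(t, x), ⟨ht, h0, hg h0, hb⟩, rfl⟩)
    constructor
    · intro hm
      have h0 := h.mult_zero ht hm
      refine ⟨h0, (hYG h0).2 ?_⟩
      by_contra hG
      exact hm ((h.mult_good ht hg).2 fun h => hG h.2)
    · rintro ⟨h0, hYx⟩
      rw [(h.mult_good ht hg).1 ⟨h0, (hYG h0).1 hYx⟩]
      exact one_ne_zero
  simp only [Set.mem_ofPred_eq]
  rw [hset]

/-- `f` does not vanish near the progression `x₀ + 2 π i k`, for parameters near `t₀`, with a lower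
bound of finite order -/
def VZ (f : ℂ × ℂ → ℂ) (t₀ x₀ : ℂ) : Prop :=
  ∃ δ > 0, ∃ (C₀ : ℝ) (ρ : ℕ), ∀ t ∈ ball t₀ δ, ∀ x ∈ ball x₀ δ, ∀ k : ℤ,
    Real.exp (-(C₀ * (1 + |(k : ℝ)|) ^ ρ)) ≤ ‖f (t, x + pt k)‖

/-- the growth of `f (t, x)` in `x` is at most double exponential in `re x` and of finite order
in the vertical direction, locally uniformly in `t` -/
def SG (U : Set ℂ) (f : ℂ × ℂ → ℂ) : Prop :=
  ∀ t₀ ∈ U, ∃ (A : ℝ) (ρ : ℕ), ∀ᶠ t in 𝓝 t₀, ∀ x,
    ‖f (t, x)‖ ≤ Real.exp (A * (1 + ‖x‖) ^ ρ * Real.exp (ρ * |x.re|))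

theorem VZ.ne {f : ℂ × ℂ → ℂ} {t₀ x₀ : ℂ} (h : VZ f t₀ x₀) : ∀ k : ℤ, f (t₀, x₀ + pt k) ≠ 0 := by
  obtain ⟨δ, hδ, C₀, ρ, h⟩ := h
  intro k h0
  have := h t₀ (mem_ball_self hδ) x₀ (mem_ball_self hδ) k
  rw [h0, norm_zero] at this
  exact absurd (Real.exp_pos _) (not_lt.2 this)

theorem local_count₂' {U : Set ℂ} (hU : IsOpen U) {f : ℂ × ℂ → ℂ}
    (hf : AnalyticOnNhd ℂ f (U ×ˢ Set.univ)) {Y : ℂ → ℂ → Prop} (hY : LQ U Y)
    (hgrow : SG U f) {t₀ x₁ : ℂ} (ht₀ : t₀ ∈ U) (hVZ : VZ f t₀ x₁) :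
    ∃ R > 0, ∀ n : ℕ, QmOn (ball t₀ R) {t | {x | f (t, x) = 0 ∧ Y t x}.encard ≤ n} := by
  classical
  obtain ⟨A, ρ₂, hA⟩ := hgrow t₀ ht₀
  obtain ⟨d, hd, C₀, ρ₁, hV⟩ := hVZ
  obtain ⟨d₁, hd₁, hd₁'⟩ := Metric.eventually_nhds_iff_ball.1 (hA.and (hU.mem_nhds ht₀))
  set R := min d d₁ with hR
  have hR0 : 0 < R := lt_min hd hd₁
  refine ⟨R, hR0, ?_⟩
  intro n
  have hRd : ball t₀ R ⊆ ball t₀ d := ball_subset_ball (min_le_left _ _)
  have hRd₁ : ball t₀ R ⊆ ball t₀ d₁ := ball_subset_ball (min_le_right _ _)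
  have hRU : ball t₀ R ⊆ U := fun t ht => (hd₁' t (hRd₁ ht)).2
  have hx₁ : ∀ t ∈ ball t₀ R, f (t, x₁ + pt 0) ≠ 0 := by
    intro t ht h0
    have := hV t (hRd ht) x₁ (mem_ball_self hd) 0
    rw [h0, norm_zero] at this
    exact absurd (Real.exp_pos _) (not_lt.2 this)
  -- a generic translation
  obtain ⟨T, hTc, hTd⟩ := TopologicalSpace.exists_countable_dense ℂ
  set bad : Set ℂ := ⋃ t ∈ (T ∩ ball t₀ R), ⋃ a ∈ {x | f (t, x) = 0},
    ⋃ b ∈ {x | f (t, x) = 0 ∧ x ≠ a}, {x₀ : ℂ | th (a - x₀) = th (b - x₀)} with hbad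
  have hbadc : bad.Countable := by
    refine (hTc.mono inter_subset_left).biUnion fun t ht => ?_
    have hzc : {x | f (t, x) = 0}.Countable :=
      zeros_countable (slice_right hf (hRU ht.2)) ⟨_, hx₁ t ht.2⟩
    refine hzc.biUnion fun a ha => ?_
    refine (hzc.mono (fun x hx => hx.1)).biUnion fun b hb => ?_
    exact th_sep (fun hab => hb.2 hab.symm)
  obtain ⟨x₀, hx₀, hx₀b⟩ := exists_generic hbadc (t := x₁)
    (ball_mem_nhds x₁ (half_pos hd) : ∀ᶠ s in 𝓝 x₁, s ∈ ball x₁ (d / 2))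
  set δ := min (d / 2) 1 with hδ
  have hδ0 : 0 < δ := lt_min (half_pos hd) one_pos
  set ρ := max ρ₁ ρ₂ with hρ
  set f' : ℂ × ℂ → ℂ := fun p => f (p.1, p.2 + x₀) with hf'
  have hf'an : AnalyticOnNhd ℂ f' (ball t₀ R ×ˢ Set.univ) := by
    rintro ⟨t, x⟩ ⟨ht, -⟩
    have h1 : AnalyticAt ℂ (fun p : ℂ × ℂ => (p.1, p.2 + x₀)) (t, x) :=
      analyticAt_fst.prod (analyticAt_snd.add analyticAt_const)
    exact (hf (t, x + x₀) ⟨hRU ht, mem_univ _⟩).comp (f := fun p : ℂ × ℂ => (p.1, p.2 + x₀))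
      (x := (t, x)) h1
  have hY' : LQ (ball t₀ R) fun t x => Y t (x + x₀) := by
    intro W hW hWo hWc z hz
    exact hY W (hW.trans hRU) hWo hWc (fun t => z t + x₀) fun t ht => (hz t ht).add analyticAt_const
  have hlow' : ∀ t ∈ ball t₀ R, ∀ k : ℤ, ∀ x, ‖x - pt k‖ < δ →
      Real.exp (-(|C₀| * (1 + |(k : ℝ)|) ^ ρ)) ≤ ‖f' (t, x)‖ := by
    intro t ht k x hx
    have h1 : x - pt k + x₀ ∈ ball x₁ d := by
      rw [dist_eq_norm] at hx₀
      rw [mem_ball_iff_norm]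
      have h2 : x - pt k + x₀ - x₁ = (x - pt k) + (x₀ - x₁) := by ring
      rw [h2]
      refine lt_of_le_of_lt (norm_add_le _ _) ?_
      have h3 : δ ≤ d / 2 := min_le_left _ _
      linarith
    have h2 := hV t (hRd ht) _ h1 k
    have h3 : x - pt k + x₀ + pt k = x + x₀ := by ring
    rw [h3] at h2
    refine le_trans ?_ h2
    apply Real.exp_le_exp.2
    apply neg_le_neg
    have h4 : (1 + |(k : ℝ)|) ^ ρ₁ ≤ (1 + |(k : ℝ)|) ^ ρ :=
      pow_le_pow_right₀ (by linarith [abs_nonneg (k : ℝ)]) (le_max_left _ _)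
    calc C₀ * (1 + |(k : ℝ)|) ^ ρ₁ ≤ |C₀| * (1 + |(k : ℝ)|) ^ ρ₁ := by
          gcongr
          exact le_abs_self C₀
      _ ≤ |C₀| * (1 + |(k : ℝ)|) ^ ρ := by gcongr
  have key := local_count₂ (f := f') hf'an hY' (A := |A| * (1 + ‖x₀‖) ^ ρ * Real.exp (ρ * ‖x₀‖))
    (δ := δ) (C₀ := |C₀|) (ρ := ρ) (by positivity) (abs_nonneg _) hδ0 (min_le_right _ _) (by
      intro t ht x
      refine ((hd₁' t (hRd₁ ht)).1 (x + x₀)).trans ?_
      apply Real.exp_le_exp.2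
      have h1 : 1 + ‖x + x₀‖ ≤ (1 + ‖x₀‖) * (1 + ‖x‖) := by
        have h2 := norm_add_le x x₀
        have h3 : 0 ≤ ‖x₀‖ * ‖x‖ := by positivity
        nlinarith
      have h4 : (1 + ‖x + x₀‖) ^ ρ₂ ≤ (1 + ‖x₀‖) ^ ρ * (1 + ‖x‖) ^ ρ := by
        rw [← mul_pow]
        calc (1 + ‖x + x₀‖) ^ ρ₂ ≤ (1 + ‖x + x₀‖) ^ ρ :=
              pow_le_pow_right₀ (by linarith [norm_nonneg (x + x₀)]) (le_max_right _ _)
          _ ≤ ((1 + ‖x₀‖) * (1 + ‖x‖)) ^ ρ := by gcongr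
      have h5 : Real.exp (ρ₂ * |(x + x₀).re|) ≤ Real.exp (ρ * ‖x₀‖) * Real.exp (ρ * |x.re|) := by
        rw [← Real.exp_add]
        apply Real.exp_le_exp.2
        have h6 : |(x + x₀).re| ≤ ‖x₀‖ + |x.re| := by
          rw [add_re]
          have := abs_add_le x.re x₀.re
          have h7 := Complex.abs_re_le_norm x₀
          linarith
        have h8 : (ρ₂ : ℝ) ≤ ρ := by exact_mod_cast le_max_right _ _
        calc (ρ₂ : ℝ) * |(x + x₀).re| ≤ ρ * (‖x₀‖ + |x.re|) := by gcongr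
          _ = ρ * ‖x₀‖ + ρ * |x.re| := by ring
      calc A * (1 + ‖x + x₀‖) ^ ρ₂ * Real.exp (ρ₂ * |(x + x₀).re|)
          ≤ |A| * (1 + ‖x + x₀‖) ^ ρ₂ * Real.exp (ρ₂ * |(x + x₀).re|) := by
            gcongr
            exact le_abs_self A
        _ ≤ |A| * ((1 + ‖x₀‖) ^ ρ * (1 + ‖x‖) ^ ρ) *
            (Real.exp (ρ * ‖x₀‖) * Real.exp (ρ * |x.re|)) := by gcongr
        _ = |A| * (1 + ‖x₀‖) ^ ρ * Real.exp (ρ * ‖x₀‖) * (1 + ‖x‖) ^ ρ *
            Real.exp (ρ * |x.re|) := by ring) (by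
      intro t ht k x hx h0
      have := hlow' t ht k x hx
      rw [h0, norm_zero] at this
      exact absurd (Real.exp_pos _) (not_lt.2 this)) (by
      intro t ht k
      exact hlow' t ht k (pt k) (by rw [sub_self, norm_zero]; exact hδ0)) hTd (by
      intro t ht htT x hx y hy hxy
      by_contra hne
      apply hx₀b
      rw [hbad]
      refine mem_iUnion₂.2 ⟨t, ⟨htT, ht⟩, mem_iUnion₂.2 ⟨x + x₀, hx, mem_iUnion₂.2
        ⟨y + x₀, ⟨hy, fun h => hne (add_right_cancel h).symm⟩, ?_⟩⟩⟩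
      show th (x + x₀ - x₀) = th (y + x₀ - x₀)
      rw [add_sub_cancel_right, add_sub_cancel_right]
      exact hxy) n
  refine key.congr' ?_
  intro t _
  have himg : {x | f (t, x) = 0 ∧ Y t x} =
      (fun x => x + x₀) '' {x | f' (t, x) = 0 ∧ Y t (x + x₀)} := by
    ext y
    simp only [Set.mem_ofPred_eq, mem_image]
    constructor
    · rintro ⟨h1, h2⟩
      refine ⟨y - x₀, ⟨?_, ?_⟩, by ring⟩
      · show f (t, y - x₀ + x₀) = 0
        rw [sub_add_cancel]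
        exact h1
      · rw [sub_add_cancel]
        exact h2
    · rintro ⟨x, ⟨h1, h2⟩, rfl⟩
      exact ⟨h1, h2⟩
  simp only [Set.mem_ofPred_eq]
  rw [himg, (add_left_injective x₀).encard_image]

theorem strip_count {U : Set ℂ} (hU : IsOpen U) (hUc : IsPreconnected U) {f : ℂ × ℂ → ℂ}
    (hf : AnalyticOnNhd ℂ f (U ×ˢ Set.univ)) {Y : ℂ → ℂ → Prop} (hY : LQ U Y)
    (hgrow : SG U f) {B : Set ℂ} (hB : B.Countable)
    (hVZ : ∀ t₀ ∈ U, t₀ ∉ B → ∃ x₀, VZ f t₀ x₀) :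
    GenCard U fun t x => (∃ x', f (t, x') ≠ 0) ∧ f (t, x) = 0 ∧ Y t x := by
  have hloc : ∀ n : ℕ, QmOn U {t | {x | f (t, x) = 0 ∧ Y t x}.encard ≤ n} := by
    intro n
    refine QmOn.of_local hU hUc hB ?_
    intro t ht htB
    obtain ⟨x₀, hx₀⟩ := hVZ t ht htB
    obtain ⟨R, hR, h⟩ := local_count₂' hU hf hY hgrow ht hx₀
    exact ⟨R, hR, h n⟩
  have hne : ∀ t ∈ U, t ∉ B → ∃ x, f (t, x) ≠ 0 := by
    intro t ht htB
    obtain ⟨x₀, hx₀⟩ := hVZ t ht htB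
    exact ⟨_, hx₀.ne 0⟩
  have h1 : GenCard U fun t x => f (t, x) = 0 ∧ Y t x := by
    refine genCard_of_encard (B₀ := B) ?_ hB ?_
    · intro k
      rcases k with _ | n
      · right
        convert countable_empty using 1
        ext t
        simp
      · refine (hloc n).compl.congr' ?_
        intro t _
        simp only [mem_compl_iff, Set.mem_ofPred_eq, not_le]
        rw [show ((n + 1 : ℕ) : ℕ∞) = (n : ℕ∞) + 1 by push_cast; rfl]
        exact (ENat.add_one_le_iff (ENat.natCast_ne_top n)).symm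
    · intro t ht htB
      exact (zeros_countable (slice_right hf ht) (hne t ht htB)).mono fun x hx => hx.1
  refine h1.congr hB ?_
  intro t ht htB x
  exact ⟨fun h => ⟨hne t ht htB, h⟩, fun h => h.2⟩

end Pool.Agent.L5helper53.TL
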