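import Pool.Agent.TH735.FO.GenCount
import Pool.Agent.TH735.FO.Div2

/-!
Images of analytically moving weights under a holomorphic map.
-/

set_option autoImplicit false

namespace Pool.Agent.L5helper53.TL

open Set Filter Topology Complex Metric Function
open Pool.Agent.TH735.FO

/-- the image of the weights under `Θ` -/
noncomputable def push (m : ℂ → ℂ → ℕ) (Θ : ℂ → ℂ) (t y : ℂ) : ℕ := ∑ᶠ x ∈ Θ ⁻¹' {y}, m t x

/-- `Θ` is proper on the points of positive weight, uniformly in the parameter -/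
def Prp (D : Set ℂ) (m : ℂ → ℂ → ℕ) (Θ : ℂ → ℂ) : Prop :=
  ∀ R : ℝ, ∃ r : ℝ, ∀ t ∈ D, ∀ x, m t x ≠ 0 → ‖Θ x‖ ≤ R → ‖x‖ ≤ r

theorem fin_pre {D : Set ℂ} {m : ℂ → ℂ → ℕ} (h : Dv0 D m) {Θ : ℂ → ℂ} (hp : Prp D m Θ) {t : ℂ}
    (ht : t ∈ D) {S : Set ℂ} (hS : Bornology.IsBounded S) :
    {x | x ∈ Θ ⁻¹' S ∧ m t x ≠ 0}.Finite := by
  obtain ⟨R, hR⟩ := hS.subset_closedBall 0
  obtain ⟨r, hr⟩ := hp R
  refine (h.fin t ht r).subset ?_
  rintro x ⟨hx, hx'⟩
  exact ⟨hr t ht x hx' (by simpa using hR hx), hx'⟩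

theorem push_eq {D : Set ℂ} {m : ℂ → ℂ → ℕ} (h : Dv0 D m) {Θ : ℂ → ℂ} (hp : Prp D m Θ) {t : ℂ}
    (ht : t ∈ D) {S : Set ℂ} (hS : Bornology.IsBounded S) {y : ℂ} (hy : y ∈ S) :
    push m Θ t y = ∑ x ∈ (fin_pre h hp ht hS).toFinset with Θ x = y, m t x := by
  unfold push
  apply finsum_mem_eq_sum_of_inter_support_eq
  ext x
  simp only [mem_inter_iff, mem_preimage, mem_singleton_iff, Function.mem_support,
    Finset.coe_filter, Set.Finite.mem_toFinset, Set.mem_ofPred_eq]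
  constructor
  · rintro ⟨h1, h2⟩
    exact ⟨⟨⟨by rw [h1]; exact hy, h2⟩, h1⟩, h2⟩
  · rintro ⟨⟨⟨-, h1⟩, h2⟩, -⟩
    exact ⟨h2, h1⟩

theorem push_ne {D : Set ℂ} {m : ℂ → ℂ → ℕ} (h : Dv0 D m) {Θ : ℂ → ℂ} (hp : Prp D m Θ) {t : ℂ}
    (ht : t ∈ D) {y : ℂ} : push m Θ t y ≠ 0 ↔ ∃ x, Θ x = y ∧ m t x ≠ 0 := by
  rw [push_eq h hp ht (S := {y}) Bornology.isBounded_singleton (mem_singleton y)]
  rw [Ne, Finset.sum_eq_zero_iff, not_forall]
  constructor
  · rintro ⟨x, hx⟩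
    rw [Classical.not_imp, Finset.mem_filter] at hx
    exact ⟨x, hx.1.2, hx.2⟩
  · rintro ⟨x, h1, h2⟩
    refine ⟨x, ?_⟩
    rw [Classical.not_imp, Finset.mem_filter, Set.Finite.mem_toFinset]
    exact ⟨⟨⟨h1, h2⟩, h1⟩, h2⟩

theorem push_sum {V : Type*} [AddCommMonoid V] {D : Set ℂ} {m : ℂ → ℂ → ℕ} (h : Dv0 D m)
    {Θ : ℂ → ℂ} (hp : Prp D m Θ) {t : ℂ} (ht : t ∈ D) {S : Set ℂ} (hS : Bornology.IsBounded S)
    (Φ : ℂ → V) :
    ∑ᶠ y ∈ S, push m Θ t y • Φ y = ∑ᶠ x ∈ Θ ⁻¹' S, m t x • Φ (Θ x) := by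
  classical
  set F := (fin_pre h hp ht hS).toFinset with hF
  have hmem : ∀ x, x ∈ F ↔ (Θ x ∈ S ∧ m t x ≠ 0) := by
    intro x
    rw [hF, Set.Finite.mem_toFinset]
    rfl
  rw [sm_eq (fin_pre h hp ht hS) (fun x => Φ (Θ x)), ← hF]
  have h1 : ∑ᶠ y ∈ S, push m Θ t y • Φ y = ∑ y ∈ F.image Θ, push m Θ t y • Φ y := by
    apply finsum_mem_eq_sum_of_inter_support_eq
    ext y
    simp only [mem_inter_iff, Function.mem_support, Finset.coe_image, mem_image, Finset.mem_coe]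
    constructor
    · rintro ⟨h1, h2⟩
      have h3 : push m Θ t y ≠ 0 := fun h0 => h2 (by simp [h0])
      obtain ⟨x, hx, hx'⟩ := (push_ne h hp ht).1 h3
      exact ⟨⟨x, (hmem x).2 ⟨by rw [hx]; exact h1, hx'⟩, hx⟩, h2⟩
    · rintro ⟨⟨x, hx, rfl⟩, h2⟩
      exact ⟨((hmem x).1 hx).1, h2⟩
  rw [h1]
  have h2 : ∀ y ∈ F.image Θ, push m Θ t y • Φ y = ∑ x ∈ F with Θ x = y, m t x • Φ (Θ x) := by
    intro y hy
    obtain ⟨x, hx, rfl⟩ := Finset.mem_image.1 hy
    rw [push_eq h hp ht hS ((hmem x).1 hx).1, Finset.sum_smul, ← hF]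
    refine Finset.sum_congr rfl fun z hz => ?_
    rw [(Finset.mem_filter.1 hz).2]
  rw [Finset.sum_congr rfl h2]
  exact Finset.sum_fiberwise_of_maps_to (fun x hx => Finset.mem_image_of_mem Θ hx) _

theorem push_sum_nat {D : Set ℂ} {m : ℂ → ℂ → ℕ} (h : Dv0 D m)
    {Θ : ℂ → ℂ} (hp : Prp D m Θ) {t : ℂ} (ht : t ∈ D) {S : Set ℂ} (hS : Bornology.IsBounded S) :
    ∑ᶠ y ∈ S, push m Θ t y = ∑ᶠ x ∈ Θ ⁻¹' S, m t x := by
  have := push_sum h hp ht hS (fun _ => (1 : ℕ))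
  simpa using this

/-- the preimage of a small window -/
theorem push_window {D : Set ℂ} (hD : IsOpen D) {m : ℂ → ℂ → ℕ} (h : Dv D m)
    {Θ : ℂ → ℂ} (hΘ : Continuous Θ) (hp : Prp D m Θ) {t₀ : ℂ} (ht₀ : t₀ ∈ D) (e : ℂ) :
    ∃ ε₀ > 0, ∀ ε ∈ Ioc (0 : ℝ) ε₀, ∃ (E : Finset ℂ) (η : ℂ → ℝ),
      (∀ x, x ∈ E ↔ (Θ x = e ∧ m t₀ x ≠ 0)) ∧
      (∀ x ∈ E, ball x (η x) ⊆ Θ ⁻¹' ball e ε) ∧
      (∀ x, ∀ᶠ t in 𝓝 t₀, ∑ᶠ z ∈ ball x (η x), m t z = m t₀ x) ∧
      (∀ x, ∀ ψ : ℂ → ℂ, AnalyticOnNhd ℂ ψ (ball x (η x)) →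
        AnalyticAt ℂ (fun t => ∑ᶠ z ∈ ball x (η x), m t z • ψ z) t₀) ∧
      (∀ᶠ t in 𝓝 t₀, (∀ x ∈ Θ ⁻¹' ball e ε₀, m t x ≠ 0 → x ∈ Θ ⁻¹' ball e ε) ∧
        ∀ (V : Type) [AddCommMonoid V] (Φ : ℂ → V),
        ∑ᶠ x ∈ Θ ⁻¹' ball e ε, m t x • Φ x = ∑ x ∈ E, ∑ᶠ z ∈ ball x (η x), m t z • Φ z) := by
  classical
  obtain ⟨r, hr⟩ := hp (‖e‖ + 1)
  -- the points of weight at `t₀`
  have hfin := h.fin t₀ ht₀ r
  set N := hfin.toFinset.filter (fun x => Θ x ≠ e) with hN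
  obtain ⟨ε₁, hε₁, hε₁'⟩ : ∃ ε₁ > 0, ∀ x, ‖x‖ ≤ r → m t₀ x ≠ 0 → Θ x ≠ e → ε₁ ≤ dist (Θ x) e := by
    by_cases hne : N.Nonempty
    · obtain ⟨p, hp', hpmin⟩ := Finset.exists_min_image N (fun x => dist (Θ x) e) hne
      refine ⟨dist (Θ p) e, dist_pos.2 (Finset.mem_filter.1 hp').2, ?_⟩
      intro x h1 h2 h3
      apply hpmin x
      rw [hN, Finset.mem_filter, Set.Finite.mem_toFinset]
      exact ⟨⟨h1, h2⟩, h3⟩
    · refine ⟨1, one_pos, ?_⟩
      intro x h1 h2 h3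
      exfalso
      apply hne
      refine ⟨x, ?_⟩
      rw [hN, Finset.mem_filter, Set.Finite.mem_toFinset]
      exact ⟨⟨h1, h2⟩, h3⟩
  set ε₀ := min (1 : ℝ) (ε₁ / 2) with hε₀
  have hε₀pos : 0 < ε₀ := lt_min one_pos (by positivity)
  refine ⟨ε₀, hε₀pos, ?_⟩
  intro ε hε
  -- radii
  have hb : ∀ x, ∃ b > 0, (Θ x = e → ball x b ⊆ Θ ⁻¹' ball e ε) ∧
      (Θ x ≠ e → ∀ z ∈ ball x b, ε₁ ≤ dist (Θ x) e → Θ z ∉ ball e ε₀) := by
    intro x
    by_cases hx : Θ x = e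
    · obtain ⟨b, hb, hb'⟩ := Metric.isOpen_iff.1 (isOpen_ball.preimage hΘ) x
        (show x ∈ Θ ⁻¹' ball e ε by
          rw [mem_preimage, hx]
          exact mem_ball_self hε.1)
      exact ⟨b, hb, fun _ => hb', fun h0 => absurd hx h0⟩
    · obtain ⟨b, hb, hb'⟩ := Metric.continuousAt_iff.1 (hΘ.continuousAt (x := x)) (ε₁ / 2)
        (by positivity)
      refine ⟨b, hb, fun h0 => absurd h0 hx, fun _ z hz hd hze => ?_⟩
      have h1 := hb' hz
      have h2 : dist (Θ z) e < ε₁ / 2 := lt_of_lt_of_le hze (min_le_right _ _)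
      have h3 := dist_triangle_left (Θ x) e (Θ z)
      linarith
  choose b hb0 hb1 hb2 using hb
  obtain ⟨E', η, hE', hη, h1, h2, h3, h4⟩ := h.decomp hD ht₀ r b hb0
  refine ⟨E'.filter (fun x => Θ x = e), η, ?_, ?_, h2, h3, ?_⟩
  · intro x
    rw [Finset.mem_filter, hE']
    constructor
    · rintro ⟨⟨-, h5⟩, h6⟩
      exact ⟨h6, h5⟩
    · rintro ⟨h5, h6⟩
      refine ⟨⟨hr t₀ ht₀ x h6 ?_, h6⟩, h5⟩
      rw [h5]
      linarith
  · intro x hx
    exact (ball_subset_ball (hη x).2).trans (hb1 x (Finset.mem_filter.1 hx).2)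
  · filter_upwards [h4, hD.mem_nhds ht₀] with t ht htD
    -- points near the window
    have hkey : ∀ x ∈ Θ ⁻¹' ball e ε₀, m t x ≠ 0 → ∃ x' ∈ E', Θ x' = e ∧ x ∈ ball x' (η x') := by
      intro x hx hm
      have hxr : ‖x‖ ≤ r := by
        apply hr t htD x hm
        have h5 : dist (Θ x) e < ε₀ := hx
        have h6 : ε₀ ≤ 1 := min_le_left _ _
        rw [dist_eq_norm] at h5
        have h7 : ‖Θ x‖ ≤ ‖e‖ + ‖Θ x - e‖ := by
          have := norm_add_le e (Θ x - e)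
          rwa [add_sub_cancel] at this
        linarith
      have h8 := ht ℕ (fun z => if z = x then 1 else 0) (by
        intro z hz
        rw [if_neg]
        rintro rfl
        exact absurd hxr (not_le.2 hz))
      have h9 : ∑ᶠ z, m t z • (if z = x then 1 else 0) = m t x := by
        rw [finsum_eq_single _ x]
        · simp
        · intro z hz
          rw [if_neg hz, smul_zero]
      rw [h9] at h8
      rw [h8] at hm
      obtain ⟨x', hx', hne⟩ := Finset.exists_ne_zero_of_sum_ne_zero hm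
      have hxb : x ∈ ball x' (η x') := by
        by_contra hcon
        apply hne
        apply finsum_mem_eq_zero_of_forall_eq_zero
        intro z hz
        rw [if_neg, smul_zero]
        rintro rfl
        exact hcon hz
      refine ⟨x', hx', ?_, hxb⟩
      by_contra hΘx
      obtain ⟨h10, h11⟩ := (hE' x').1 hx'
      exact hb2 x' hΘx x (ball_subset_ball (hη x').2 hxb) (hε₁' x' h10 h11 hΘx) hx
    refine ⟨?_, ?_⟩
    · intro x hx hm
      obtain ⟨x', -, h5, h6⟩ := hkey x hx hm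
      exact hb1 x' h5 (ball_subset_ball (hη x').2 h6)
    · intro V _ Φ
      have hεε : ball e ε ⊆ ball e ε₀ := ball_subset_ball hε.2
      have h5 := ht V (fun x => if Θ x ∈ ball e ε ∧ ‖x‖ ≤ r then Φ x else 0) (by
        intro z hz
        rw [if_neg]
        rintro ⟨-, h0⟩
        exact absurd h0 (not_le.2 hz))
      have h6 : ∑ᶠ x, m t x • (if Θ x ∈ ball e ε ∧ ‖x‖ ≤ r then Φ x else 0) =
          ∑ᶠ x ∈ Θ ⁻¹' ball e ε, m t x • Φ x := by
        rw [finsum_mem_def]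
        refine finsum_congr fun x => ?_
        by_cases hx : Θ x ∈ ball e ε
        · rw [indicator_of_mem (show x ∈ Θ ⁻¹' ball e ε from hx)]
          by_cases hm : m t x = 0
          · simp [hm]
          · rw [if_pos]
            refine ⟨hx, hr t htD x hm ?_⟩
            have h5 : dist (Θ x) e < ε₀ := hεε hx
            have h6 : ε₀ ≤ 1 := min_le_left _ _
            rw [dist_eq_norm] at h5
            have h7 : ‖Θ x‖ ≤ ‖e‖ + ‖Θ x - e‖ := by
              have := norm_add_le e (Θ x - e)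
              rwa [add_sub_cancel] at this
            linarith
        · rw [indicator_of_notMem (show x ∉ Θ ⁻¹' ball e ε from hx), if_neg (fun h0 => hx h0.1),
            smul_zero]
      rw [← h6, h5, Finset.sum_filter]
      refine Finset.sum_congr rfl fun x' hx' => ?_
      split_ifs with hΘx
      · -- the window lies inside
        refine finsum_mem_congr rfl fun z hz => ?_
        by_cases hm : m t z = 0
        · simp [hm]
        · have h7 := hb1 x' hΘx (ball_subset_ball (hη x').2 hz)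
          rw [if_pos]
          refine ⟨h7, hr t htD z hm ?_⟩
          have h5 : dist (Θ z) e < ε₀ := hεε h7
          have h6 : ε₀ ≤ 1 := min_le_left _ _
          rw [dist_eq_norm] at h5
          have h7 : ‖Θ z‖ ≤ ‖e‖ + ‖Θ z - e‖ := by
            have := norm_add_le e (Θ z - e)
            rwa [add_sub_cancel] at this
          linarith
      · apply finsum_mem_eq_zero_of_forall_eq_zero
        intro z hz
        rw [if_neg, smul_zero]
        rintro ⟨h7, -⟩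
        obtain ⟨h10, h11⟩ := (hE' x').1 hx'
        exact hb2 x' hΘx z (ball_subset_ball (hη x').2 hz) (hε₁' x' h10 h11 hΘx) (hεε h7)

theorem push_dv {D : Set ℂ} (hD : IsOpen D) {m : ℂ → ℂ → ℕ} (h : Dv D m)
    {Θ : ℂ → ℂ} (hΘ : Differentiable ℂ Θ) (hp : Prp D m Θ) : Dv D (push m Θ) where
  fin := by
    intro t ht r
    have h1 := fin_pre h.toDv0 hp ht (S := closedBall 0 r) isBounded_closedBall
    refine (h1.image Θ).subset ?_
    rintro y ⟨hy, hy'⟩
    obtain ⟨x, hx, hx'⟩ := (push_ne h.toDv0 hp ht).1 hy'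
    refine ⟨x, ⟨?_, hx'⟩, hx⟩
    rw [mem_preimage, hx]
    simpa using hy
  win := by
    intro t₀ ht₀ e
    obtain ⟨ε₀, hε₀, hwin⟩ := push_window hD h hΘ.continuous hp ht₀ e
    refine ⟨ε₀, hε₀, ?_⟩
    intro ε hε
    obtain ⟨E, η, hE, hEη, h1, h2, h3⟩ := hwin ε hε
    constructor
    · filter_upwards [h3, hD.mem_nhds ht₀] with t ht htD y hy hm
      obtain ⟨x, hx, hx'⟩ := (push_ne h.toDv0 hp htD).1 hm
      have := ht.1 x (by rw [mem_preimage, hx]; exact hy) hx'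
      rw [mem_preimage, hx] at this
      exact this
    · have h4 : ∀ᶠ t in 𝓝 t₀, ∀ x ∈ E, ∑ᶠ z ∈ ball x (η x), m t z = m t₀ x := by
        rw [Filter.eventually_all_finset]
        intro x _
        exact h1 x
      filter_upwards [h3, h4, hD.mem_nhds ht₀] with t ht ht4 htD
      rw [push_sum_nat h.toDv0 hp htD isBounded_ball]
      have h5 := ht.2 ℕ (fun _ => 1)
      simp only [smul_eq_mul, mul_one] at h5
      rw [h5, Finset.sum_congr rfl ht4]
      unfold push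
      symm
      apply finsum_mem_eq_sum_of_inter_support_eq
      ext x
      simp only [mem_inter_iff, mem_preimage, mem_singleton_iff, Function.mem_support,
        Finset.mem_coe, hE]
      tauto
  an := by
    intro t₀ ht₀ e
    obtain ⟨ε₀, hε₀, hwin⟩ := push_window hD h hΘ.continuous hp ht₀ e
    refine ⟨ε₀, hε₀, ?_⟩
    intro ε hε ψ hψ
    obtain ⟨E, η, hE, hEη, h1, h2, h3⟩ := hwin ε hε
    have h4 : AnalyticAt ℂ (fun t => ∑ x ∈ E, ∑ᶠ z ∈ ball x (η x), m t z • ψ (Θ z)) t₀ := by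
      refine Finset.analyticAt_fun_sum _ fun x hx => ?_
      refine h2 x (fun z => ψ (Θ z)) ?_
      intro z hz
      exact (hψ (Θ z) (hEη x hx hz)).comp (hΘ.analyticAt z)
    refine h4.congr ?_
    filter_upwards [h3, hD.mem_nhds ht₀] with t ht htD
    rw [push_sum h.toDv0 hp htD isBounded_ball, ht.2 ℂ (fun z => ψ (Θ z))]

/-- growth for generic parameters gives growth for all parameters -/
theorem gr_of_generic {D : Set ℂ} (hD : IsOpen D) {w : ℂ → ℂ → ℕ} (h : Dv0 D w) {B : Set ℂ}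
    (hB : B.Countable) {δ : ℝ} (hδ : 0 < δ) (hlow : ∀ t ∈ D, ∀ x, w t x ≠ 0 → δ ≤ ‖x‖) {C ρ : ℕ}
    (hcnt : ∀ t ∈ D, t ∉ B → ∀ n : ℕ, ∑ᶠ x ∈ closedBall 0 (n : ℝ), w t x ≤ C * (n + 1) ^ ρ) :
    Gr D w δ (C * 2 ^ ρ) ρ := by
  classical
  refine ⟨hδ, hlow, ?_⟩
  intro t ht n
  obtain ⟨E, ε, hE, hε, -, h2, hdisj, -⟩ := h.decomp hD ht (n : ℝ) (fun _ => 1)
    (fun _ => one_pos)
  have hev : ∀ᶠ s in 𝓝 t, ∀ e ∈ E, ∑ᶠ x ∈ ball e (ε e), w s x = w t e := by
    rw [Filter.eventually_all_finset]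
    intro e _
    exact h2 e
  obtain ⟨s, ⟨hs, hsU⟩, hsb⟩ := exists_generic hB (hev.and (hD.mem_nhds ht))
  have hg := hcnt s hsU hsb (n + 1)
  have hfin := h.finS ht (isBounded_closedBall (x := (0 : ℂ)) (r := (n : ℝ)))
  have hfins := h.finS hsU (isBounded_closedBall (x := (0 : ℂ)) (r := ((n + 1 : ℕ) : ℝ)))
  have hfine : ∀ e, {x | x ∈ ball e (ε e) ∧ w s x ≠ 0}.Finite := fun e =>
    h.finS hsU isBounded_ball
  have e1 : ∑ᶠ x ∈ closedBall 0 (n : ℝ), w t x = ∑ e ∈ E, w t e := by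
    rw [sm_eq_nat hfin]
    refine Finset.sum_congr ?_ fun _ _ => rfl
    ext x
    rw [Set.Finite.mem_toFinset, hE]
    simp
  have e2 : ∑ e ∈ E, w t e = ∑ x ∈ E.biUnion (fun e => (hfine e).toFinset), w s x := by
    rw [Finset.sum_biUnion]
    · refine Finset.sum_congr rfl fun e he => ?_
      rw [← hs e he, sm_eq_nat (hfine e)]
    · intro a ha b hb hab
      rw [Function.onFun, Finset.disjoint_left]
      intro x hx hx'
      rw [Set.Finite.mem_toFinset] at hx hx'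
      exact hab (hdisj a ha b hb x hx.1 hx'.1)
  rw [e1, e2]
  rw [sm_eq_nat hfins] at hg
  calc ∑ x ∈ E.biUnion (fun e => (hfine e).toFinset), w s x
      ≤ ∑ x ∈ hfins.toFinset, w s x := by
        apply Finset.sum_le_sum_of_subset
        intro x hx
        rw [Finset.mem_biUnion] at hx
        obtain ⟨e, he, hx⟩ := hx
        rw [Set.Finite.mem_toFinset] at hx ⊢
        refine ⟨?_, hx.2⟩
        have h3 := ((hE e).1 he).1
        have h4 := mem_ball_iff_norm.1 hx.1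
        have h5 := (hε e).2
        have h6 : ‖x‖ ≤ ‖e‖ + ‖x - e‖ := by
          have := norm_add_le e (x - e)
          rwa [add_sub_cancel] at this
        simp only [mem_closedBall, dist_zero_right]
        push_cast
        linarith
    _ ≤ C * (n + 1 + 1) ^ ρ := hg
    _ ≤ C * (2 * (n + 1)) ^ ρ := by
        gcongr
        omega
    _ = C * 2 ^ ρ * (n + 1) ^ ρ := by rw [mul_pow]; ring

/-- if the number of points is at most `n` for the parameters of a dense set, then it is at most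
`n` for all parameters -/
theorem card_le_of_dense {D : Set ℂ} (hD : IsOpen D) {w : ℂ → ℂ → ℕ} (h : Dv0 D w) {T : Set ℂ}
    (hT : Dense T) {n : ℕ} (hn : ∀ t ∈ D, t ∈ T → {x | w t x ≠ 0}.encard ≤ n) {t : ℂ}
    (ht : t ∈ D) : {x | w t x ≠ 0}.encard ≤ n := by
  classical
  by_contra hcon
  rw [not_le] at hcon
  have hcon' : ((n + 1 : ℕ) : ℕ∞) ≤ {x | w t x ≠ 0}.encard := by
    push_cast
    exact Order.add_one_le_of_lt hcon
  obtain ⟨S, hS, hSc⟩ := Set.exists_subset_encard_eq hcon'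
  have hSfin : S.Finite := by
    rw [← Set.encard_lt_top_iff, hSc]
    exact ENat.natCast_lt_top _
  obtain ⟨r, hr⟩ := (hSfin.isBounded).subset_closedBall (0 : ℂ)
  obtain ⟨E, ε, hE, hε, -, h2, hdisj, -⟩ := h.decomp hD ht r (fun _ => 1) (fun _ => one_pos)
  have hSE : ∀ x ∈ S, x ∈ E := fun x hx => (hE x).2 ⟨by simpa using hr hx, hS hx⟩
  have hev : ∀ᶠ s in 𝓝 t, ∀ e ∈ E, ∑ᶠ x ∈ ball e (ε e), w s x = w t e := by
    rw [Filter.eventually_all_finset]
    intro e _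
    exact h2 e
  obtain ⟨d, hd, hd'⟩ := Metric.eventually_nhds_iff_ball.1 (hev.and (hD.mem_nhds ht))
  obtain ⟨s, hsT, hsb⟩ := hT.exists_mem_open isOpen_ball
    (nonempty_ball.2 hd : (ball t d).Nonempty)
  obtain ⟨hs, hsD⟩ := hd' s hsb
  have hex : ∀ e ∈ S, ∃ x ∈ ball e (ε e), w s x ≠ 0 := by
    intro e he
    by_contra hcon2
    push Not at hcon2
    have h3 := hs e (hSE e he)
    rw [finsum_mem_eq_zero_of_forall_eq_zero hcon2] at h3
    exact ((hE e).1 (hSE e he)).2 h3.symm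
  choose! φ hφ hφ' using hex
  have hinj : InjOn φ S := by
    intro a ha b hb hab
    refine hdisj a (hSE a ha) b (hSE b hb) (φ a) (hφ a ha) ?_
    rw [hab]
    exact hφ b hb
  have h4 : (φ '' S).encard ≤ {x | w s x ≠ 0}.encard := by
    apply Set.encard_le_encard
    rintro _ ⟨e, he, rfl⟩
    exact hφ' e he
  rw [hinj.encard_image, hSc] at h4
  have h5 := h4.trans (hn s hsD hsT)
  have h6 : n + 1 ≤ n := by exact_mod_cast h5
  omega

/-- the number of points is generically constant, if there is a map to weights of polynomial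
growth which separates the points for a dense set of parameters -/
theorem count_generic_push {c : ℂ} {R : ℝ} {m : ℂ → ℂ → ℕ} (h : Dv (ball c R) m)
    {Θ : ℂ → ℂ} (hΘ : Differentiable ℂ Θ) (hp : Prp (ball c R) m Θ) {δ : ℝ} {C ρ : ℕ}
    (g : Gr (ball c R) (push m Θ) δ C ρ) {T : Set ℂ} (hT : Dense T)
    (hinj : ∀ t ∈ ball c R, t ∈ T → InjOn Θ {x | m t x ≠ 0}) (n : ℕ)
    (hunc : ¬ {t | t ∈ ball c R ∧ {x | m t x ≠ 0}.encard ≤ n}.Countable) :
    ∀ t ∈ ball c R, {x | m t x ≠ 0}.encard ≤ n := by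
  have hset : ∀ t ∈ ball c R, {y | push m Θ t y ≠ 0} = Θ '' {x | m t x ≠ 0} := by
    intro t ht
    ext y
    simp only [Set.mem_ofPred_eq, mem_image]
    rw [push_ne h.toDv0 hp ht]
    constructor
    · rintro ⟨x, h1, h2⟩
      exact ⟨x, h2, h1⟩
    · rintro ⟨x, h1, h2⟩
      exact ⟨x, h2, h1⟩
  have h1 := count_generic (push_dv isOpen_ball h hΘ hp) g n (by
    intro hc
    apply hunc
    refine hc.mono ?_
    rintro t ⟨ht, htn⟩
    refine ⟨ht, ?_⟩
    rw [hset t ht]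
    exact (Set.encard_image_le _ _).trans htn)
  intro t ht
  refine card_le_of_dense isOpen_ball h.toDv0 hT ?_ ht
  intro s hs hsT
  have h2 := h1 s hs
  rwa [hset s hs, (hinj s hs hsT).encard_image] at h2

end Pool.Agent.L5helper53.TL
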