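import Pool.Agent.L5helper53.TL.Push
import Pool.Agent.TH735.FO.Jen

/-!
The function `x (e^x + e^{-x} - 2)` and the number of zeros of a function of double exponential
growth in strips.
-/

set_option autoImplicit false

namespace Pool.Agent.L5helper53.TL

open Set Filter Topology Complex Metric Function
open Pool.Agent.TH735.FO

/-- the map to weights of polynomial growth -/
noncomputable def th (x : ℂ) : ℂ := x * (exp x + exp (-x) - 2)

theorem th_diff : Differentiable ℂ th := by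
  unfold th
  fun_prop

/-- the points `2 π i k` -/
noncomputable def pt (k : ℤ) : ℂ := 2 * Real.pi * I * k

theorem pt_re (k : ℤ) : (pt k).re = 0 := by
  simp [pt]

theorem pt_im (k : ℤ) : (pt k).im = 2 * Real.pi * k := by
  simp [pt]

theorem norm_pt (k : ℤ) : ‖pt k‖ = 2 * Real.pi * |(k : ℝ)| := by
  unfold pt
  rw [norm_mul, norm_mul, norm_mul, Complex.norm_I, Complex.norm_intCast]
  simp [abs_of_pos Real.pi_pos]

theorem norm_sq_eq (x : ℂ) : ‖exp x + exp (-x) - 2‖ =
    Real.exp x.re + Real.exp (-x.re) - 2 * Real.cos x.im := by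
  have h1 : exp x + exp (-x) - 2 = (exp (x / 2) - exp (-(x / 2))) ^ 2 := by
    have e1 : exp x = exp (x / 2) * exp (x / 2) := by rw [← exp_add]; ring_nf
    have e2 : exp (-x) = exp (-(x / 2)) * exp (-(x / 2)) := by rw [← exp_add]; ring_nf
    have e3 : exp (x / 2) * exp (-(x / 2)) = 1 := by rw [← exp_add]; simp
    linear_combination e1 + e2 + 2 * e3
  rw [h1, norm_pow, ← Complex.normSq_eq_norm_sq, Complex.normSq_apply]
  simp only [sub_re, sub_im, exp_re, exp_im, neg_re, neg_im, Real.cos_neg, Real.sin_neg]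
  have hre : (x / 2).re = x.re / 2 := by simp
  have him : (x / 2).im = x.im / 2 := by simp
  rw [hre, him]
  have e1 : Real.exp x.re = Real.exp (x.re / 2) * Real.exp (x.re / 2) := by
    rw [← Real.exp_add]; ring_nf
  have e2 : Real.exp (-x.re) = Real.exp (-(x.re / 2)) * Real.exp (-(x.re / 2)) := by
    rw [← Real.exp_add]; ring_nf
  have e3 : Real.exp (x.re / 2) * Real.exp (-(x.re / 2)) = 1 := by
    rw [← Real.exp_add]; simp
  have e4 : Real.cos x.im = 2 * Real.cos (x.im / 2) ^ 2 - 1 := by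
    rw [← Real.cos_two_mul]; ring_nf
  have e5 := Real.sin_sq_add_cos_sq (x.im / 2)
  rw [e1, e2, e4]
  generalize Real.exp (x.re / 2) = a at *
  generalize Real.exp (-(x.re / 2)) = b at *
  generalize Real.cos (x.im / 2) = c at *
  generalize Real.sin (x.im / 2) = s at *
  linear_combination (a ^ 2 + b ^ 2) * e5 + (-2 * (c ^ 2 - s ^ 2)) * e3 + 2 * e5 - 0 * e3

/-- the integer nearest to `im x / 2 π` -/
noncomputable def kk (x : ℂ) : ℤ := round (x.im / (2 * Real.pi))

theorem abs_kk (x : ℂ) : |x.im - 2 * Real.pi * kk x| ≤ Real.pi := by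
  have h := abs_sub_round (x.im / (2 * Real.pi))
  have hpi := Real.pi_pos
  have h1 : x.im - 2 * Real.pi * kk x = 2 * Real.pi * (x.im / (2 * Real.pi) - kk x) := by
    field_simp
  rw [h1, abs_mul, abs_of_pos (by positivity)]
  unfold kk
  calc 2 * Real.pi * |x.im / (2 * Real.pi) - round (x.im / (2 * Real.pi))|
      ≤ 2 * Real.pi * (1 / 2) := by gcongr
    _ = Real.pi := by ring

theorem norm_sub_kk (x : ℂ) : ‖x - pt (kk x)‖ ≤ |x.re| + Real.pi := by
  refine (Complex.norm_le_abs_re_add_abs_im _).trans ?_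
  rw [sub_re, sub_im, pt_re, pt_im, sub_zero]
  linarith [abs_kk x]

theorem norm_sq_lower {δ : ℝ} (hδ : 0 < δ) (hδ1 : δ ≤ 1) {x : ℂ} (hx : ∀ k : ℤ, δ ≤ ‖x - pt k‖) :
    δ ^ 2 / 10 * Real.exp |x.re| ≤ ‖exp x + exp (-x) - 2‖ := by
  rw [norm_sq_eq]
  have hpi := Real.pi_pos
  have hpi2 : Real.pi ^ 2 < 10 := by
    have := Real.pi_lt_d2
    nlinarith
  have habs : Real.exp x.re + Real.exp (-x.re) = Real.exp |x.re| + Real.exp (-|x.re|) := by
    rcases abs_cases x.re with ⟨h, -⟩ | ⟨h, -⟩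
    · rw [h]
    · rw [h, neg_neg]
      ring
  rw [habs]
  have hneg : 0 < Real.exp (-|x.re|) := Real.exp_pos _
  by_cases h4 : 4 ≤ Real.exp |x.re|
  · have h5 := Real.cos_le_one x.im
    have h6 : δ ^ 2 ≤ 1 := by nlinarith
    nlinarith
  · push Not at h4
    -- lower bound by the square of the distance
    set v := x.im - 2 * Real.pi * kk x with hv
    have hcos : Real.cos x.im = Real.cos v := by
      have : v = x.im - (kk x) * (2 * Real.pi) := by rw [hv]; ring
      rw [this, Real.cos_sub_int_mul_two_pi]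
    have h5 := Real.cos_le_one_sub_mul_cos_sq (abs_kk x)
    have h6 : x.re ^ 2 ≤ Real.exp |x.re| + Real.exp (-|x.re|) - 2 := by
      have h7 : |x.re| / 2 ≤ Real.sinh (|x.re| / 2) := Real.self_le_sinh_iff.2 (by positivity)
      have h8 : (|x.re| / 2) ^ 2 ≤ Real.sinh (|x.re| / 2) ^ 2 :=
        pow_le_pow_left₀ (by positivity) h7 2
      rw [Real.sinh_eq] at h8
      have e1 : Real.exp |x.re| = Real.exp (|x.re| / 2) * Real.exp (|x.re| / 2) := by
        rw [← Real.exp_add]; ring_nf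
      have e2 : Real.exp (-|x.re|) = Real.exp (-(|x.re| / 2)) * Real.exp (-(|x.re| / 2)) := by
        rw [← Real.exp_add]; ring_nf
      have e3 : Real.exp (|x.re| / 2) * Real.exp (-(|x.re| / 2)) = 1 := by
        rw [← Real.exp_add]; simp
      have e4 : x.re ^ 2 = 4 * (|x.re| / 2) ^ 2 := by
        rw [div_pow, sq_abs]; ring
      rw [e4, e1, e2]
      nlinarith
    have h9 : δ ^ 2 ≤ x.re ^ 2 + v ^ 2 := by
      have h10 := hx (kk x)
      have h11 : ‖x - pt (kk x)‖ ^ 2 = x.re ^ 2 + v ^ 2 := by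
        rw [← Complex.normSq_eq_norm_sq, Complex.normSq_apply, sub_re, sub_im, pt_re, pt_im,
          sub_zero]
        ring
      rw [← h11]
      exact pow_le_pow_left₀ hδ.le h10 2
    have h12 : 2 / 5 * v ^ 2 ≤ 2 * (2 / Real.pi ^ 2 * v ^ 2) := by
      have : (1 : ℝ) / 5 ≤ 2 / Real.pi ^ 2 := by
        rw [div_le_div_iff₀ (by norm_num) (by positivity)]
        linarith
      nlinarith [sq_nonneg v]
    rw [hcos]
    have h13 : δ ^ 2 / 10 * Real.exp |x.re| ≤ 2 / 5 * δ ^ 2 := by nlinarith [sq_nonneg δ]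
    nlinarith [sq_nonneg x.re, sq_nonneg v]

theorem th_lower {δ : ℝ} (hδ : 0 < δ) (hδ1 : δ ≤ 1) {x : ℂ} (hx : ∀ k : ℤ, δ ≤ ‖x - pt k‖) :
    δ ^ 2 / 10 * Real.exp |x.re| * ‖x‖ ≤ ‖th x‖ := by
  unfold th
  rw [norm_mul, mul_comm ‖x‖]
  exact mul_le_mul_of_nonneg_right (norm_sq_lower hδ hδ1 hx) (norm_nonneg _)

theorem pt_zero : pt 0 = 0 := by simp [pt]

theorem th_lower' {δ : ℝ} (hδ : 0 < δ) (hδ1 : δ ≤ 1) {x : ℂ} (hx : ∀ k : ℤ, δ ≤ ‖x - pt k‖) :
    δ ^ 3 / 10 ≤ ‖th x‖ := by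
  refine le_trans ?_ (th_lower hδ hδ1 hx)
  have h1 := hx 0
  rw [pt_zero, sub_zero] at h1
  have h2 : 1 ≤ Real.exp |x.re| := Real.one_le_exp (abs_nonneg _)
  calc δ ^ 3 / 10 = δ ^ 2 / 10 * 1 * δ := by ring
    _ ≤ δ ^ 2 / 10 * Real.exp |x.re| * ‖x‖ := by gcongr

theorem th_proper {δ : ℝ} (hδ : 0 < δ) (hδ1 : δ ≤ 1) {x : ℂ} (hx : ∀ k : ℤ, δ ≤ ‖x - pt k‖)
    {R : ℝ} (hR : ‖th x‖ ≤ R) : ‖x‖ ≤ R * (10 / δ ^ 2) := by
  have h1 := (th_lower hδ hδ1 hx).trans hR
  have h2 : 1 ≤ Real.exp |x.re| := Real.one_le_exp (abs_nonneg _)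
  have h3 : δ ^ 2 / 10 * ‖x‖ ≤ R := by
    refine le_trans ?_ h1
    have h4 : 0 ≤ δ ^ 2 / 10 * ‖x‖ := by positivity
    nlinarith
  have h5 : ‖x‖ = (δ ^ 2 / 10 * ‖x‖) * (10 / δ ^ 2) := by
    field_simp
  rw [h5]
  gcongr

/-- the number of zeros -/
theorem count_strip {g : ℂ → ℂ} (hg : Differentiable ℂ g) {A δ C₀ : ℝ} {ρ : ℕ} (hA : 0 ≤ A)
    (hC₀ : 0 ≤ C₀) (hδ : 0 < δ) (hδ1 : δ ≤ 1)
    (hup : ∀ x, ‖g x‖ ≤ Real.exp (A * (1 + ‖x‖) ^ ρ * Real.exp (ρ * |x.re|)))
    (hne : ∀ k : ℤ, ∀ x, ‖x - pt k‖ < δ → g x ≠ 0)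
    (hlow : ∀ k : ℤ, Real.exp (-(C₀ * (1 + |(k : ℝ)|) ^ ρ)) ≤ ‖g (pt k)‖)
    (n : ℕ) {F : Finset ℂ} (hF : ∀ x ∈ F, g x = 0 ∧ ‖th x‖ ≤ n) :
    (F.card : ℝ) ≤ 7 * (A * 42 ^ ρ * Real.exp (16 * ρ) + C₀ * 4 ^ ρ) *
      (10 / δ ^ 3) ^ (5 * ρ + 1) * ((n : ℝ) + 1) ^ (5 * ρ + 1) := by
  classical
  set M : ℝ := 10 / δ ^ 3 * ((n : ℝ) + 1) with hM
  have hδ3 : δ ^ 3 ≤ 1 := pow_le_one₀ hδ.le hδ1
  have hδ2 : δ ^ 2 ≤ 1 := pow_le_one₀ hδ.le hδ1
  have h10 : (10 : ℝ) ≤ 10 / δ ^ 3 := by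
    rw [le_div_iff₀ (by positivity)]
    nlinarith
  have hn0 : (0 : ℝ) ≤ n := Nat.cast_nonneg n
  have hM1 : 1 ≤ M := by
    rw [hM]
    nlinarith
  have hM0 : 0 < M := by linarith
  -- the zeros
  have hz : ∀ x ∈ F, ‖x‖ ≤ M ∧ |x.re| ≤ Real.log M := by
    intro x hx
    obtain ⟨h1, h2⟩ := hF x hx
    have hfar : ∀ k : ℤ, δ ≤ ‖x - pt k‖ := by
      intro k
      by_contra hlt
      exact hne k x (not_le.1 hlt) h1
    have h3 := (th_lower hδ hδ1 hfar).trans h2
    have h4 : 1 ≤ Real.exp |x.re| := Real.one_le_exp (abs_nonneg _)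
    have h5 : δ ≤ ‖x‖ := by
      have := hfar 0
      rwa [pt_zero, sub_zero] at this
    constructor
    · refine (th_proper hδ hδ1 hfar h2).trans ?_
      rw [hM]
      have h6 : 10 / δ ^ 2 ≤ 10 / δ ^ 3 := by
        apply div_le_div_of_nonneg_left (by norm_num) (by positivity)
        calc δ ^ 3 = δ ^ 2 * δ := by ring
          _ ≤ δ ^ 2 * 1 := by gcongr
          _ = δ ^ 2 := mul_one _
      calc (n : ℝ) * (10 / δ ^ 2) ≤ (n + 1) * (10 / δ ^ 3) := by gcongr; linarith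
        _ = 10 / δ ^ 3 * ((n : ℝ) + 1) := by ring
    · rw [Real.le_log_iff_exp_le hM0, hM]
      have h6 : δ ^ 3 / 10 * Real.exp |x.re| ≤ n := by
        refine le_trans ?_ h3
        calc δ ^ 3 / 10 * Real.exp |x.re| = δ ^ 2 / 10 * Real.exp |x.re| * δ := by ring
          _ ≤ δ ^ 2 / 10 * Real.exp |x.re| * ‖x‖ := by gcongr
      calc Real.exp |x.re| = 10 / δ ^ 3 * (δ ^ 3 / 10 * Real.exp |x.re|) := by field_simp
        _ ≤ 10 / δ ^ 3 * ((n : ℝ) + 1) := by gcongr; linarith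
  set r : ℝ := Real.log M + 4 with hr
  have hlog0 : 0 ≤ Real.log M := Real.log_nonneg hM1
  have hr0 : 0 < r := by linarith
  have hrM : r ≤ M + 4 := by
    have := Real.log_le_sub_one_of_pos hM0
    linarith
  have hexpr : Real.exp r = M * Real.exp 4 := by
    rw [hr, Real.exp_add, Real.exp_log hM0]
  set K : ℤ := ⌈M⌉ + 1 with hK
  have hKM : (K : ℝ) ≤ M + 2 := by
    rw [hK]
    push_cast
    have := Int.ceil_lt_add_one M
    linarith
  have hKM' : M + 1 ≤ (K : ℝ) := by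
    rw [hK]
    push_cast
    have := Int.le_ceil M
    linarith
  have hK0 : 0 ≤ K := by
    have : (0 : ℝ) ≤ K := by linarith
    exact_mod_cast this
  have hpi := Real.pi_pos
  have hpi3 := Real.pi_gt_three
  have hpi4 : Real.pi < 3.5 := by
    have := Real.pi_lt_d2
    linarith
  have hkk : ∀ x ∈ F, kk x ∈ Finset.Icc (-K) K := by
    intro x hx
    obtain ⟨h1, -⟩ := hz x hx
    have h2 := abs_kk x
    have h3 := Complex.abs_im_le_norm x
    have h4 : |2 * Real.pi * (kk x : ℝ)| ≤ M + Real.pi := by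
      have := abs_sub_abs_le_abs_sub (2 * Real.pi * (kk x : ℝ)) x.im
      rw [abs_sub_comm] at this
      linarith
    rw [abs_mul, abs_of_pos (by positivity : 0 < 2 * Real.pi)] at h4
    have h5 : |(kk x : ℝ)| ≤ M + 1 := by
      by_contra hcon
      push Not at hcon
      nlinarith
    have h6 : |(kk x : ℝ)| ≤ K := h5.trans hKM'
    rw [abs_le] at h6
    rw [Finset.mem_Icc]
    constructor
    · exact_mod_cast h6.1
    · exact_mod_cast h6.2
  -- the number of zeros in one disc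
  have hone : ∀ k ∈ Finset.Icc (-K) K, ((F.filter (fun x => kk x = k)).card : ℝ) ≤
      (A * 42 ^ ρ * Real.exp (16 * ρ) + C₀ * 4 ^ ρ) * M ^ (5 * ρ) := by
    intro k hk
    have hkK : |(k : ℝ)| ≤ K := by
      rw [Finset.mem_Icc] at hk
      rw [abs_le]
      constructor
      · exact_mod_cast hk.1
      · exact_mod_cast hk.2
    set F' := (F.filter (fun x => kk x = k)).image (fun x => x - pt k) with hF'
    have hcard : F'.card = (F.filter (fun x => kk x = k)).card :=
      Finset.card_image_of_injective _ (sub_left_injective)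
    rw [← hcard]
    have hdiff : Differentiable ℂ (fun z => g (z + pt k)) := by fun_prop
    have key := count_zeros (g := fun z => g (z + pt k)) hdiff (r := r)
      (A := A * (42 * M) ^ ρ * Real.exp (4 * ρ * r)) hr0 (by
        intro x hx
        refine (hup (x + pt k)).trans ?_
        apply Real.exp_le_exp.2
        have h1 : 1 + ‖x + pt k‖ ≤ 42 * M := by
          have h2 := norm_add_le x (pt k)
          rw [norm_pt] at h2
          have h3 : 2 * Real.pi * |(k : ℝ)| ≤ 7 * (M + 2) := by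
            have : |(k : ℝ)| ≤ M + 2 := hkK.trans hKM
            have h4 : 2 * Real.pi ≤ 7 := by linarith
            have h5 : 0 ≤ |(k : ℝ)| := abs_nonneg _
            nlinarith
          linarith
        have h2 : (x + pt k).re = x.re := by rw [add_re, pt_re, add_zero]
        rw [h2]
        have h3 : |x.re| ≤ 4 * r := (Complex.abs_re_le_norm x).trans hx
        have h4 : (ρ : ℝ) * |x.re| ≤ 4 * ρ * r := by
          have : (0 : ℝ) ≤ ρ := Nat.cast_nonneg ρ
          nlinarith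
        have h5 : 0 ≤ 1 + ‖x + pt k‖ := by positivity
        gcongr) (by
        show g (0 + pt k) ≠ 0
        rw [zero_add]
        exact hne k (pt k) (by rw [sub_self, norm_zero]; exact hδ)) (F := F') (by
        intro a ha
        rw [hF', Finset.mem_image] at ha
        obtain ⟨x, hx, rfl⟩ := ha
        rw [Finset.mem_filter] at hx
        constructor
        · show g (x - pt k + pt k) = 0
          rw [sub_add_cancel]
          exact (hF x hx.1).1
        · rw [← hx.2]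
          refine (norm_sub_kk x).trans ?_
          have := (hz x hx.1).2
          linarith)
    have hlogk : -(C₀ * (1 + |(k : ℝ)|) ^ ρ) ≤ Real.log ‖g (0 + pt k)‖ := by
      rw [zero_add]
      have hpos : 0 < ‖g (pt k)‖ := lt_of_lt_of_le (Real.exp_pos _) (hlow k)
      rw [Real.le_log_iff_exp_le hpos]
      exact hlow k
    have hexp : Real.exp (4 * ρ * r) = M ^ (4 * ρ) * Real.exp (16 * ρ) := by
      have h1 : Real.exp (4 * ρ * r) = Real.exp r ^ (4 * ρ) := by
        rw [← Real.exp_nat_mul]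
        push_cast
        ring_nf
      have h2 : Real.exp (16 * ρ) = Real.exp 4 ^ (4 * ρ) := by
        rw [← Real.exp_nat_mul]
        push_cast
        ring_nf
      rw [h1, hexpr, mul_pow, h2]
    have h6 : C₀ * (1 + |(k : ℝ)|) ^ ρ ≤ C₀ * 4 ^ ρ * M ^ (5 * ρ) := by
      have h7 : 1 + |(k : ℝ)| ≤ 4 * M := by
        have : |(k : ℝ)| ≤ M + 2 := hkK.trans hKM
        linarith
      have h8 : (1 + |(k : ℝ)|) ^ ρ ≤ (4 * M) ^ ρ := by gcongr
      have h9 : M ^ ρ ≤ M ^ (5 * ρ) := pow_le_pow_right₀ hM1 (by omega)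
      calc C₀ * (1 + |(k : ℝ)|) ^ ρ ≤ C₀ * (4 * M) ^ ρ := by gcongr
        _ = C₀ * 4 ^ ρ * M ^ ρ := by rw [mul_pow]; ring
        _ ≤ C₀ * 4 ^ ρ * M ^ (5 * ρ) := by gcongr
    have h7 : A * (42 * M) ^ ρ * Real.exp (4 * ρ * r) =
        A * 42 ^ ρ * Real.exp (16 * ρ) * M ^ (5 * ρ) := by
      rw [hexp, mul_pow, show 5 * ρ = ρ + 4 * ρ by ring, pow_add]
      ring
    calc (F'.card : ℝ) ≤ A * (42 * M) ^ ρ * Real.exp (4 * ρ * r) - Real.log ‖g (0 + pt k)‖ := key
      _ ≤ A * 42 ^ ρ * Real.exp (16 * ρ) * M ^ (5 * ρ) + C₀ * 4 ^ ρ * M ^ (5 * ρ) := by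
          rw [h7]
          linarith
      _ = (A * 42 ^ ρ * Real.exp (16 * ρ) + C₀ * 4 ^ ρ) * M ^ (5 * ρ) := by ring
  have hsum : F.card = ∑ k ∈ Finset.Icc (-K) K, (F.filter (fun x => kk x = k)).card :=
    Finset.card_eq_sum_card_fiberwise hkk
  have hQ : 0 ≤ A * 42 ^ ρ * Real.exp (16 * ρ) + C₀ * 4 ^ ρ := by positivity
  calc (F.card : ℝ) = ∑ k ∈ Finset.Icc (-K) K, ((F.filter (fun x => kk x = k)).card : ℝ) := by
        rw [hsum]
        push_cast
        rfl
    _ ≤ ∑ k ∈ Finset.Icc (-K) K, (A * 42 ^ ρ * Real.exp (16 * ρ) + C₀ * 4 ^ ρ) * M ^ (5 * ρ) :=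
        Finset.sum_le_sum hone
    _ = (2 * K + 1) * ((A * 42 ^ ρ * Real.exp (16 * ρ) + C₀ * 4 ^ ρ) * M ^ (5 * ρ)) := by
        rw [Finset.sum_const, Int.card_Icc, nsmul_eq_mul]
        congr 1
        have : ((K + 1 - -K).toNat : ℤ) = 2 * K + 1 := by
          rw [Int.toNat_of_nonneg (by omega)]
          ring
        exact_mod_cast this
    _ ≤ (7 * M) * ((A * 42 ^ ρ * Real.exp (16 * ρ) + C₀ * 4 ^ ρ) * M ^ (5 * ρ)) := by
        apply mul_le_mul_of_nonneg_right _ (by positivity)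
        linarith
    _ = 7 * (A * 42 ^ ρ * Real.exp (16 * ρ) + C₀ * 4 ^ ρ) * M ^ (5 * ρ + 1) := by
        rw [pow_succ]
        ring
    _ = 7 * (A * 42 ^ ρ * Real.exp (16 * ρ) + C₀ * 4 ^ ρ) *
      (10 / δ ^ 3) ^ (5 * ρ + 1) * ((n : ℝ) + 1) ^ (5 * ρ + 1) := by
        rw [hM, mul_pow]
        ring

/-- the map separates points, after a generic translation -/
theorem th_sep {a b : ℂ} (hab : a ≠ b) : {x₀ : ℂ | th (a - x₀) = th (b - x₀)}.Countable := by
  have hd : Differentiable ℂ fun x₀ => th (a - x₀) - th (b - x₀) := by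
    unfold th
    fun_prop
  have hne : ∃ x₀, th (a - x₀) - th (b - x₀) ≠ 0 := by
    by_contra hcon
    push Not at hcon
    set c := b - a with hc
    have hc0 : c ≠ 0 := sub_ne_zero.2 hab.symm
    have h1 : ∀ z, th (z + c) = th z := by
      intro z
      have := hcon (a - z)
      rw [sub_eq_zero] at this
      rw [sub_sub_cancel] at this
      rw [this]
      congr 1
      rw [hc]
      ring
    have h0 : th c = 0 := by
      have := h1 0
      rw [zero_add] at this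
      rw [this]
      simp [th]
    have hg : exp c + exp (-c) - 2 = 0 := by
      unfold th at h0
      rcases mul_eq_zero.1 h0 with h2 | h2
      · exact absurd h2 hc0
      · exact h2
    have hexp : exp c = 1 := by
      have e3 : exp c * exp (-c) = 1 := by rw [← exp_add]; simp
      have h2 : (exp c - 1) ^ 2 = 0 := by
        linear_combination exp c * hg - e3
      have h3 := pow_eq_zero_iff (two_ne_zero) |>.1 h2
      linear_combination h3
    have hexp' : exp (-c) = 1 := by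
      rw [exp_neg, hexp, inv_one]
    have h2 := h1 1
    unfold th at h2
    rw [neg_add, exp_add, exp_add, hexp, hexp'] at h2
    have h3 : c * (exp 1 + exp (-1) - 2) = 0 := by linear_combination h2
    rcases mul_eq_zero.1 h3 with h4 | h4
    · exact hc0 h4
    · have h5 := norm_sq_eq 1
      rw [h4, norm_zero] at h5
      simp only [one_re, one_im, Real.cos_zero] at h5
      have h6 := Real.add_one_lt_exp (x := 1) one_ne_zero
      have h7 := Real.exp_pos (-1)
      linarith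
  have := Pool.Agent.TH735.QM.zeros_countable hd hne
  refine this.mono ?_
  intro x₀ hx
  show _ - _ = 0
  rw [show th (a - x₀) = th (b - x₀) from hx, sub_self]

end Pool.Agent.L5helper53.TL
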