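import Pool.Agent.L5helper53.TL.Dom

/-!
Exponential polynomials with integer frequencies along the progressions `x + 2 π i k`.
-/

set_option autoImplicit false

namespace Pool.Agent.L5helper53.TL

open Set Filter Topology Complex Metric

/-- polynomials in `y`, `e^y` and `e^{-y}` -/
def IntExpPoly (Q : ℂ → ℂ) : Prop :=
  ∃ (d : ℕ) (b : ℕ → ℤ → ℂ), ∀ y, Q y =
    ∑ l ∈ Finset.range d, ∑ n ∈ Finset.Icc (-(d : ℤ)) d, b l n * y ^ l * exp (n * y)

/-- along `x + 2 π i m`, the function is a polynomial in `m` -/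
def Rep (G : ℂ → ℂ) : Prop :=
  ∃ (L : ℕ) (a : ℕ → ℂ → ℂ), (∀ r, Differentiable ℂ (a r)) ∧
    ∀ (x : ℂ) (m : ℤ), G (x + pt m) = ∑ r ∈ Finset.range L, (m : ℂ) ^ r * a r x

theorem Rep.zero : Rep fun _ => 0 :=
  ⟨0, fun _ _ => 0, fun _ => by fun_prop, fun _ _ => by simp⟩

theorem Rep.ext_range {G : ℂ → ℂ} (h : Rep G) : ∃ (L : ℕ) (a : ℕ → ℂ → ℂ),
    (∀ r, Differentiable ℂ (a r)) ∧ ∀ L' ≥ L, ∀ (x : ℂ) (m : ℤ),
      G (x + pt m) = ∑ r ∈ Finset.range L', (m : ℂ) ^ r * a r x := by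
  obtain ⟨L, a, ha, h⟩ := h
  refine ⟨L, fun r x => if r < L then a r x else 0, ?_, ?_⟩
  · intro r
    by_cases hr : r < L
    · simpa [hr] using ha r
    · simp [hr]
  · intro L' hL' x m
    rw [h]
    have h1 : Finset.range L ⊆ Finset.range L' := Finset.range_subset_range.2 hL'
    rw [← Finset.sum_subset h1]
    · refine Finset.sum_congr rfl fun r hr => ?_
      beta_reduce
      rw [if_pos (Finset.mem_range.1 hr)]
    · intro r _ hr
      beta_reduce
      rw [if_neg (fun h => hr (Finset.mem_range.2 h)), mul_zero]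

theorem Rep.add {G G' : ℂ → ℂ} (h : Rep G) (h' : Rep G') : Rep fun x => G x + G' x := by
  obtain ⟨L, a, ha, h⟩ := h.ext_range
  obtain ⟨L', a', ha', h'⟩ := h'.ext_range
  refine ⟨max L L', fun r x => a r x + a' r x, fun r => (ha r).add (ha' r), ?_⟩
  intro x m
  beta_reduce
  rw [h _ (le_max_left _ _), h' _ (le_max_right _ _), ← Finset.sum_add_distrib]
  refine Finset.sum_congr rfl fun r _ => by ring

theorem Rep.const_mul {G : ℂ → ℂ} (h : Rep G) (c : ℂ) : Rep fun x => c * G x := by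
  obtain ⟨L, a, ha, h⟩ := h
  refine ⟨L, fun r x => c * a r x, fun r => (ha r).const_mul c, ?_⟩
  intro x m
  beta_reduce
  rw [h, Finset.mul_sum]
  refine Finset.sum_congr rfl fun r _ => by ring

theorem Rep.sub {G G' : ℂ → ℂ} (h : Rep G) (h' : Rep G') : Rep fun x => G x - G' x := by
  have := h.add (h'.const_mul (-1))
  refine (iff_of_eq (congrArg Rep ?_)).1 this
  funext x
  ring

theorem Rep.sum {ι : Type*} (s : Finset ι) {G : ι → ℂ → ℂ} (h : ∀ i ∈ s, Rep (G i)) :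
    Rep fun x => ∑ i ∈ s, G i x := by
  classical
  induction s using Finset.induction_on with
  | empty => simpa using Rep.zero
  | insert a s ha ih =>
    have := (h a (Finset.mem_insert_self a s)).add (ih fun i hi => h i (Finset.mem_insert_of_mem hi))
    simpa [Finset.sum_insert ha] using this

theorem Rep.mono (l : ℕ) (n : ℤ) : Rep fun y => y ^ l * exp (n * y) := by
  refine ⟨l + 1, fun r x => (2 * Real.pi * I) ^ r * x ^ (l - r) * (l.choose r) * exp (n * x), ?_, ?_⟩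
  · intro r
    fun_prop
  · intro x m
    have h1 : exp (n * (x + pt m)) = exp (n * x) := by
      have : (n : ℂ) * (x + pt m) = n * x + pt (n * m) := by
        unfold pt
        push_cast
        ring
      rw [this, exp_add_pt]
    beta_reduce
    rw [h1, add_comm x, add_pow, Finset.sum_mul]
    refine Finset.sum_congr rfl fun r _ => ?_
    unfold pt
    rw [mul_pow (2 * Real.pi * I) (m : ℂ)]
    ring

theorem IntExpPoly.rep {Q : ℂ → ℂ} (h : IntExpPoly Q) : Rep Q := by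
  obtain ⟨d, b, h⟩ := h
  have h1 : Rep fun y => ∑ l ∈ Finset.range d, ∑ n ∈ Finset.Icc (-(d : ℤ)) d,
      b l n * (y ^ l * exp (n * y)) :=
    Rep.sum _ fun l _ => Rep.sum _ fun n _ => (Rep.mono l n).const_mul _
  refine (iff_of_eq (congrArg Rep ?_)).1 h1
  funext y
  rw [h]
  simp only [mul_assoc]

theorem IntExpPoly.diff {Q : ℂ → ℂ} (h : IntExpPoly Q) : Differentiable ℂ Q := by
  obtain ⟨d, b, h⟩ := h
  have : Q = fun y => ∑ l ∈ Finset.range d, ∑ n ∈ Finset.Icc (-(d : ℤ)) d,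
    b l n * y ^ l * exp (n * y) := funext h
  rw [this]
  fun_prop

/-- the real part of an entire function vanishes identically or is different from zero on a dense
set -/
theorem re_dense {a : ℂ → ℂ} (ha : Differentiable ℂ a) (h : ∃ x, (a x).re ≠ 0) :
    Dense {x | (a x).re ≠ 0} := by
  obtain ⟨x₁, hx₁⟩ := h
  rcases AnalyticOnNhd.is_constant_or_isOpenMap (g := a) (fun z _ => ha.analyticAt z) with h1 | h1
  · obtain ⟨w, hw⟩ := h1
    have : {x | (a x).re ≠ 0} = univ := by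
      ext x
      simp only [Set.mem_ofPred_eq, mem_univ, iff_true]
      rw [hw x, ← hw x₁]
      exact hx₁
    rw [this]
    exact dense_univ
  · rw [dense_iff_inter_open]
    rintro V hV ⟨v, hv⟩
    by_contra hcon
    have h2 : ∀ x ∈ V, (a x).re = 0 := by
      intro x hx
      by_contra hne
      exact hcon ⟨x, hx, hne⟩
    have h3 := h1 V hV
    obtain ⟨ε, hε, hε'⟩ := Metric.isOpen_iff.1 h3 (a v) ⟨v, hv, rfl⟩
    have h4 : a v + (ε / 2 : ℝ) ∈ ball (a v) ε := by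
      rw [mem_ball_iff_norm, add_sub_cancel_left, Complex.norm_real, Real.norm_eq_abs,
        abs_of_pos (by positivity)]
      linarith
    obtain ⟨x, hx, hx'⟩ := hε' h4
    have h5 := h2 x hx
    rw [hx', add_re, h2 v hv, ofReal_re, zero_add] at h5
    linarith

theorem re_cast_mul (m : ℤ) (r : ℕ) (z : ℂ) : ((m : ℂ) ^ r * z).re = (m : ℝ) ^ r * z.re := by
  have : (m : ℂ) ^ r = (((m : ℝ) ^ r : ℝ) : ℂ) := by push_cast; rfl
  rw [this, re_ofReal_mul]

/-- trichotomy -/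
theorem tri {G : ℂ → ℂ} (hG : Rep G) {σ : ℤ} (hσ : σ = 1 ∨ σ = -1) :
    (∀ (x : ℂ) (m : ℤ), (G (x + pt m)).re = (G x).re) ∨
    ∃ O : Set ℂ, IsOpen O ∧ Dense O ∧ ∀ x₀ ∈ O, ∃ τ : ℝ, (τ = 1 ∨ τ = -1) ∧ ∃ a > (0 : ℝ),
      ∀ᶠ p : ℂ × ℕ in 𝓝 x₀ ×ˢ atTop, a * p.2 ≤ τ * (G (p.1 + pt (σ * p.2))).re := by
  classical
  obtain ⟨L, a, ha, h⟩ := hG
  have hre : ∀ (x : ℂ) (m : ℤ), (G (x + pt m)).re =
      ∑ r ∈ Finset.range L, (m : ℝ) ^ r * (a r x).re := by
    intro x m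
    rw [h, Complex.re_sum]
    refine Finset.sum_congr rfl fun r _ => re_cast_mul m r _
  set S := (Finset.range L).filter (fun r => 1 ≤ r ∧ ∃ x, (a r x).re ≠ 0) with hS
  by_cases hne : S.Nonempty
  · right
    set R := S.max' hne with hR
    have hRS : R ∈ S := Finset.max'_mem S hne
    rw [hS, Finset.mem_filter] at hRS
    obtain ⟨hRL, hR1, hRne⟩ := hRS
    refine ⟨{x | (a R x).re ≠ 0}, ?_, re_dense (ha R) hRne, ?_⟩
    · exact isOpen_ne_fun (Complex.continuous_re.comp (ha R).continuous) continuous_const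
    · intro x₀ hx₀
      set A : ℝ := (a R x₀).re with hA
      have hA0 : 0 < |A| := abs_pos.2 hx₀
      obtain ⟨τ, hτ, hτA⟩ : ∃ τ : ℝ, (τ = 1 ∨ τ = -1) ∧ τ * (σ : ℝ) ^ R * A = |A| := by
        have hσR : (σ : ℝ) ^ R = 1 ∨ (σ : ℝ) ^ R = -1 := by
          rcases hσ with h | h
          · left; rw [h]; simp
          · rw [h]; push_cast; exact neg_one_pow_eq_or ℝ R
        rcases hσR with h1 | h1 <;> rcases abs_cases A with ⟨h2, -⟩ | ⟨h2, -⟩ <;> rw [h1, h2]
        · exact ⟨1, Or.inl rfl, by ring⟩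
        · exact ⟨-1, Or.inr rfl, by ring⟩
        · exact ⟨-1, Or.inr rfl, by ring⟩
        · exact ⟨1, Or.inl rfl, by ring⟩
      set M : ℝ := ∑ r ∈ Finset.range L, |(a r x₀).re| + 1 with hM
      have hM0 : 0 < M := by
        have : 0 ≤ ∑ r ∈ Finset.range L, |(a r x₀).re| := Finset.sum_nonneg fun _ _ => abs_nonneg _
        linarith
      refine ⟨τ, hτ, |A| / 4, by positivity, ?_⟩
      have hcr : ∀ r, ContinuousAt (fun x => (a r x).re) x₀ := fun r =>
        (Complex.continuous_re.comp (ha r).continuous).continuousAt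
      have e1 : ∀ᶠ x in 𝓝 x₀, ∀ r ∈ Finset.range L, |(a r x).re| ≤ M := by
        rw [Filter.eventually_all_finset]
        intro r hr
        have h1 : |(a r x₀).re| < M := by
          have : |(a r x₀).re| ≤ ∑ r ∈ Finset.range L, |(a r x₀).re| :=
            Finset.single_le_sum (f := fun r => |(a r x₀).re|) (fun _ _ => abs_nonneg _) hr
          linarith
        filter_upwards [(hcr r).abs.eventually (gt_mem_nhds h1)] with x hx
        exact le_of_lt hx
      have e2 : ∀ᶠ x in 𝓝 x₀, |(a R x).re - A| < |A| / 2 := by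
        have h1 : ContinuousAt (fun x => |(a R x).re - A|) x₀ := ((hcr R).sub continuousAt_const).abs
        have h2 : |(a R x₀).re - A| < |A| / 2 := by
          rw [hA, sub_self, abs_zero]
          positivity
        exact h1.eventually (gt_mem_nhds h2)
      have e3 : ∀ᶠ k : ℕ in atTop, 1 ≤ k ∧ 4 * L * M / |A| ≤ (k : ℝ) :=
        (eventually_ge_atTop 1).and (tendsto_natCast_atTop_atTop.eventually_ge_atTop _)
      filter_upwards [(e1.and e2).prod_mk e3] with p hp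
      obtain ⟨⟨h1, h2⟩, h3, h4⟩ := hp
      obtain ⟨x, k⟩ := p
      simp only at h1 h2 h3 h4 ⊢
      have hk1 : (1 : ℝ) ≤ k := by exact_mod_cast h3
      rw [hre, ← Finset.add_sum_erase _ _ hRL]
      push_cast
      have hτabs : |τ| = 1 := by rcases hτ with h | h <;> rw [h] <;> simp
      have hσabs : |(σ : ℝ)| = 1 := by rcases hσ with h | h <;> rw [h] <;> simp
      have hsum : |∑ r ∈ (Finset.range L).erase R, ((σ : ℝ) * k) ^ r * (a r x).re| ≤
          L * M * (k : ℝ) ^ (R - 1) := by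
        calc |∑ r ∈ (Finset.range L).erase R, ((σ : ℝ) * k) ^ r * (a r x).re|
            ≤ ∑ r ∈ (Finset.range L).erase R, |((σ : ℝ) * k) ^ r * (a r x).re| :=
              Finset.abs_sum_le_sum_abs _ _
          _ ≤ ∑ r ∈ (Finset.range L).erase R, M * (k : ℝ) ^ (R - 1) := by
              refine Finset.sum_le_sum fun r hr => ?_
              obtain ⟨hrR, hrL⟩ := Finset.mem_erase.1 hr
              rw [abs_mul, abs_pow, abs_mul, hσabs, one_mul, Nat.abs_cast, mul_comm]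
              rcases lt_or_gt_of_ne hrR with hlt | hgt
              · have h5 : (k : ℝ) ^ r ≤ (k : ℝ) ^ (R - 1) := pow_le_pow_right₀ hk1 (by omega)
                have h6 := h1 r hrL
                gcongr
              · have h5 : (a r x).re = 0 := by
                  by_contra hcon
                  have h6 : r ∈ S := by
                    rw [hS, Finset.mem_filter]
                    exact ⟨hrL, by omega, x, hcon⟩
                  have := Finset.le_max' S r h6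
                  omega
                rw [h5, abs_zero, zero_mul]
                positivity
          _ ≤ ∑ r ∈ Finset.range L, M * (k : ℝ) ^ (R - 1) :=
              Finset.sum_le_sum_of_subset_of_nonneg (Finset.erase_subset _ _)
                (fun _ _ _ => by positivity)
          _ = L * M * (k : ℝ) ^ (R - 1) := by
              rw [Finset.sum_const, Finset.card_range, nsmul_eq_mul]
              ring
      have hpow : (k : ℝ) ^ R = k * (k : ℝ) ^ (R - 1) := by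
        rw [← pow_succ']
        congr 1
        omega
      have hmain : |A| / 2 * (k : ℝ) ^ R ≤ τ * (((σ : ℝ) * k) ^ R * (a R x).re) := by
        have h5 : τ * (((σ : ℝ) * k) ^ R * (a R x).re) =
            (τ * (σ : ℝ) ^ R * A + τ * (σ : ℝ) ^ R * ((a R x).re - A)) * (k : ℝ) ^ R := by
          rw [mul_pow]
          ring
        rw [h5, hτA]
        have h6 : |τ * (σ : ℝ) ^ R * ((a R x).re - A)| < |A| / 2 := by
          rw [abs_mul, abs_mul, abs_pow, hτabs, hσabs, one_pow, one_mul, one_mul]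
          exact h2
        have h7 := (abs_lt.1 h6).1
        have h8 : 0 ≤ (k : ℝ) ^ R := by positivity
        nlinarith
      have hrest : -(L * M * (k : ℝ) ^ (R - 1)) ≤
          τ * ∑ r ∈ (Finset.range L).erase R, ((σ : ℝ) * k) ^ r * (a r x).re := by
        have h5 : |τ * ∑ r ∈ (Finset.range L).erase R, ((σ : ℝ) * k) ^ r * (a r x).re| ≤
            L * M * (k : ℝ) ^ (R - 1) := by
          rw [abs_mul, hτabs, one_mul]
          exact hsum
        exact (abs_le.1 h5).1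
      have h9 : (1 : ℝ) ≤ (k : ℝ) ^ (R - 1) := one_le_pow₀ hk1
      have h10 : L * M ≤ |A| / 4 * k := by
        rw [div_le_iff₀ hA0] at h4
        linarith
      have h11 : L * M * (k : ℝ) ^ (R - 1) ≤ |A| / 4 * k * (k : ℝ) ^ (R - 1) := by gcongr
      have h12 : |A| / 4 * (k : ℝ) ≤ |A| / 4 * k * (k : ℝ) ^ (R - 1) := by
        have : 0 ≤ |A| / 4 * (k : ℝ) := by positivity
        nlinarith
      rw [mul_add]
      rw [hpow] at hmain
      linarith
  · left
    intro x m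
    have h0 : G x = G (x + pt 0) := by rw [pt_zero, add_zero]
    rw [h0, hre, hre]
    refine Finset.sum_congr rfl fun r hr => ?_
    rcases Nat.eq_zero_or_pos r with rfl | hpos
    · simp
    · have : (a r x).re = 0 := by
        by_contra hcon
        apply hne
        refine ⟨r, ?_⟩
        rw [hS, Finset.mem_filter]
        exact ⟨hr, hpos, x, hcon⟩
      rw [this, mul_zero, mul_zero]

/-- the points of the progression are large -/
theorem large (σ : ℤ) (hσ : σ = 1 ∨ σ = -1) (x₀ : ℂ) (T : ℝ) :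
    ∀ᶠ p : ℂ × ℕ in 𝓝 x₀ ×ˢ atTop, T ≤ ‖p.1 + pt (σ * p.2)‖ ∧
      ‖p.1 + pt (σ * p.2)‖ ≤ ‖x₀‖ + 1 + 7 * p.2 := by
  have e1 : ∀ᶠ x in 𝓝 x₀, ‖x‖ ≤ ‖x₀‖ + 1 := by
    filter_upwards [ball_mem_nhds x₀ one_pos] with x hx
    rw [mem_ball_iff_norm] at hx
    have := norm_add_le x₀ (x - x₀)
    rw [add_sub_cancel] at this
    linarith
  have e2 : ∀ᶠ k : ℕ in atTop, T + ‖x₀‖ + 1 ≤ (k : ℝ) :=
    tendsto_natCast_atTop_atTop.eventually_ge_atTop _
  filter_upwards [e1.prod_mk e2] with p hp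
  obtain ⟨h1, h2⟩ := hp
  obtain ⟨x, k⟩ := p
  simp only at h1 h2 ⊢
  have hσabs : |(σ : ℝ)| = 1 := by rcases hσ with h | h <;> rw [h] <;> simp
  have h3 : ‖pt (σ * k)‖ = 2 * Real.pi * k := by
    rw [norm_pt]
    push_cast
    rw [abs_mul, hσabs, one_mul, Nat.abs_cast]
  have hk0 : (0 : ℝ) ≤ k := Nat.cast_nonneg k
  have hpi := Real.pi_gt_three
  have hpi' : Real.pi < 3.5 := by
    have := Real.pi_lt_d2
    linarith
  constructor
  · have h4 := norm_sub_le (x + pt (σ * k)) x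
    rw [add_sub_cancel_left, h3] at h4
    nlinarith
  · have h4 := norm_add_le x (pt (σ * k))
    rw [h3] at h4
    nlinarith

/-- the summands -/
noncomputable def EE (e : ℕ) (Q : ℂ → ℂ) (y : ℂ) : ℂ := y ^ e * exp (Q y)

theorem norm_EE (e : ℕ) (Q : ℂ → ℂ) (y : ℂ) : ‖EE e Q y‖ = ‖y‖ ^ e * Real.exp (Q y).re := by
  unfold EE
  rw [norm_mul, norm_pow, Complex.norm_exp]

theorem decay (c a : ℝ) (ha : 0 < a) (e : ℕ) {η : ℝ} (hη : 0 < η) :
    ∀ᶠ k : ℕ in atTop, (c + 7 * (k : ℝ)) ^ e * Real.exp (-(a * k)) ≤ η := by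
  have h1 : Tendsto (fun k : ℕ => a / 7 * (c + 7 * (k : ℝ))) atTop atTop := by
    apply Tendsto.const_mul_atTop (by positivity)
    apply tendsto_atTop_add_const_left
    exact tendsto_natCast_atTop_atTop.const_mul_atTop (by norm_num)
  have h2 := (Real.tendsto_pow_mul_exp_neg_atTop_nhds_zero e).comp h1
  have h3 : Tendsto (fun k : ℕ => (c + 7 * (k : ℝ)) ^ e * Real.exp (-(a * k))) atTop (𝓝 0) := by
    have h4 := h2.const_mul ((7 / a) ^ e * Real.exp (a / 7 * c))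
    rw [mul_zero] at h4
    refine h4.congr fun k => ?_
    simp only [Function.comp]
    have h5 : -(a / 7 * (c + 7 * (k : ℝ))) = -(a / 7 * c) + -(a * k) := by ring
    rw [h5, Real.exp_add, mul_pow]
    have h6 : Real.exp (a / 7 * c) * Real.exp (-(a / 7 * c)) = 1 := by
      rw [← Real.exp_add]; simp
    have h7 : (7 / a) ^ e * (a / 7) ^ e = 1 := by
      rw [← mul_pow]
      have : 7 / a * (a / 7) = 1 := by field_simp
      rw [this, one_pow]
    calc (7 / a) ^ e * Real.exp (a / 7 * c) * ((a / 7) ^ e * (c + 7 * (k : ℝ)) ^ e *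
        (Real.exp (-(a / 7 * c)) * Real.exp (-(a * k)))) =
        ((7 / a) ^ e * (a / 7) ^ e) * (Real.exp (a / 7 * c) * Real.exp (-(a / 7 * c))) *
          ((c + 7 * (k : ℝ)) ^ e * Real.exp (-(a * k))) := by ring
      _ = (c + 7 * (k : ℝ)) ^ e * Real.exp (-(a * k)) := by rw [h6, h7]; ring
  filter_upwards [h3.eventually (gt_mem_nhds hη)] with k hk
  exact le_of_lt hk

theorem Ll_of_decay {Q₁ Q₂ : ℂ → ℂ} {e₁ e₂ : ℕ} {σ : ℤ} (hσ : σ = 1 ∨ σ = -1) {x₀ : ℂ} {a : ℝ}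
    (ha : 0 < a) (h : ∀ᶠ p : ℂ × ℕ in 𝓝 x₀ ×ˢ atTop,
      a * p.2 ≤ (Q₂ (p.1 + pt (σ * p.2)) - Q₁ (p.1 + pt (σ * p.2))).re) :
    Ll σ (EE e₁ Q₁) (EE e₂ Q₂) x₀ := by
  intro η hη
  have e1 : ∀ᶠ p : ℂ × ℕ in 𝓝 x₀ ×ˢ atTop,
      (‖x₀‖ + 1 + 7 * (p.2 : ℝ)) ^ e₁ * Real.exp (-(a * p.2)) ≤ η :=
    (tendsto_snd (f := 𝓝 x₀) (g := (atTop : Filter ℕ))).eventually (decay _ a ha e₁ hη)
  filter_upwards [h, e1, large σ hσ x₀ 1] with p h1 h2 h3
  obtain ⟨h3, h4⟩ := h3
  set z := p.1 + pt (σ * p.2) with hz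
  rw [norm_EE, norm_EE]
  rw [sub_re] at h1
  calc ‖z‖ ^ e₁ * Real.exp (Q₁ z).re
      ≤ (‖x₀‖ + 1 + 7 * (p.2 : ℝ)) ^ e₁ * Real.exp ((Q₂ z).re + -(a * p.2)) := by
        gcongr
        linarith
    _ = ((‖x₀‖ + 1 + 7 * (p.2 : ℝ)) ^ e₁ * Real.exp (-(a * p.2))) * Real.exp (Q₂ z).re := by
        rw [Real.exp_add]
        ring
    _ ≤ η * (1 * Real.exp (Q₂ z).re) := by
        rw [one_mul]
        gcongr
    _ ≤ η * (‖z‖ ^ e₂ * Real.exp (Q₂ z).re) := by
        have : (1 : ℝ) ≤ ‖z‖ ^ e₂ := one_le_pow₀ h3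
        gcongr

theorem Ll_of_per {Q₁ Q₂ : ℂ → ℂ} (hQ₁ : Continuous Q₁) (hQ₂ : Continuous Q₂) {e₁ e₂ : ℕ}
    (he : e₁ < e₂) {σ : ℤ} (hσ : σ = 1 ∨ σ = -1) {x₀ : ℂ}
    (h : ∀ (x : ℂ) (m : ℤ), (Q₁ (x + pt m) - Q₂ (x + pt m)).re = (Q₁ x - Q₂ x).re) :
    Ll σ (EE e₁ Q₁) (EE e₂ Q₂) x₀ := by
  intro η hη
  set M : ℝ := (Q₁ x₀ - Q₂ x₀).re + 1 with hM
  have hM' : ∀ᶠ x in 𝓝 x₀, (Q₁ x - Q₂ x).re ≤ M := by
    have h1 : ContinuousAt (fun x => (Q₁ x - Q₂ x).re) x₀ :=
      (Complex.continuous_re.comp (hQ₁.sub hQ₂)).continuousAt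
    filter_upwards [h1.eventually (gt_mem_nhds (show (Q₁ x₀ - Q₂ x₀).re < M by linarith))] with x hx
    exact le_of_lt hx
  have e1 : ∀ᶠ p : ℂ × ℕ in 𝓝 x₀ ×ˢ atTop, (Q₁ p.1 - Q₂ p.1).re ≤ M :=
    (tendsto_fst (f := 𝓝 x₀) (g := (atTop : Filter ℕ))).eventually hM'
  filter_upwards [e1, large σ hσ x₀ (max 1 (Real.exp M / η))] with p h1 h2
  obtain ⟨h3, -⟩ := h2
  have hper := h p.1 (σ * p.2)
  set z := p.1 + pt (σ * p.2) with hz
  rw [norm_EE, norm_EE]
  have h4 : (1 : ℝ) ≤ ‖z‖ := (le_max_left _ _).trans h3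
  have h5 : Real.exp M ≤ η * ‖z‖ := by
    have := (le_max_right _ _).trans h3
    rw [div_le_iff₀ hη] at this
    linarith
  have h6 : (Q₁ z).re ≤ M + (Q₂ z).re := by
    rw [sub_re] at hper
    linarith
  have h7 : ‖z‖ * ‖z‖ ^ e₁ ≤ ‖z‖ ^ e₂ := by
    rw [← pow_succ']
    exact pow_le_pow_right₀ h4 he
  calc ‖z‖ ^ e₁ * Real.exp (Q₁ z).re ≤ ‖z‖ ^ e₁ * Real.exp (M + (Q₂ z).re) := by gcongr
    _ = ‖z‖ ^ e₁ * Real.exp M * Real.exp (Q₂ z).re := by rw [Real.exp_add]; ring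
    _ ≤ ‖z‖ ^ e₁ * (η * ‖z‖) * Real.exp (Q₂ z).re := by gcongr
    _ = η * (‖z‖ * ‖z‖ ^ e₁ * Real.exp (Q₂ z).re) := by ring
    _ ≤ η * (‖z‖ ^ e₂ * Real.exp (Q₂ z).re) := by gcongr

theorem Lw_of_rep {Q : ℂ → ℂ} (hQ : Rep Q) (e : ℕ) {σ : ℤ} (hσ : σ = 1 ∨ σ = -1) (x₀ : ℂ) :
    Lw σ (EE e Q) x₀ := by
  classical
  obtain ⟨L, a, ha, h⟩ := hQ
  set M : ℝ := ∑ r ∈ Finset.range L, |(a r x₀).re| + 1 with hM
  have hM0 : 0 < M := by
    have : 0 ≤ ∑ r ∈ Finset.range L, |(a r x₀).re| := Finset.sum_nonneg fun _ _ => abs_nonneg _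
    linarith
  have e1 : ∀ᶠ x in 𝓝 x₀, ∀ r ∈ Finset.range L, |(a r x).re| ≤ M := by
    rw [Filter.eventually_all_finset]
    intro r hr
    have h1 : |(a r x₀).re| < M := by
      have : |(a r x₀).re| ≤ ∑ r ∈ Finset.range L, |(a r x₀).re| :=
        Finset.single_le_sum (f := fun r => |(a r x₀).re|) (fun _ _ => abs_nonneg _) hr
      linarith
    have hcr : ContinuousAt (fun x => (a r x).re) x₀ :=
      (Complex.continuous_re.comp (ha r).continuous).continuousAt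
    filter_upwards [hcr.abs.eventually (gt_mem_nhds h1)] with x hx
    exact le_of_lt hx
  have e2 : ∀ᶠ p : ℂ × ℕ in 𝓝 x₀ ×ˢ atTop, ∀ r ∈ Finset.range L, |(a r p.1).re| ≤ M :=
    (tendsto_fst (f := 𝓝 x₀) (g := (atTop : Filter ℕ))).eventually e1
  refine ⟨L * M, L, ?_⟩
  filter_upwards [e2, large σ hσ x₀ 1] with p h1 h2
  obtain ⟨h2, -⟩ := h2
  have hz := h p.1 (σ * p.2)
  set z := p.1 + pt (σ * p.2) with hzdef
  rw [norm_EE]
  have hσabs : |(σ : ℝ)| = 1 := by rcases hσ with h | h <;> rw [h] <;> simp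
  have h3 : |(Q z).re| ≤ L * M * (1 + (p.2 : ℝ)) ^ L := by
    rw [hz, Complex.re_sum]
    calc |∑ r ∈ Finset.range L, (((σ * p.2 : ℤ) : ℂ) ^ r * a r p.1).re|
        ≤ ∑ r ∈ Finset.range L, |(((σ * p.2 : ℤ) : ℂ) ^ r * a r p.1).re| :=
          Finset.abs_sum_le_sum_abs _ _
      _ ≤ ∑ r ∈ Finset.range L, (1 + (p.2 : ℝ)) ^ L * M := by
          refine Finset.sum_le_sum fun r hr => ?_
          rw [re_cast_mul, abs_mul, abs_pow]
          push_cast
          rw [abs_mul, hσabs, one_mul, Nat.abs_cast]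
          have h4 : (p.2 : ℝ) ^ r ≤ (1 + (p.2 : ℝ)) ^ L := by
            have h5 : (0 : ℝ) ≤ p.2 := Nat.cast_nonneg _
            calc (p.2 : ℝ) ^ r ≤ (1 + (p.2 : ℝ)) ^ r := by gcongr; linarith
              _ ≤ (1 + (p.2 : ℝ)) ^ L :=
                pow_le_pow_right₀ (by linarith) (Finset.mem_range.1 hr).le
          have h6 := h1 r hr
          gcongr
      _ = L * M * (1 + (p.2 : ℝ)) ^ L := by
          rw [Finset.sum_const, Finset.card_range, nsmul_eq_mul]
          ring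
  calc Real.exp (-(L * M * (1 + (p.2 : ℝ)) ^ L)) ≤ Real.exp (Q z).re := by
        apply Real.exp_le_exp.2
        have := (abs_le.1 h3).1
        linarith
    _ = 1 * Real.exp (Q z).re := (one_mul _).symm
    _ ≤ ‖z‖ ^ e * Real.exp (Q z).re := by
        have : (1 : ℝ) ≤ ‖z‖ ^ e := one_le_pow₀ h2
        gcongr

/-- comparison of two summands -/
theorem cmp_EE {Q₁ Q₂ : ℂ → ℂ} (hQ₁ : IntExpPoly Q₁) (hQ₂ : IntExpPoly Q₂) {e₁ e₂ : ℕ}
    (hne : e₁ ≠ e₂ ∨ ∃ y, (Q₁ (y + 2 * Real.pi * I) - Q₂ (y + 2 * Real.pi * I)).re ≠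
      (Q₁ y - Q₂ y).re) {σ : ℤ} (hσ : σ = 1 ∨ σ = -1) :
    ∃ O : Set ℂ, IsOpen O ∧ Dense O ∧ ∀ x ∈ O, Ll σ (EE e₁ Q₁) (EE e₂ Q₂) x ∨
      Ll σ (EE e₂ Q₂) (EE e₁ Q₁) x := by
  rcases tri (hQ₁.rep.sub hQ₂.rep) hσ with h | ⟨O, hO, hOd, h⟩
  · refine ⟨univ, isOpen_univ, dense_univ, ?_⟩
    intro x _
    have hee : e₁ ≠ e₂ := by
      rcases hne with h1 | ⟨y, hy⟩
      · exact h1
      · exfalso
        apply hy
        have := h y 1
        have hpt : pt 1 = 2 * Real.pi * I := by simp [pt]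
        rw [hpt] at this
        exact this
    rcases lt_or_gt_of_ne hee with hlt | hgt
    · left
      exact Ll_of_per hQ₁.diff.continuous hQ₂.diff.continuous hlt hσ h
    · right
      refine Ll_of_per hQ₂.diff.continuous hQ₁.diff.continuous hgt hσ ?_
      intro x m
      have := h x m
      simp only [sub_re] at this ⊢
      linarith
  · refine ⟨O, hO, hOd, ?_⟩
    intro x hx
    obtain ⟨τ, hτ, a, ha, h⟩ := h x hx
    rcases hτ with rfl | rfl
    · right
      refine Ll_of_decay hσ ha ?_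
      filter_upwards [h] with p hp
      rwa [one_mul] at hp
    · left
      refine Ll_of_decay hσ ha ?_
      filter_upwards [h] with p hp
      simp only [sub_re] at hp ⊢
      linarith

end Pool.Agent.L5helper53.TL
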